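import Mathlib
import Pool.Agent.Lib.MP_551055_al.Trim.LS.Pos
import Pool.Agent.Lib.MP_551055_al.Trim.LS.Stmts

/-!
# Bridge: nilpotent matrices supported on one double coset

The position `a` is allowed if nilpotent matrices supported on one double coset of its stabiliser
(with unique decompositions) have class zero.
-/

set_option autoImplicit false

namespace Pool.Agent.Lib.MP_551055_al
end Pool.Agent.Lib.MP_551055_al

namespace Pool.Agent.Lib.MP_551055_al.LS
end Pool.Agent.Lib.MP_551055_al.LS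

namespace Pool.Agent.Lib.MP_551055_al.LO
end Pool.Agent.Lib.MP_551055_al.LO

namespace Pool.Agent.Lib.MP_551055_al.T4

open Pool.Agent.Lib.MP_551055_al

open Pool.Agent.Lib.MP_551055_al.LS

open Pool.Agent.Lib.MP_551055_al.LO

universe u v

/-- The relation on the cosets of `D` given by the double coset of `g`. -/
def crel {Γ : Type u} [Group Γ] (D : Subgroup Γ) (g : Γ) (a b : Γ ⧸ D) : Prop :=
  ∃ γ : Γ, a = (γ : Γ ⧸ D) ∧ b = ((γ * g : Γ) : Γ ⧸ D)

/-- Nilpotent matrices supported on a double coset of `D` with unique decompositions have class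
zero. -/
def NilOK {Γ : Type u} [Group Γ] (K : K1C (ZG Γ)) (D : Subgroup Γ) : Prop :=
  ∀ g : Γ, UR (Γ := Γ) (crel D g) → ∀ (ι : Type) [Fintype ι] [DecidableEq ι]
    (B : Matrix ι ι (ZG Γ)) (k : ℕ), B ^ k = 0 →
    (∀ i l γ, (B i l).coeff γ ≠ 0 → ∃ a ∈ D, ∃ b ∈ D, γ = a * g * b) →
    K.G (Matrix.toLinearMapRight' (1 + B))

/-- Unique decompositions for the stabiliser of a position. -/
theorem ur_crel {Γ : Type u} [Group Γ] {X : Type v} [MulAction Γ X] {r : X → X → Prop}
    (hr : UR (Γ := Γ) r) (x : X) (g : Γ) (hx : r x (g • x)) :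
    UR (Γ := Γ) (crel (MulAction.stabilizer Γ x) g) := by
  let φ : Γ ⧸ MulAction.stabilizer Γ x → X := MulAction.ofQuotientStabilizer Γ x
  have hφ : ∀ γ : Γ, φ (γ : Γ ⧸ MulAction.stabilizer Γ x) = γ • x := fun γ => rfl
  have hinj : Function.Injective φ := MulAction.injective_ofQuotientStabilizer Γ x
  have h1 : ∀ a b, crel (MulAction.stabilizer Γ x) g a b → r (φ a) (φ b) := by
    rintro a b ⟨γ, rfl, rfl⟩
    rw [hφ, hφ, mul_smul]
    exact hr.inv γ _ _ hx
  have h2 : ∀ i a b, itr (crel (MulAction.stabilizer Γ x) g) i a b → itr r i (φ a) (φ b) := by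
    intro i
    induction i with
    | zero => exact fun a b h => congrArg φ h
    | succ i ih =>
      rintro a b ⟨c, hc, h⟩
      exact ⟨φ c, h1 a c hc, ih c b h⟩
  refine ⟨?_, ?_⟩
  · rintro γ a b ⟨δ, rfl, rfl⟩
    refine ⟨γ * δ, rfl, ?_⟩
    rw [mul_assoc]
    rfl
  · intro i a b b' c hb hb' hc hc'
    exact hinj (hr.uniq i (φ a) (φ b) (φ b') (φ c) (h1 a b hb) (h1 a b' hb') (h2 i b c hc)
      (h2 i b' c hc'))

end Pool.Agent.Lib.MP_551055_al.T4
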