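import Mathlib
import Pool.Agent.Lib.MP_551055_al.Trim.LS.PStmts
import Pool.Agent.Lib.MP_551055_al.Trim.LS.Pos
import Pool.Agent.Lib.MP_551055_al.Trim.LS.Stmts
import Pool.Agent.Lib.MP_551055_al.Trim.Red.Defs
import Pool.Agent.Lib.MP_551055_al.Trim.T4.OrbT

/-!
# Bridge: the final theorem and the closure theorem
-/

set_option autoImplicit false

namespace Pool.Agent.Lib.MP_551055_al
end Pool.Agent.Lib.MP_551055_al

namespace Pool.Agent.Lib.MP_551055_al.LS
end Pool.Agent.Lib.MP_551055_al.LS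

namespace Pool.Agent.Lib.MP_551055_al.LO
end Pool.Agent.Lib.MP_551055_al.LO

namespace Pool.Agent.Lib.MP_551055_al.PT
end Pool.Agent.Lib.MP_551055_al.PT

namespace Pool.Agent.Lib.MP_551055_al.Red
end Pool.Agent.Lib.MP_551055_al.Red

namespace Pool.Agent.Lib.MP_551055_al.T4

open Pool.Agent.Lib.MP_551055_al

open Pool.Agent.Lib.MP_551055_al.LS

open Pool.Agent.Lib.MP_551055_al.LO

open Pool.Agent.Lib.MP_551055_al.PT

open Pool.Agent.Lib.MP_551055_al.Red (Img)

universe u v

/-- Nilpotent matrices over all `ℤ[G × ℤ^m]` supported on a double coset of `D × ℤ^m` have class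
zero. -/
def NGood (G : Type) [Group G] (D : Subgroup G) : Prop :=
  ∀ (m : ℕ) (K : K1C (ZG (G × ZN m))), NilOK K (D.prod (⊤ : Subgroup (ZN m)))

/-! ## The assembled theorems -/

end Pool.Agent.Lib.MP_551055_al.T4
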