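import Mathlib
import Pool.Agent.Lib.MP_551055_al.Trim.LS.PStmts
import Pool.Agent.Lib.MP_551055_al.Trim.LS.Pos
import Pool.Agent.Lib.MP_551055_al.Trim.LS.Stmts
import Pool.Agent.Lib.MP_551055_al.Trim.T4.FinalT
import Pool.Agent.Lib.MP_551055_al.Trim.T4.OrbT
import Pool.Agent.Lib.MP_551055_al.Trim.T4.Transport

/-!
# Bridge: coefficients in `A = ℤ[ℤ^m]`
-/

set_option autoImplicit false

namespace Pool.Agent.Lib.MP_551055_al
end Pool.Agent.Lib.MP_551055_al

namespace Pool.Agent.Lib.MP_551055_al.LS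
end Pool.Agent.Lib.MP_551055_al.LS

namespace Pool.Agent.Lib.MP_551055_al.LO
end Pool.Agent.Lib.MP_551055_al.LO

namespace Pool.Agent.Lib.MP_551055_al.T4

open Pool.Agent.Lib.MP_551055_al

open Pool.Agent.Lib.MP_551055_al.LS

open Pool.Agent.Lib.MP_551055_al.LO

universe u v

/-- Nilpotent matrices over `A[G]` supported on a double coset of `D` with unique decompositions
have class zero. -/
def NilOKA {A : Type u} [CommRing A] {G : Type u} [Group G] (K : K1C (MonoidAlgebra A G))
    (D : Subgroup G) : Prop :=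
  ∀ g : G, UR (Γ := G) (crel D g) → ∀ (ι : Type) [Fintype ι] [DecidableEq ι]
    (B : Matrix ι ι (MonoidAlgebra A G)) (k : ℕ), B ^ k = 0 →
    (∀ i l γ, (B i l).coeff γ ≠ 0 → ∃ a ∈ D, ∃ b ∈ D, γ = a * g * b) →
    K.G (Matrix.toLinearMapRight' (1 + B))

theorem curry_coeff {G H : Type u} [Group G] [Group H] (x : MonoidAlgebra ℤ (G × H)) (g : G)
    (h : H) : ((MonoidAlgebra.curryRingEquiv x).coeff g).coeff h = x.coeff (g, h) := by
  classical
  induction x using MonoidAlgebra.induction_linear with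
  | zero => rw [map_zero]; rfl
  | add a b h1 h2 =>
    rw [map_add]
    change ((MonoidAlgebra.curryRingEquiv a).coeff g).coeff h +
      ((MonoidAlgebra.curryRingEquiv b).coeff g).coeff h = a.coeff (g, h) + b.coeff (g, h)
    rw [h1, h2]
  | single δ c =>
    obtain ⟨g', h'⟩ := δ
    rw [MonoidAlgebra.curryRingEquiv_single, MonoidAlgebra.coeff_single,
      MonoidAlgebra.coeff_single, Finsupp.single_apply, Finsupp.single_apply]
    by_cases h1 : g' = g
    · subst h1
      rw [if_pos rfl, MonoidAlgebra.coeff_single, Finsupp.single_apply]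
      by_cases h2 : h' = h
      · subst h2
        rw [if_pos rfl, if_pos rfl]
      · rw [if_neg h2, if_neg fun h3 => h2 (congrArg Prod.snd h3)]
    · rw [if_neg h1, if_neg fun h3 => h1 (congrArg Prod.fst h3)]
      rfl

theorem ur_prod {G H : Type u} [Group G] [Group H] (D : Subgroup G) (g : G × H)
    (h : UR (Γ := G × H) (crel (D.prod (⊤ : Subgroup H)) g)) : UR (Γ := G) (crel D g.1) := by
  let ψ : G ⧸ D → (G × H) ⧸ D.prod (⊤ : Subgroup H) := Quotient.map' (fun γ => (γ, 1)) (by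
    intro a b hab
    rw [QuotientGroup.leftRel_apply] at hab ⊢
    exact Subgroup.mem_prod.2 ⟨hab, Subgroup.mem_top _⟩)
  have hψ : ∀ γ : G, ψ (γ : G ⧸ D) = (((γ, 1) : G × H) : (G × H) ⧸ D.prod (⊤ : Subgroup H)) :=
    fun γ => rfl
  have hinj : Function.Injective ψ := by
    intro a b
    induction a using QuotientGroup.induction_on
    induction b using QuotientGroup.induction_on
    rename_i a b
    intro hab
    rw [hψ, hψ, QuotientGroup.eq] at hab
    exact QuotientGroup.eq.2 (Subgroup.mem_prod.1 hab).1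
  have h1 : ∀ a b, crel D g.1 a b → crel (D.prod (⊤ : Subgroup H)) g (ψ a) (ψ b) := by
    rintro a b ⟨γ, rfl, rfl⟩
    refine ⟨(γ, 1), rfl, ?_⟩
    rw [hψ, QuotientGroup.eq]
    refine Subgroup.mem_prod.2 ⟨?_, Subgroup.mem_top _⟩
    change (γ * g.1)⁻¹ * (γ * g.1) ∈ D
    rw [inv_mul_cancel]
    exact D.one_mem
  have h2 : ∀ i a b, itr (crel D g.1) i a b →
      itr (crel (D.prod (⊤ : Subgroup H)) g) i (ψ a) (ψ b) := by
    intro i
    induction i with
    | zero => exact fun a b h => congrArg ψ h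
    | succ i ih =>
      rintro a b ⟨c, hc, h⟩
      exact ⟨ψ c, h1 a c hc, ih c b h⟩
  refine ⟨?_, ?_⟩
  · rintro γ a b ⟨δ, rfl, rfl⟩
    refine ⟨γ * δ, rfl, ?_⟩
    rw [mul_assoc]
    rfl
  · intro i a b b' c hb hb' hc hc'
    exact hinj (h.uniq i (ψ a) (ψ b) (ψ b') (ψ c) (h1 a b hb) (h1 a b' hb') (h2 i b c hc)
      (h2 i b' c hc'))

/-- The case of the group ring of a product over `ℤ`. -/
theorem nilOK_prod {G H : Type} [Group G] [CommGroup H] (D : Subgroup G)
    (h : ∀ K : K1C (MonoidAlgebra (MonoidAlgebra ℤ H) G), NilOKA K D)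
    (K : K1C (ZG (G × H))) : NilOK K (D.prod (⊤ : Subgroup H)) := by
  classical
  intro g hur ι _ _ B k hB hsupp
  let E : ZG (G × H) ≃+* MonoidAlgebra (MonoidAlgebra ℤ H) G := MonoidAlgebra.curryRingEquiv
  have h1 := h (trK E K) g.1 (ur_prod D g hur) ι (B.map E) k (by
    have h2 : (B.map E) ^ k = (B ^ k).map E :=
      (map_pow (RingHom.mapMatrix (E : ZG (G × H) →+* MonoidAlgebra (MonoidAlgebra ℤ H) G)) B k).symm
    rw [h2, hB]
    exact map_zero (RingHom.mapMatrix (m := ι)
      (E : ZG (G × H) →+* MonoidAlgebra (MonoidAlgebra ℤ H) G))) (by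
    intro i l γ hne
    obtain ⟨δ, hδ⟩ : ∃ δ, ((E (B i l)).coeff γ).coeff δ ≠ 0 := by
      by_contra hne'
      push Not at hne'
      apply hne
      apply MonoidAlgebra.ext
      ext δ
      exact hne' δ
    rw [curry_coeff] at hδ
    obtain ⟨a, ha, b, hb, hab⟩ := hsupp i l _ hδ
    exact ⟨a.1, (Subgroup.mem_prod.1 ha).1, b.1, (Subgroup.mem_prod.1 hb).1,
      congrArg Prod.fst hab⟩)
  rw [trK_G] at h1
  have h4 : 1 + B.map E = (1 + B).map E := by
    have h5 := map_add (RingHom.mapMatrix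
      (E : ZG (G × H) →+* MonoidAlgebra (MonoidAlgebra ℤ H) G)) (1 : Matrix ι ι (ZG (G × H))) B
    rw [map_one] at h5
    exact h5.symm
  rw [h4] at h1
  have h6 := bk_toLin E (1 + B)
  rw [← h6]
  exact h1

/-- The good subgroups. -/
theorem nGood_of_nilOKA {G : Type} [Group G] (D : Subgroup G)
    (h : ∀ (m : ℕ) (K : K1C (MonoidAlgebra (MonoidAlgebra ℤ (ZN m)) G)), NilOKA K D) :
    NGood G D := fun m K => nilOK_prod D (h m) K

end Pool.Agent.Lib.MP_551055_al.T4
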