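import Mathlib
import Pool.Agent.Lib.MP_551055_al.Trim.Descent

/-!
# Induced modules

For a subgroup `D` of `G` and a module `M` over `A[D]` the induced module `Ind A D M` over `A[G]` is
the group of finitely supported functions on the cosets `G ⧸ D` with values in `M`; the element
`Finsupp.single x m` is `x ⊗ m` for the chosen representative of the coset `x`.
-/

set_option autoImplicit false

namespace Pool.Agent.Lib.MP_551055_al
end Pool.Agent.Lib.MP_551055_al

namespace Pool.Agent.Lib.MP_551055_al.T4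

open Pool.Agent.Lib.MP_551055_al

universe u v

section Defs

variable {G : Type u} [Group G] (D : Subgroup G)

/-- The representative of a coset. -/
noncomputable def rep (x : G ⧸ D) : G := Quotient.out x

theorem mk_rep (x : G ⧸ D) : (QuotientGroup.mk (rep D x) : G ⧸ D) = x := Quotient.out_eq' x

theorem rep_mem (g : G) (x : G ⧸ D) (h : (QuotientGroup.mk g : G ⧸ D) = x) :
    (rep D x)⁻¹ * g ∈ D := by
  rw [← QuotientGroup.eq, mk_rep, h]

/-- The cocycle of the representatives: `g * rep x = rep (g • x) * kap g x`. -/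
noncomputable def kap (g : G) (x : G ⧸ D) : D :=
  ⟨(rep D (g • x))⁻¹ * (g * rep D x), rep_mem D _ _ (by
    rw [← smul_eq_mul, ← MulAction.Quotient.smul_mk, mk_rep])⟩

theorem kap_coe (g : G) (x : G ⧸ D) :
    (kap D g x : G) = (rep D (g • x))⁻¹ * (g * rep D x) := rfl

theorem kap_one (x : G ⧸ D) : kap D 1 x = 1 := by
  apply Subtype.ext
  rw [kap_coe, one_smul, one_mul, inv_mul_cancel]
  rfl

theorem kap_mul (g h : G) (x : G ⧸ D) : kap D (g * h) x = kap D g (h • x) * kap D h x := by
  apply Subtype.ext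
  rw [Subgroup.coe_mul, kap_coe, kap_coe, kap_coe, mul_smul]
  group

variable (A : Type u) [CommRing A]

/-- The inclusion of the group rings. -/
noncomputable abbrev incD : MonoidAlgebra A D →+* MonoidAlgebra A G := inc A D.subtype

variable (M : Type v) [AddCommGroup M]

/-- The induced module. -/
def Ind (A : Type u) [CommRing A] {G : Type u} [Group G] (D : Subgroup G) (M : Type v)
    [AddCommGroup M] : Type (max u v) := (G ⧸ D) →₀ M

noncomputable instance : AddCommGroup (Ind A D M) := inferInstanceAs (AddCommGroup ((G ⧸ D) →₀ M))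

/-- The values. -/
def Ind.val {A : Type u} [CommRing A] {G : Type u} [Group G] {D : Subgroup G} {M : Type v}
    [AddCommGroup M] (φ : Ind A D M) : G ⧸ D → M := DFunLike.coe (F := (G ⧸ D) →₀ M) φ

instance : CoeFun (Ind A D M) (fun _ => G ⧸ D → M) := ⟨Ind.val⟩

variable {A M D}

theorem Ind.ext {φ ψ : Ind A D M} (h : ∀ x, φ x = ψ x) : φ = ψ :=
  Finsupp.ext h

theorem Ind.add_apply (φ ψ : Ind A D M) (x : G ⧸ D) : (φ + ψ) x = φ x + ψ x := rfl

theorem Ind.zero_apply (x : G ⧸ D) : (0 : Ind A D M) x = 0 := rfl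

theorem Ind.neg_apply (φ : Ind A D M) (x : G ⧸ D) : (-φ) x = -φ x := rfl

/-- The element `x ⊗ m`. -/
noncomputable def Ind.sg (A : Type u) [CommRing A] (x : G ⧸ D) (m : M) : Ind A D M :=
  Finsupp.single x m

theorem Ind.sg_self (x : G ⧸ D) (m : M) : (Ind.sg A x m) x = m := Finsupp.single_eq_same

theorem Ind.sg_ne {x y : G ⧸ D} (h : y ≠ x) (m : M) : (Ind.sg A x m) y = 0 :=
  Finsupp.single_eq_of_ne h

theorem Ind.sg_zero (x : G ⧸ D) : Ind.sg A x (0 : M) = 0 := Finsupp.single_zero x

theorem Ind.sg_add (x : G ⧸ D) (m n : M) :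
    Ind.sg A x (m + n) = Ind.sg A x m + Ind.sg A x n := Finsupp.single_add x m n

theorem Ind.induction {Q : Ind A D M → Prop} (φ : Ind A D M) (h0 : Q 0)
    (ha : ∀ φ ψ, Q φ → Q ψ → Q (φ + ψ)) (hs : ∀ x m, Q (Ind.sg A x m)) : Q φ :=
  Finsupp.induction_linear (motive := Q) φ h0 ha hs

theorem Ind.addHom_ext {N : Type*} [AddCommGroup N] {f g : Ind A D M →+ N}
    (h : ∀ x m, f (Ind.sg A x m) = g (Ind.sg A x m)) : f = g :=
  Finsupp.addHom_ext h

/-- Additive maps from the induced module. -/
noncomputable def Ind.liftAdd {N : Type*} [AddCommGroup N] (f : (G ⧸ D) → M →+ N) :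
    Ind A D M →+ N := Finsupp.liftAddHom f

theorem Ind.liftAdd_sg {N : Type*} [AddCommGroup N] (f : (G ⧸ D) → M →+ N) (x : G ⧸ D) (m : M) :
    Ind.liftAdd (A := A) f (Ind.sg A x m) = f x m := Finsupp.liftAddHom_apply_single f x m

end Defs

section Action

variable {G : Type u} [Group G] (D : Subgroup G) (A : Type u) [CommRing A]

variable (M : Type v) [AddCommGroup M] [Module (MonoidAlgebra A D) M]

/-- The action of `a g`. -/
noncomputable def act1 (g : G) : A →+ (Ind A D M →+ Ind A D M) where
  toFun a := Ind.liftAdd (fun x =>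
    { toFun := fun m => Ind.sg A (g • x) ((MonoidAlgebra.single (kap D g x) a : MonoidAlgebra A D) • m)
      map_zero' := by rw [smul_zero, Ind.sg_zero]
      map_add' := fun m n => by rw [smul_add, Ind.sg_add] })
  map_zero' := by
    refine Ind.addHom_ext fun x m => ?_
    rw [Ind.liftAdd_sg]
    change Ind.sg A (g • x) ((MonoidAlgebra.single (kap D g x) 0 : MonoidAlgebra A D) • m) = 0
    rw [MonoidAlgebra.single_zero, zero_smul, Ind.sg_zero]
  map_add' a b := by
    refine Ind.addHom_ext fun x m => ?_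
    rw [AddMonoidHom.add_apply, Ind.liftAdd_sg, Ind.liftAdd_sg, Ind.liftAdd_sg]
    change Ind.sg A (g • x) ((MonoidAlgebra.single (kap D g x) (a + b) : MonoidAlgebra A D) • m) =
      Ind.sg A (g • x) ((MonoidAlgebra.single (kap D g x) a : MonoidAlgebra A D) • m) +
      Ind.sg A (g • x) ((MonoidAlgebra.single (kap D g x) b : MonoidAlgebra A D) • m)
    rw [MonoidAlgebra.single_add, add_smul, Ind.sg_add]

theorem act1_sg (g : G) (a : A) (x : G ⧸ D) (m : M) :
    act1 D A M g a (Ind.sg A x m) =
      Ind.sg A (g • x) ((MonoidAlgebra.single (kap D g x) a : MonoidAlgebra A D) • m) :=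
  Ind.liftAdd_sg _ x m

/-- The action of the group ring. -/
noncomputable def act : MonoidAlgebra A G →+ (Ind A D M →+ Ind A D M) :=
  (Finsupp.liftAddHom (act1 D A M)).comp (MonoidAlgebra.coeffAddEquiv (R := A) (M := G)).toAddMonoidHom

theorem act_single (g : G) (a : A) : act D A M (MonoidAlgebra.single g a) = act1 D A M g a :=
  Finsupp.liftAddHom_apply_single _ g a

theorem act_single_sg (g : G) (a : A) (x : G ⧸ D) (m : M) :
    act D A M (MonoidAlgebra.single g a) (Ind.sg A x m) =
      Ind.sg A (g • x) ((MonoidAlgebra.single (kap D g x) a : MonoidAlgebra A D) • m) := by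
  rw [act_single, act1_sg]

theorem act_one : act D A M 1 = AddMonoidHom.id _ := by
  refine Ind.addHom_ext fun x m => ?_
  rw [MonoidAlgebra.one_def, act_single_sg, kap_one, one_smul, ← MonoidAlgebra.one_def, one_smul]
  rfl

theorem act_mul (s t : MonoidAlgebra A G) :
    act D A M (s * t) = (act D A M s).comp (act D A M t) := by
  induction s using MonoidAlgebra.induction_linear with
  | zero =>
    rw [zero_mul, map_zero]
    rfl
  | add a b ha hb =>
    rw [add_mul, map_add, ha, hb, map_add]
    rfl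
  | single g a =>
    induction t using MonoidAlgebra.induction_linear with
    | zero =>
      rw [mul_zero, map_zero]
      refine AddMonoidHom.ext fun φ => ?_
      exact (map_zero (act D A M (MonoidAlgebra.single g a))).symm
    | add b c hb hc =>
      rw [mul_add, map_add, hb, hc, map_add]
      refine AddMonoidHom.ext fun φ => ?_
      exact (map_add (act D A M (MonoidAlgebra.single g a)) _ _).symm
    | single h b =>
      rw [MonoidAlgebra.single_mul_single]
      refine Ind.addHom_ext fun x m => ?_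
      rw [AddMonoidHom.comp_apply, act_single_sg, act_single_sg, act_single_sg, mul_smul g h x,
        kap_mul, ← MonoidAlgebra.single_mul_single, mul_smul]

noncomputable instance : Module (MonoidAlgebra A G) (Ind A D M) where
  smul s φ := act D A M s φ
  one_smul φ := by
    change act D A M 1 φ = φ
    rw [act_one]
    rfl
  mul_smul s t φ := by
    change act D A M (s * t) φ = act D A M s (act D A M t φ)
    rw [act_mul]
    rfl
  smul_zero s := map_zero (act D A M s)
  smul_add s φ ψ := map_add (act D A M s) φ ψ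
  add_smul s t φ := by
    change act D A M (s + t) φ = act D A M s φ + act D A M t φ
    rw [map_add]
    rfl
  zero_smul φ := by
    change act D A M 0 φ = 0
    rw [map_zero]
    rfl

variable {D A M}

theorem Ind.single_smul_sg (g : G) (a : A) (x : G ⧸ D) (m : M) :
    (MonoidAlgebra.single g a : MonoidAlgebra A G) • Ind.sg A x m =
      Ind.sg A (g • x) ((MonoidAlgebra.single (kap D g x) a : MonoidAlgebra A D) • m) :=
  act_single_sg D A M g a x m

/-- The values of `(a g) φ`. -/
theorem Ind.single_smul_apply (g : G) (a : A) (φ : Ind A D M) (x : G ⧸ D) :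
    ((MonoidAlgebra.single g a : MonoidAlgebra A G) • φ) (g • x) =
      (MonoidAlgebra.single (kap D g x) a : MonoidAlgebra A D) • φ x := by
  classical
  refine Ind.induction (Q := fun φ => ((MonoidAlgebra.single g a : MonoidAlgebra A G) • φ) (g • x) =
      (MonoidAlgebra.single (kap D g x) a : MonoidAlgebra A D) • φ x) φ ?_ ?_ ?_
  · rw [smul_zero, Ind.zero_apply, Ind.zero_apply, smul_zero]
  · intro φ ψ h1 h2
    rw [smul_add, Ind.add_apply, h1, h2, Ind.add_apply, smul_add]
  · intro y m
    rw [Ind.single_smul_sg]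
    by_cases hxy : x = y
    · subst hxy
      rw [Ind.sg_self, Ind.sg_self]
    · rw [Ind.sg_ne hxy, Ind.sg_ne (fun h => hxy (MulAction.injective g h)), smul_zero]

theorem Ind.single_smul_apply' (g : G) (a : A) (φ : Ind A D M) (y : G ⧸ D) :
    ((MonoidAlgebra.single g a : MonoidAlgebra A G) • φ) y =
      (MonoidAlgebra.single (kap D g (g⁻¹ • y)) a : MonoidAlgebra A D) • φ (g⁻¹ • y) := by
  rw [← Ind.single_smul_apply, smul_inv_smul]

/-- The functions with values in a submodule. -/
def Ind.sub (N : Submodule (MonoidAlgebra A D) M) : Submodule (MonoidAlgebra A G) (Ind A D M) where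
  carrier := {φ | ∀ x, φ x ∈ N}
  add_mem' {φ ψ} h1 h2 x := by
    rw [Ind.add_apply]
    exact N.add_mem (h1 x) (h2 x)
  zero_mem' x := by
    rw [Ind.zero_apply]
    exact N.zero_mem
  smul_mem' s φ h := by
    induction s using MonoidAlgebra.induction_linear with
    | zero =>
      rw [zero_smul]
      intro x
      rw [Ind.zero_apply]
      exact N.zero_mem
    | add a b ha hb =>
      rw [add_smul]
      intro x
      rw [Ind.add_apply]
      exact N.add_mem (ha x) (hb x)
    | single g a =>
      intro x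
      rw [Ind.single_smul_apply']
      exact N.smul_mem _ (h _)

variable (D A)

/-- The inclusion `m ↦ 1 ⊗ m`. -/
noncomputable def Ind.iota : M →ₛₗ[incD D A] Ind A D M where
  toFun m := (MonoidAlgebra.single (rep D (QuotientGroup.mk 1))⁻¹ 1 : MonoidAlgebra A G) •
    Ind.sg A (QuotientGroup.mk 1) m
  map_add' m n := by rw [Ind.sg_add, smul_add]
  map_smul' r m := by
    induction r using MonoidAlgebra.induction_linear with
    | zero => rw [zero_smul, Ind.sg_zero, smul_zero, map_zero, zero_smul]
    | add a b ha hb => rw [add_smul, Ind.sg_add, smul_add, ha, hb, map_add, add_smul]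
    | single d a =>
      rw [inc_single, ← mul_smul, MonoidAlgebra.single_mul_single]
      have h1 : ((d : G) • (QuotientGroup.mk 1 : G ⧸ D)) = QuotientGroup.mk 1 := by
        rw [MulAction.Quotient.smul_mk, smul_eq_mul, mul_one, eq_comm, QuotientGroup.eq, inv_one,
          one_mul]
        exact d.2
      have h2 : ∀ (x : G ⧸ D), x = QuotientGroup.mk 1 →
          (rep D x)⁻¹ • x = (QuotientGroup.mk 1 : G ⧸ D) := by
        rintro x hx
        conv_lhs => rw [← mk_rep D x]
        rw [MulAction.Quotient.smul_mk, smul_eq_mul, mk_rep, inv_mul_cancel]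
      have h3 : (D.subtype d * (rep D (QuotientGroup.mk 1 : G ⧸ D))⁻¹) •
          (QuotientGroup.mk 1 : G ⧸ D) = QuotientGroup.mk 1 := by
        rw [mul_smul, h2 _ rfl]
        exact h1
      rw [Ind.single_smul_sg, Ind.single_smul_sg, h2 _ rfl, h3, ← mul_smul,
        MonoidAlgebra.single_mul_single]
      have h4 : kap D (rep D (QuotientGroup.mk 1 : G ⧸ D))⁻¹ (QuotientGroup.mk 1) * d =
          kap D (D.subtype d * (rep D (QuotientGroup.mk 1 : G ⧸ D))⁻¹) (QuotientGroup.mk 1) := by
        apply Subtype.ext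
        rw [Subgroup.coe_mul, kap_coe, kap_coe, h2 _ rfl, h3, inv_mul_cancel, mul_one,
          mul_assoc, inv_mul_cancel, mul_one]
        rfl
      rw [h4, one_mul, mul_one]

theorem Ind.iota_def (m : M) : Ind.iota D A m =
    (MonoidAlgebra.single (rep D (QuotientGroup.mk 1))⁻¹ 1 : MonoidAlgebra A G) •
      Ind.sg A (QuotientGroup.mk 1) m := rfl

theorem Ind.rep_inv_smul (x : G ⧸ D) : (rep D x)⁻¹ • x = (QuotientGroup.mk 1 : G ⧸ D) := by
  conv_lhs => rw [← mk_rep D x]
  rw [MulAction.Quotient.smul_mk, smul_eq_mul, mk_rep, inv_mul_cancel]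

theorem Ind.rep_smul_iota (x : G ⧸ D) (m : M) :
    (MonoidAlgebra.single (rep D x) 1 : MonoidAlgebra A G) • Ind.iota D A m = Ind.sg A x m := by
  have h1 : (rep D x * (rep D (QuotientGroup.mk 1 : G ⧸ D))⁻¹) •
      (QuotientGroup.mk 1 : G ⧸ D) = x := by
    rw [mul_smul, Ind.rep_inv_smul, MulAction.Quotient.smul_mk, smul_eq_mul, mul_one, mk_rep]
  have h2 : kap D (rep D x * (rep D (QuotientGroup.mk 1 : G ⧸ D))⁻¹) (QuotientGroup.mk 1) = 1 := by
    apply Subtype.ext
    rw [kap_coe, h1, inv_mul_cancel_right, inv_mul_cancel]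
    rfl
  rw [Ind.iota_def, ← mul_smul, MonoidAlgebra.single_mul_single, Ind.single_smul_sg, h1, h2,
    mul_one, ← MonoidAlgebra.one_def, one_smul]

end Action

section Lift

variable {G : Type u} [Group G] {D : Subgroup G} {A : Type u} [CommRing A]

variable {M : Type v} [AddCommGroup M] [Module (MonoidAlgebra A D) M]

variable {M' : Type v} [AddCommGroup M'] [Module (MonoidAlgebra A D) M']

variable {M'' : Type v} [AddCommGroup M''] [Module (MonoidAlgebra A D) M'']

variable {Y : Type*} [AddCommGroup Y] [Module (MonoidAlgebra A G) Y]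

variable {Y' : Type*} [AddCommGroup Y'] [Module (MonoidAlgebra A G) Y']

/-- Maps which agree on the image of `iota` are equal. -/
theorem Ind.hom_ext {f g : Ind A D M →ₗ[MonoidAlgebra A G] Y}
    (h : ∀ m, f (Ind.iota D A m) = g (Ind.iota D A m)) : f = g := by
  have h1 : f.toAddMonoidHom = g.toAddMonoidHom := by
    refine Ind.addHom_ext fun x m => ?_
    change f (Ind.sg A x m) = g (Ind.sg A x m)
    rw [← Ind.rep_smul_iota, map_smul, map_smul, h]
  exact LinearMap.ext fun φ => DFunLike.congr_fun h1 φ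

/-- The map `m ↦ x ⊗ f m`. -/
noncomputable def Ind.liftAux (f : M →ₛₗ[incD D A] Y) (x : G ⧸ D) : M →+ Y where
  toFun m := (MonoidAlgebra.single (rep D x) 1 : MonoidAlgebra A G) • f m
  map_zero' := by rw [map_zero, smul_zero]
  map_add' m n := by rw [map_add, smul_add]

/-- The linear map defined by a semilinear map. -/
noncomputable def Ind.lift (f : M →ₛₗ[incD D A] Y) : Ind A D M →ₗ[MonoidAlgebra A G] Y where
  toFun := Ind.liftAdd (Ind.liftAux f)
  map_add' φ ψ := map_add _ φ ψ
  map_smul' s φ := by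
    rw [RingHom.id_apply]
    refine Ind.induction (Q := fun φ => Ind.liftAdd (Ind.liftAux f) (s • φ) =
      s • Ind.liftAdd (Ind.liftAux f) φ) φ ?_ ?_ ?_
    · rw [smul_zero, map_zero, smul_zero]
    · intro φ ψ h1 h2
      rw [smul_add, map_add, h1, h2, map_add, smul_add]
    · intro x m
      induction s using MonoidAlgebra.induction_linear with
      | zero => rw [zero_smul, map_zero, zero_smul]
      | add a b ha hb => rw [add_smul, map_add, ha, hb, add_smul]
      | single g a =>
        rw [Ind.single_smul_sg, Ind.liftAdd_sg, Ind.liftAdd_sg]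
        change (MonoidAlgebra.single (rep D (g • x)) 1 : MonoidAlgebra A G) •
          f ((MonoidAlgebra.single (kap D g x) a : MonoidAlgebra A D) • m) =
          (MonoidAlgebra.single g a : MonoidAlgebra A G) •
            (MonoidAlgebra.single (rep D x) 1 : MonoidAlgebra A G) • f m
        rw [LinearMap.map_smulₛₗ, inc_single, ← mul_smul, ← mul_smul,
          MonoidAlgebra.single_mul_single, MonoidAlgebra.single_mul_single, one_mul, mul_one]
        congr 2
        change rep D (g • x) * (kap D g x : G) = _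
        rw [kap_coe, mul_inv_cancel_left]

theorem Ind.lift_sg (f : M →ₛₗ[incD D A] Y) (x : G ⧸ D) (m : M) :
    Ind.lift f (Ind.sg A x m) = (MonoidAlgebra.single (rep D x) 1 : MonoidAlgebra A G) • f m :=
  Ind.liftAdd_sg _ x m

theorem Ind.lift_iota (f : M →ₛₗ[incD D A] Y) (m : M) : Ind.lift f (Ind.iota D A m) = f m := by
  rw [Ind.iota_def, map_smul, Ind.lift_sg, ← mul_smul, MonoidAlgebra.single_mul_single,
    inv_mul_cancel, mul_one, ← MonoidAlgebra.one_def, one_smul]

/-- The functoriality of the induced modules. -/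
noncomputable def Ind.map (h : M →ₗ[MonoidAlgebra A D] M') :
    Ind A D M →ₗ[MonoidAlgebra A G] Ind A D M' :=
  Ind.lift ((Ind.iota D A).comp h)

theorem Ind.map_iota (h : M →ₗ[MonoidAlgebra A D] M') (m : M) :
    Ind.map h (Ind.iota D A m) = Ind.iota D A (h m) := Ind.lift_iota _ m

theorem Ind.map_sg (h : M →ₗ[MonoidAlgebra A D] M') (x : G ⧸ D) (m : M) :
    Ind.map h (Ind.sg A x m) = Ind.sg A x (h m) := by
  rw [← Ind.rep_smul_iota, map_smul, Ind.map_iota, Ind.rep_smul_iota]

theorem Ind.map_apply (h : M →ₗ[MonoidAlgebra A D] M') (φ : Ind A D M) (x : G ⧸ D) :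
    Ind.map h φ x = h (φ x) := by
  refine Ind.induction (Q := fun φ => Ind.map h φ x = h (φ x)) φ ?_ ?_ ?_
  · rw [map_zero, Ind.zero_apply, Ind.zero_apply, map_zero]
  · intro φ ψ h1 h2
    rw [map_add, Ind.add_apply, h1, h2, Ind.add_apply, map_add]
  · intro y m
    rw [Ind.map_sg]
    by_cases hxy : x = y
    · subst hxy
      rw [Ind.sg_self, Ind.sg_self]
    · rw [Ind.sg_ne hxy, Ind.sg_ne hxy, map_zero]

theorem Ind.map_id : Ind.map (LinearMap.id : M →ₗ[MonoidAlgebra A D] M) = LinearMap.id :=
  LinearMap.ext fun φ => Ind.ext fun x => Ind.map_apply _ φ x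

theorem Ind.map_comp (h : M →ₗ[MonoidAlgebra A D] M') (k : M' →ₗ[MonoidAlgebra A D] M'') :
    Ind.map (k ∘ₗ h) = Ind.map k ∘ₗ Ind.map h :=
  LinearMap.ext fun φ => Ind.ext fun x => by
    rw [LinearMap.comp_apply, Ind.map_apply, Ind.map_apply, Ind.map_apply]
    rfl

theorem Ind.map_add (h k : M →ₗ[MonoidAlgebra A D] M') :
    Ind.map (h + k) = Ind.map h + Ind.map k :=
  LinearMap.ext fun φ => Ind.ext fun x => by
    rw [LinearMap.add_apply, Ind.add_apply, Ind.map_apply, Ind.map_apply, Ind.map_apply]
    rfl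

theorem Ind.map_zero : Ind.map (0 : M →ₗ[MonoidAlgebra A D] M') = 0 :=
  LinearMap.ext fun φ => Ind.ext fun x => by
    rw [Ind.map_apply]
    rfl

theorem Ind.map_injective {h : M →ₗ[MonoidAlgebra A D] M'} (hh : Function.Injective h) :
    Function.Injective (Ind.map (G := G) h) := by
  intro φ ψ hφ
  refine Ind.ext fun x => hh ?_
  rw [← Ind.map_apply, ← Ind.map_apply, hφ]

theorem Ind.map_surjective {h : M →ₗ[MonoidAlgebra A D] M'} (hh : Function.Surjective h) :
    Function.Surjective (Ind.map (G := G) h) := by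
  intro φ
  refine Ind.induction (Q := fun φ => ∃ a, Ind.map h a = φ) φ ⟨0, LinearMap.map_zero _⟩ ?_ ?_
  · rintro φ ψ ⟨a, ha⟩ ⟨b, hb⟩
    exact ⟨a + b, by rw [LinearMap.map_add, ha, hb]⟩
  · intro x m
    obtain ⟨m', rfl⟩ := hh m
    exact ⟨Ind.sg A x m', Ind.map_sg h x m'⟩

/-- Exactness. -/
theorem Ind.map_exact {i : M →ₗ[MonoidAlgebra A D] M'} {q : M' →ₗ[MonoidAlgebra A D] M''}
    (h : ∀ y, q y = 0 ↔ ∃ x, i x = y) (φ : Ind A D M') :
    Ind.map q φ = 0 ↔ ∃ ψ, Ind.map i ψ = φ := by
  constructor
  · intro hφ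
    have h1 : ∀ x, q (φ x) = 0 := fun x => by
      rw [← Ind.map_apply, hφ]
      rfl
    have h2 : ∀ φ : Ind A D M', (∀ x, q (φ x) = 0) → ∃ ψ, Ind.map i ψ = φ := by
      classical
      intro φ
      refine Finsupp.induction (motive := fun φ : (G ⧸ D) →₀ M' => (∀ x, q (φ x) = 0) →
        ∃ ψ : Ind A D M, Ind.map i ψ = (show Ind A D M' from φ)) φ ?_ ?_
      · intro _
        exact ⟨0, LinearMap.map_zero _⟩
      · intro x m φ hx _ ih hq
        have h3 : q m = 0 := by
          have h4 := hq x
          rw [Finsupp.add_apply, Finsupp.single_eq_same, Finsupp.notMem_support_iff.1 hx,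
            add_zero] at h4
          exact h4
        obtain ⟨m', rfl⟩ := (h m).1 h3
        obtain ⟨ψ, hψ⟩ := ih fun y => by
          by_cases hy : y = x
          · subst hy
            rw [Finsupp.notMem_support_iff.1 hx, LinearMap.map_zero]
          · have h4 := hq y
            rw [Finsupp.add_apply, Finsupp.single_eq_of_ne hy, zero_add] at h4
            exact h4
        refine ⟨Ind.sg A x m' + ψ, ?_⟩
        rw [LinearMap.map_add, Ind.map_sg, hψ]
        rfl
    exact h2 φ h1
  · rintro ⟨ψ, rfl⟩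
    refine Ind.ext fun x => ?_
    rw [Ind.map_apply, Ind.map_apply, Ind.zero_apply]
    exact (h _).2 ⟨_, rfl⟩

end Lift

end Pool.Agent.Lib.MP_551055_al.T4
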