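import Mathlib
import Pool.Agent.Lib.MP_551055_al.Trim.LS.Stmts
import Pool.Agent.Lib.MP_551055_al.Trim.T4.Ind0

/-!
# Nil modules: iterated images, order, socle
-/

set_option autoImplicit false

namespace Pool.Agent.Lib.MP_551055_al
end Pool.Agent.Lib.MP_551055_al

namespace Pool.Agent.Lib.MP_551055_al.LS
end Pool.Agent.Lib.MP_551055_al.LS

namespace Pool.Agent.Lib.MP_551055_al.LD
end Pool.Agent.Lib.MP_551055_al.LD

namespace Pool.Agent.Lib.MP_551055_al.T4

open Pool.Agent.Lib.MP_551055_al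

open Pool.Agent.Lib.MP_551055_al.LS

open Pool.Agent.Lib.MP_551055_al.LD

universe u

section

variable {A : Type u} [CommRing A] {G : Type u} [Group G] {D : Subgroup G}
  {M : Type u} [AddCommGroup M] [Module (MonoidAlgebra A D) M]
  {M' : Type u} [AddCommGroup M'] [Module (MonoidAlgebra A D) M']
  {M'' : Type u} [AddCommGroup M''] [Module (MonoidAlgebra A D) M'']

theorem algebraMap_eq_single {Γ : Type u} [Group Γ] (a : A) :
    algebraMap A (MonoidAlgebra A Γ) a = MonoidAlgebra.single 1 a := rfl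

/-- Multiplication by a coefficient. -/
theorem Ind.alg_smul_apply (a : A) (φ : Ind A D M) (x : G ⧸ D) :
    (algebraMap A (MonoidAlgebra A G) a • φ) x =
      algebraMap A (MonoidAlgebra A D) a • φ x := by
  rw [algebraMap_eq_single, algebraMap_eq_single, Ind.single_smul_apply', inv_one, one_smul,
    kap_one]

omit [Module (MonoidAlgebra A D) M] in
theorem Ind.finite_support (φ : Ind A D M) : {x | φ x ≠ 0}.Finite := by
  have h : {x | φ x ≠ 0} = ((show (G ⧸ D) →₀ M from φ).support : Set (G ⧸ D)) := by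
    ext x
    exact (Finsupp.mem_support_iff (f := (show (G ⧸ D) →₀ M from φ))).symm
  rw [h]
  exact Finset.finite_toSet _

/-- A nil morphism. -/
def IsHom (f : M →ₛₗ[incD D A] Ind A D M) (f' : M' →ₛₗ[incD D A] Ind A D M')
    (h : M →ₗ[MonoidAlgebra A D] M') : Prop :=
  ∀ m x, f' (h m) x = h (f m x)

/-- The submodule spanned by the components. -/
noncomputable def nxt (f : M →ₛₗ[incD D A] Ind A D M) (N : Submodule (MonoidAlgebra A D) M) :
    Submodule (MonoidAlgebra A D) M :=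
  Submodule.span _ {y | ∃ m ∈ N, ∃ x, f m x = y}

/-- The iterated images. -/
noncomputable def gen (f : M →ₛₗ[incD D A] Ind A D M) : ℕ → Submodule (MonoidAlgebra A D) M
  | 0 => ⊤
  | j + 1 => nxt f (gen f j)

/-- Strong nilpotency. -/
def SNil (f : M →ₛₗ[incD D A] Ind A D M) : Prop := ∃ N, gen f N = ⊥

/-- The order with respect to a prime ideal. -/
def Ord (q : Ideal A) (s : ℕ) (f : M →ₛₗ[incD D A] Ind A D M) : Prop :=
  ∃ c, c ∉ q ∧ ∀ j ≤ s, ∀ a ∈ q ^ (s - j), ∀ m ∈ gen f j,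
    algebraMap A (MonoidAlgebra A D) (c * a) • m = 0

/-- The module is killed by an ideal. -/
def Killed (I : Ideal A) (M : Type u) [AddCommGroup M] [Module (MonoidAlgebra A D) M] : Prop :=
  ∀ a ∈ I, ∀ m : M, algebraMap A (MonoidAlgebra A D) a • m = 0

/-- The socle. -/
def Soc (q : Ideal A) (f : M →ₛₗ[incD D A] Ind A D M) : Submodule (MonoidAlgebra A D) M where
  carrier := {m | (∀ a ∈ q, algebraMap A (MonoidAlgebra A D) a • m = 0) ∧ f m = 0}
  add_mem' {m n} hm hn := by
    refine ⟨fun a ha => ?_, ?_⟩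
    · rw [smul_add, hm.1 a ha, hn.1 a ha, add_zero]
    · rw [map_add, hm.2, hn.2, add_zero]
  zero_mem' := ⟨fun a _ => smul_zero _, map_zero f⟩
  smul_mem' r m hm := by
    refine ⟨fun a ha => ?_, ?_⟩
    · rw [smul_smul, Algebra.commutes, ← smul_smul, hm.1 a ha, smul_zero]
    · rw [LinearMap.map_smulₛₗ, hm.2, smul_zero]

theorem mem_Soc {q : Ideal A} {f : M →ₛₗ[incD D A] Ind A D M} {m : M} :
    m ∈ Soc q f ↔ (∀ a ∈ q, algebraMap A (MonoidAlgebra A D) a • m = 0) ∧ f m = 0 := Iff.rfl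

variable {f : M →ₛₗ[incD D A] Ind A D M} {f' : M' →ₛₗ[incD D A] Ind A D M'}
  {f'' : M'' →ₛₗ[incD D A] Ind A D M''}

theorem IsHom.id (f : M →ₛₗ[incD D A] Ind A D M) : IsHom f f LinearMap.id := fun _ _ => rfl

theorem IsHom.comp {g : M' →ₗ[MonoidAlgebra A D] M''} {h : M →ₗ[MonoidAlgebra A D] M'}
    (hg : IsHom f' f'' g) (hh : IsHom f f' h) : IsHom f f'' (g ∘ₗ h) := fun m x => by
  rw [LinearMap.comp_apply, hg, hh, LinearMap.comp_apply]

theorem IsHom.neg {g : M →ₗ[MonoidAlgebra A D] M'} (hg : IsHom f f' g) :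
    IsHom f f' (-g) := fun m x => by
  rw [LinearMap.neg_apply, map_neg, Ind.neg_apply, hg, LinearMap.neg_apply]

theorem nxt_mono {N N' : Submodule (MonoidAlgebra A D) M} (h : N ≤ N') : nxt f N ≤ nxt f N' := by
  apply Submodule.span_mono
  rintro y ⟨m, hm, x, rfl⟩
  exact ⟨m, h hm, x, rfl⟩

theorem comp_mem_nxt {N : Submodule (MonoidAlgebra A D) M} {m : M} (hm : m ∈ N) (x : G ⧸ D) :
    f m x ∈ nxt f N := Submodule.subset_span ⟨m, hm, x, rfl⟩

theorem comp_mem_gen {j : ℕ} {m : M} (hm : m ∈ gen f j) (x : G ⧸ D) :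
    f m x ∈ gen f (j + 1) := comp_mem_nxt hm x

theorem nxt_le {N N' : Submodule (MonoidAlgebra A D) M}
    (h : ∀ m ∈ N, ∀ x, f m x ∈ N') : nxt f N ≤ N' := by
  apply Submodule.span_le.2
  rintro y ⟨m, hm, x, rfl⟩
  exact h m hm x

theorem gen_anti : Antitone (gen f) := by
  apply antitone_nat_of_succ_le
  intro j
  induction j with
  | zero => exact le_top
  | succ j ih => exact nxt_mono ih

theorem gen_le {Fil : ℕ → Submodule (MonoidAlgebra A D) M} (h0 : Fil 0 = ⊤)
    (hs : ∀ j, ∀ m ∈ Fil j, ∀ x, f m x ∈ Fil (j + 1)) (j : ℕ) : gen f j ≤ Fil j := by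
  induction j with
  | zero => rw [h0]; exact le_top
  | succ j ih => exact nxt_le fun m hm x => hs j m (ih hm) x

theorem gen_bot_of_le {j k : ℕ} (hjk : j ≤ k) (h : gen f j = ⊥) : gen f k = ⊥ :=
  le_bot_iff.1 ((gen_anti hjk).trans h.le)

theorem SNil.of_fil {Fil : ℕ → Submodule (MonoidAlgebra A D) M} (h0 : Fil 0 = ⊤)
    (hs : ∀ j, ∀ m ∈ Fil j, ∀ x, f m x ∈ Fil (j + 1)) {N : ℕ} (hN : Fil N = ⊥) :
    SNil f := ⟨N, le_bot_iff.1 ((gen_le h0 hs N).trans hN.le)⟩

theorem IsHom.gen_le_comap {h : M →ₗ[MonoidAlgebra A D] M'} (hh : IsHom f f' h) (j : ℕ) :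
    gen f j ≤ (gen f' j).comap h := by
  apply gen_le (Fil := fun j => (gen f' j).comap h) rfl
  intro j m hm x
  rw [Submodule.mem_comap, ← hh]
  exact comp_mem_gen hm x

theorem IsHom.map_mem_gen {h : M →ₗ[MonoidAlgebra A D] M'} (hh : IsHom f f' h) {j : ℕ} {m : M}
    (hm : m ∈ gen f j) : h m ∈ gen f' j := hh.gen_le_comap j hm

theorem IsHom.gen_le_map {h : M →ₗ[MonoidAlgebra A D] M'} (hh : IsHom f f' h)
    (hs : Function.Surjective h) (j : ℕ) : gen f' j ≤ (gen f j).map h := by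
  apply gen_le (Fil := fun j => (gen f j).map h)
  · rw [gen, Submodule.map_top, LinearMap.range_eq_top.2 hs]
  · rintro j _ ⟨m, hm, rfl⟩ x
    rw [hh]
    exact Submodule.mem_map_of_mem (comp_mem_gen hm x)

theorem SNil.of_inj {h : M →ₗ[MonoidAlgebra A D] M'} (hh : IsHom f f' h)
    (hi : Function.Injective h) (hf : SNil f') : SNil f := by
  obtain ⟨N, hN⟩ := hf
  refine ⟨N, le_bot_iff.1 ((hh.gen_le_comap N).trans ?_)⟩
  rw [hN]
  intro m hm
  exact (Submodule.mem_bot _).2 (hi (by rw [map_zero]; exact hm))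

theorem SNil.of_surj {h : M →ₗ[MonoidAlgebra A D] M'} (hh : IsHom f f' h)
    (hs : Function.Surjective h) (hf : SNil f) : SNil f' := by
  obtain ⟨N, hN⟩ := hf
  refine ⟨N, le_bot_iff.1 ((hh.gen_le_map hs N).trans ?_)⟩
  rw [hN, Submodule.map_bot]

/-- The iterated images are finitely generated. -/
theorem nxt_fg {N : Submodule (MonoidAlgebra A D) M} (hN : N.FG) : (nxt f N).FG := by
  classical
  obtain ⟨s, rfl⟩ := hN
  have hfin : (⋃ m ∈ (s : Set M), (fun x => f m x) '' {x | f m x ≠ 0}).Finite :=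
    s.finite_toSet.biUnion fun m _ => (Ind.finite_support (f m)).image _
  refine ⟨hfin.toFinset, ?_⟩
  rw [Set.Finite.coe_toFinset]
  apply le_antisymm
  · rw [Submodule.span_le]
    intro y hy
    obtain ⟨m, hm, x, _, rfl⟩ := Set.mem_iUnion₂.1 hy
    exact comp_mem_nxt (Submodule.subset_span hm) x
  · apply nxt_le
    intro m hm
    induction hm using Submodule.span_induction with
    | mem m hm =>
      intro x
      by_cases h : f m x = 0
      · rw [h]; exact zero_mem _
      · exact Submodule.subset_span (Set.mem_iUnion₂.2 ⟨m, hm, x, h, rfl⟩)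
    | zero => intro x; rw [map_zero, Ind.zero_apply]; exact zero_mem _
    | add m n _ _ hm hn => intro x; rw [map_add, Ind.add_apply]; exact add_mem (hm x) (hn x)
    | smul r m _ hm =>
      rw [LinearMap.map_smulₛₗ]
      exact (Ind.sub _).smul_mem _ hm

theorem gen_fg [Module.Finite (MonoidAlgebra A D) M] (j : ℕ) : (gen f j).FG := by
  induction j with
  | zero => exact Module.Finite.fg_top
  | succ j ih => exact nxt_fg ih

/-- Transfer of the order along a morphism with kernel killed by an element outside `q`. -/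
theorem Ord.of_hom {q : Ideal A} [hq : q.IsPrime] {s : ℕ} {h : M →ₗ[MonoidAlgebra A D] M'}
    (hh : IsHom f f' h) {c : A} (hc : c ∉ q)
    (hk : ∀ m, h m = 0 → algebraMap A (MonoidAlgebra A D) c • m = 0) (hf : Ord q s f') :
    Ord q s f := by
  obtain ⟨b, hb, H⟩ := hf
  refine ⟨c * b, fun hcb => (hq.mem_or_mem hcb).elim hc hb, fun j hj a ha m hm => ?_⟩
  rw [mul_assoc, map_mul, mul_smul]
  apply hk
  rw [map_smul]
  exact H j hj a ha _ (hh.map_mem_gen hm)

/-- Order zero: the module is killed by an element outside `q`. -/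
theorem Ord.zero_iff {q : Ideal A} :
    Ord q 0 f ↔ ∃ c, c ∉ q ∧ ∀ m : M, algebraMap A (MonoidAlgebra A D) c • m = 0 := by
  constructor
  · rintro ⟨c, hc, h⟩
    refine ⟨c, hc, fun m => ?_⟩
    have h1 := h 0 le_rfl 1 (by rw [Nat.sub_self, pow_zero, Ideal.one_eq_top]; trivial) m
      (Submodule.mem_top (R := MonoidAlgebra A D))
    rwa [mul_one] at h1
  · rintro ⟨c, hc, h⟩
    refine ⟨c, hc, fun j _ a _ m _ => ?_⟩
    rw [mul_comm, map_mul, mul_smul, h, smul_zero]

/-- The order of a strongly nilpotent module killed by an ideal. -/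
theorem SNil.ord {q I : Ideal A} (hI : Killed (D := D) I M) {t : ℕ} {c : A} (hc : c ∉ q)
    (hq : ∀ x ∈ q ^ t, c * x ∈ I) (hf : SNil f) : ∃ s, Ord q s f := by
  obtain ⟨N, hN⟩ := hf
  refine ⟨t + N, c, hc, fun j hj a ha m hm => ?_⟩
  rcases le_or_gt j N with h | h
  · exact hI _ (hq _ (Ideal.pow_le_pow_right (by omega) ha)) m
  · have h1 := gen_bot_of_le h.le hN
    rw [h1, Submodule.mem_bot] at hm
    rw [hm, smul_zero]

end

end Pool.Agent.Lib.MP_551055_al.T4
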