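import Mathlib
import Pool.Agent.Lib.MP_551055_al.Trim.LD.NG
import Pool.Agent.Lib.MP_551055_al.Trim.LS.FFR
import Pool.Agent.Lib.MP_551055_al.Trim.LS.Stmts

/-!
# Modules with finite resolutions

The two out of three property for modules with finite resolutions by finitely generated projective
modules.
-/

set_option autoImplicit false

namespace Pool.Agent.Lib.MP_551055_al
end Pool.Agent.Lib.MP_551055_al

namespace Pool.Agent.Lib.MP_551055_al.LS
end Pool.Agent.Lib.MP_551055_al.LS

namespace Pool.Agent.Lib.MP_551055_al.LD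
end Pool.Agent.Lib.MP_551055_al.LD

namespace Pool.Agent.Lib.MP_551055_al.T4

open Pool.Agent.Lib.MP_551055_al

open Pool.Agent.Lib.MP_551055_al.LS

open Pool.Agent.Lib.MP_551055_al.LD

universe u

section

variable {S : Type u} [Ring S]

theorem blk_inl {ι κ ι' κ' : Type} (f : (ι → S) →ₗ[S] (ι' → S)) (c : (ι → S) →ₗ[S] (κ' → S))
    (g : (κ → S) →ₗ[S] (κ' → S)) (y : ι ⊕ κ → S) : blk f c g y ∘ Sum.inl = f (y ∘ Sum.inl) := rfl

theorem blk_inr {ι κ ι' κ' : Type} (f : (ι → S) →ₗ[S] (ι' → S)) (c : (ι → S) →ₗ[S] (κ' → S))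
    (g : (κ → S) →ₗ[S] (κ' → S)) (y : ι ⊕ κ → S) :
    blk f c g y ∘ Sum.inr = c (y ∘ Sum.inl) + g (y ∘ Sum.inr) := rfl

/-- All isomorphisms. -/
noncomputable def K1all (S : Type u) [Ring S] : K1C S where
  G f := Function.Bijective f
  bij _ h := h
  comp _ _ hf hg := hg.comp hf
  left f g h hf := (Function.Bijective.of_comp_iff g hf).1 h
  right f g h hg := (Function.Bijective.of_comp_iff' hg f).1 h
  perm e := (LinearEquiv.funCongrLeft S S e.symm).bijective
  tri f c g hf hg := by
    constructor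
    · rw [injective_iff_map_eq_zero]
      intro y hy
      have h1 : f (y ∘ Sum.inl) = 0 := by
        rw [← blk_inl f c g, hy]
        rfl
      have h2 : y ∘ Sum.inl = 0 := hf.1 (by rw [h1, map_zero])
      have h3 : g (y ∘ Sum.inr) = 0 := by
        have h4 := blk_inr f c g y
        rw [hy, h2, map_zero, zero_add] at h4
        rw [← h4]
        rfl
      have h4 : y ∘ Sum.inr = 0 := hg.1 (by rw [h3, map_zero])
      funext j
      rcases j with j | j
      · exact congrFun h2 j
      · exact congrFun h4 j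
    · intro z
      obtain ⟨x, hx⟩ := hf.2 (z ∘ Sum.inl)
      obtain ⟨y, hy⟩ := hg.2 (z ∘ Sum.inr - c x)
      refine ⟨Sum.elim x y, ?_⟩
      funext j
      rcases j with j | j
      · have h1 := congrFun (blk_inl f c g (Sum.elim x y)) j
        rw [Sum.elim_comp_inl, hx] at h1
        exact h1
      · have h1 := congrFun (blk_inr f c g (Sum.elim x y)) j
        rw [Sum.elim_comp_inl, Sum.elim_comp_inr, hy] at h1
        rw [← Function.comp_apply (f := blk f c g (Sum.elim x y)) (g := Sum.inr), h1]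
        change c x j + (z (Sum.inr j) - c x j) = z (Sum.inr j)
        abel
  unst {ι κ ι'} _ _ _ f h := by
    constructor
    · rw [injective_iff_map_eq_zero]
      intro x hx
      have h1 : blk f 0 (LinearMap.id : (κ → S) →ₗ[S] (κ → S)) (Sum.elim x 0) = 0 := by
        funext j
        rcases j with j | j
        · have h2 := congrFun (blk_inl f 0 (LinearMap.id : (κ → S) →ₗ[S] (κ → S))
            (Sum.elim x 0)) j
          rw [Sum.elim_comp_inl, hx] at h2
          exact h2
        · have h2 := congrFun (blk_inr f 0 (LinearMap.id : (κ → S) →ₗ[S] (κ → S))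
            (Sum.elim x 0)) j
          rw [Sum.elim_comp_inl, Sum.elim_comp_inr, map_zero, add_zero] at h2
          exact h2
      have h2 : Sum.elim x 0 = (0 : ι ⊕ κ → S) := h.1 (by rw [h1, map_zero])
      funext i
      exact congrFun h2 (Sum.inl i)
    · intro z
      obtain ⟨y, hy⟩ := h.2 (Sum.elim z 0)
      refine ⟨y ∘ Sum.inl, ?_⟩
      rw [← blk_inl f 0 (LinearMap.id : (κ → S) →ₗ[S] (κ → S)), hy, Sum.elim_comp_inl]

/-- Modules with finite resolutions by finitely generated projective modules. -/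
def Perf (S : Type u) [Ring S] (M : Type u) [AddCommGroup M] [Module S M] : Prop :=
  ∃ d, FFR S d M

variable {A B C : Type u} [AddCommGroup A] [Module S A] [AddCommGroup B] [Module S B]
    [AddCommGroup C] [Module S C] {i : A →ₗ[S] B} {q : B →ₗ[S] C}

theorem Perf.congr (e : A ≃ₗ[S] B) (h : Perf S A) : Perf S B := by
  obtain ⟨d, hd⟩ := h
  exact ⟨d, hd.congr e⟩

theorem Perf.finite (h : Perf S A) : Module.Finite S A := by
  obtain ⟨d, hd⟩ := h
  exact hd.finite

theorem Perf.free (ι : Type) [Finite ι] : Perf S (ι → S) :=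
  ⟨0, inferInstance, inferInstance⟩

theorem Perf.ng (K : K1C S) (h : Perf S A) : NG K A 0 := by
  obtain ⟨d, hd⟩ := h
  exact NG.zero K hd

theorem sesZero (hi : Function.Injective i) (hq : Function.Surjective q)
    (hex : ∀ y, q y = 0 ↔ ∃ x, i x = y) :
    Ses i q (0 : A →ₗ[S] A) (0 : B →ₗ[S] B) (0 : C →ₗ[S] C) :=
  ⟨hi, hq, hex, fun _ => map_zero i, fun _ => map_zero q⟩

theorem Perf.mid (hi : Function.Injective i) (hq : Function.Surjective q)
    (hex : ∀ y, q y = 0 ↔ ∃ x, i x = y) (hA : Perf S A) (hC : Perf S C) : Perf S B :=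
  NG.ffr (K1all S) (NG.mid (K1all S) (sesZero hi hq hex) (hA.ng _) (hC.ng _))

theorem Perf.left (hi : Function.Injective i) (hq : Function.Surjective q)
    (hex : ∀ y, q y = 0 ↔ ∃ x, i x = y) (hB : Perf S B) (hC : Perf S C) : Perf S A :=
  NG.ffr (K1all S) (NG.left (K1all S) (sesZero hi hq hex) (hB.ng _) (hC.ng _))

theorem Perf.right (hi : Function.Injective i) (hq : Function.Surjective q)
    (hex : ∀ y, q y = 0 ↔ ∃ x, i x = y) (hA : Perf S A) (hB : Perf S B) : Perf S C :=
  NG.ffr (K1all S) (NG.right (K1all S) (sesZero hi hq hex) (hA.ng _) (hB.ng _))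

theorem Perf.prod (hA : Perf S A) (hB : Perf S B) : Perf S (A × B) := by
  refine Perf.mid (i := LinearMap.inl S A B) (q := LinearMap.snd S A B) LinearMap.inl_injective
    LinearMap.snd_surjective (fun y => ⟨fun h => ⟨y.1, Prod.ext rfl h.symm⟩, ?_⟩) hA hB
  rintro ⟨x, rfl⟩
  rfl

/-- The kernel of a surjection. -/
theorem Perf.ker (q : B →ₗ[S] C) (hq : Function.Surjective q) (hB : Perf S B) (hC : Perf S C) :
    Perf S (LinearMap.ker q) :=
  Perf.left (i := (LinearMap.ker q).subtype) (q := q) (LinearMap.ker q).injective_subtype hq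
    (fun y => ⟨fun h => ⟨⟨y, h⟩, rfl⟩, fun ⟨x, hx⟩ => by rw [← hx]; exact x.2⟩) hB hC

/-- The quotient by a submodule. -/
theorem Perf.quot (N : Submodule S B) (hN : Perf S N) (hB : Perf S B) : Perf S (B ⧸ N) :=
  Perf.right (i := N.subtype) (q := N.mkQ) N.injective_subtype N.mkQ_surjective
    (fun y => by
      rw [← LinearMap.mem_ker, Submodule.ker_mkQ]
      exact ⟨fun h => ⟨⟨y, h⟩, rfl⟩, fun ⟨x, hx⟩ => by rw [← hx]; exact x.2⟩) hN hB

end

end Pool.Agent.Lib.MP_551055_al.T4
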