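import Mathlib
import Pool.Agent.Lib.MP_551055_al.Trim.Descent
import Pool.Agent.Lib.MP_551055_al.Trim.LD.NG
import Pool.Agent.Lib.MP_551055_al.Trim.LS.Dev
import Pool.Agent.Lib.MP_551055_al.Trim.LS.FFR
import Pool.Agent.Lib.MP_551055_al.Trim.LS.Stmts
import Pool.Agent.Lib.MP_551055_al.Trim.T4.Ind0
import Pool.Agent.Lib.MP_551055_al.Trim.T4.Mods
import Pool.Agent.Lib.MP_551055_al.Trim.T4.Perf

/-!
# Induced modules: free modules, resolutions, the class of a nil module
-/

set_option autoImplicit false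

namespace Pool.Agent.Lib.MP_551055_al
end Pool.Agent.Lib.MP_551055_al

namespace Pool.Agent.Lib.MP_551055_al.LS
end Pool.Agent.Lib.MP_551055_al.LS

namespace Pool.Agent.Lib.MP_551055_al.LD
end Pool.Agent.Lib.MP_551055_al.LD

namespace Pool.Agent.Lib.MP_551055_al.T4

open Pool.Agent.Lib.MP_551055_al

open Pool.Agent.Lib.MP_551055_al.LS

open Pool.Agent.Lib.MP_551055_al.LD

universe u

section Nu

variable {A : Type u} [CommRing A] {G : Type u} [Group G] {D : Subgroup G}

variable {M : Type u} [AddCommGroup M] [Module (MonoidAlgebra A D) M]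

variable {M' : Type u} [AddCommGroup M'] [Module (MonoidAlgebra A D) M']

variable {M'' : Type u} [AddCommGroup M''] [Module (MonoidAlgebra A D) M'']

/-- The nilpotent endomorphism of a nil module. -/
noncomputable def nu (f : M →ₛₗ[incD D A] Ind A D M) :
    Ind A D M →ₗ[MonoidAlgebra A G] Ind A D M := Ind.lift f

theorem nu_iota (f : M →ₛₗ[incD D A] Ind A D M) (m : M) : nu f (Ind.iota D A m) = f m :=
  Ind.lift_iota f m

theorem nu_zero : nu (0 : M →ₛₗ[incD D A] Ind A D M) = 0 :=
  Ind.hom_ext fun m => by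
    rw [nu_iota]
    rfl

variable {f : M →ₛₗ[incD D A] Ind A D M} {f' : M' →ₛₗ[incD D A] Ind A D M'}
  {f'' : M'' →ₛₗ[incD D A] Ind A D M''}

theorem isHom_map_iff {h : M →ₗ[MonoidAlgebra A D] M'} :
    IsHom f f' h ↔ ∀ m, Ind.map h (f m) = f' (h m) := by
  constructor
  · intro hh m
    refine Ind.ext fun x => ?_
    rw [Ind.map_apply, hh]
  · intro hh m x
    rw [← hh, Ind.map_apply]

theorem IsHom.map_nu {h : M →ₗ[MonoidAlgebra A D] M'} (hh : IsHom f f' h) (φ : Ind A D M) :
    Ind.map h (nu f φ) = nu f' (Ind.map h φ) := by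
  have h1 : Ind.map h ∘ₗ nu f = nu f' ∘ₗ Ind.map h := Ind.hom_ext fun m => by
    rw [LinearMap.comp_apply, LinearMap.comp_apply, nu_iota, Ind.map_iota, nu_iota,
      isHom_map_iff.1 hh]
  exact LinearMap.congr_fun h1 φ

/-- Short exact sequences of nil modules. -/
theorem Ind.ses {i : M →ₗ[MonoidAlgebra A D] M'} {q : M' →ₗ[MonoidAlgebra A D] M''}
    (hi : Function.Injective i) (hq : Function.Surjective q)
    (hex : ∀ y, q y = 0 ↔ ∃ x, i x = y) (hif : IsHom f f' i) (hqf : IsHom f' f'' q) :
    Ses (Ind.map i) (Ind.map q) (nu f) (nu f') (nu f'') where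
  inj := Ind.map_injective hi
  surj := Ind.map_surjective hq
  exact := Ind.map_exact hex
  hi := hif.map_nu
  hq := hqf.map_nu

/-- The class of a nil module. -/
def NGM (K : K1C (MonoidAlgebra A G)) (f : M →ₛₗ[incD D A] Ind A D M) : Prop :=
  NG K (Ind A D M) (nu f)

section

variable (K : K1C (MonoidAlgebra A G)) {i : M →ₗ[MonoidAlgebra A D] M'}
  {q : M' →ₗ[MonoidAlgebra A D] M''}

theorem NGM.mid (hi : Function.Injective i) (hq : Function.Surjective q)
    (hex : ∀ y, q y = 0 ↔ ∃ x, i x = y) (hif : IsHom f f' i) (hqf : IsHom f' f'' q)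
    (h1 : NGM K f) (h2 : NGM K f'') : NGM K f' :=
  NG.mid K (Ind.ses hi hq hex hif hqf) h1 h2

theorem NGM.left (hi : Function.Injective i) (hq : Function.Surjective q)
    (hex : ∀ y, q y = 0 ↔ ∃ x, i x = y) (hif : IsHom f f' i) (hqf : IsHom f' f'' q)
    (h1 : NGM K f') (h2 : NGM K f'') : NGM K f :=
  NG.left K (Ind.ses hi hq hex hif hqf) h1 h2

theorem NGM.right (hi : Function.Injective i) (hq : Function.Surjective q)
    (hex : ∀ y, q y = 0 ↔ ∃ x, i x = y) (hif : IsHom f f' i) (hqf : IsHom f' f'' q)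
    (h1 : NGM K f) (h2 : NGM K f') : NGM K f'' :=
  NG.right K (Ind.ses hi hq hex hif hqf) h1 h2

end

end Nu

section Free

variable {A : Type u} [CommRing A] {G : Type u} [Group G] {D : Subgroup G}

/-- The inclusion of the vectors. -/
noncomputable def incL (A : Type u) [CommRing A] {G : Type u} [Group G] (D : Subgroup G)
    (ι : Type) : (ι → MonoidAlgebra A D) →ₛₗ[incD D A] (ι → MonoidAlgebra A G) where
  toFun v i := incD D A (v i)
  map_add' v w := by
    funext i
    exact map_add _ _ _
  map_smul' r v := by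
    funext i
    exact map_mul _ _ _

/-- The canonical map from the induced module of a free module. -/
noncomputable def toS (A : Type u) [CommRing A] {G : Type u} [Group G] (D : Subgroup G)
    (ι : Type) : Ind A D (ι → MonoidAlgebra A D) →ₗ[MonoidAlgebra A G]
      (ι → MonoidAlgebra A G) := Ind.lift (incL A D ι)

theorem toS_iota {ι : Type} (v : ι → MonoidAlgebra A D) :
    toS A D ι (Ind.iota D A v) = incL A D ι v := Ind.lift_iota _ v

theorem toS_sg {ι : Type} (x : G ⧸ D) (v : ι → MonoidAlgebra A D) :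
    toS A D ι (Ind.sg A x v) =
      (MonoidAlgebra.single (rep D x) 1 : MonoidAlgebra A G) • incL A D ι v := Ind.lift_sg _ x v

/-- The coefficients of the image. -/
theorem toS_coeff {ι : Type} (φ : Ind A D (ι → MonoidAlgebra A D)) (i : ι) (x : G ⧸ D) (d : D) :
    (toS A D ι φ i).coeff (rep D x * d) = (φ x i).coeff d := by
  refine Ind.induction (Q := fun φ : Ind A D (ι → MonoidAlgebra A D) =>
    (toS A D ι φ i).coeff (rep D x * d) = (φ x i).coeff d) φ ?_ ?_ ?_
  · rw [map_zero]
    rfl
  · intro φ ψ h1 h2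
    rw [map_add, Pi.add_apply, MonoidAlgebra.coeff_add, Finsupp.add_apply, h1, h2, Ind.add_apply,
      Pi.add_apply, MonoidAlgebra.coeff_add, Finsupp.add_apply]
  · intro y v
    rw [toS_sg]
    change ((MonoidAlgebra.single (rep D y) 1 : MonoidAlgebra A G) * incD D A (v i)).coeff
      (rep D x * d) = _
    rw [MonoidAlgebra.coeff_single_mul_apply, one_mul]
    by_cases hxy : x = y
    · subst hxy
      rw [Ind.sg_self, inv_mul_cancel_left]
      exact inc_coeff_apply D.subtype D.subtype_injective (v i) d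
    · rw [Ind.sg_ne hxy]
      refine inc_coeff_of_notMem D.subtype (v i) _ ?_
      rintro ⟨e, he⟩
      apply hxy
      have h1 : (rep D y)⁻¹ * rep D x ∈ D := by
        have h2 : (rep D y)⁻¹ * rep D x = (e : G) * (d : G)⁻¹ := by
          change (e : G) = (rep D y)⁻¹ * (rep D x * d) at he
          rw [he, mul_assoc, mul_assoc, mul_inv_cancel, mul_one]
        rw [h2]
        exact D.mul_mem e.2 (D.inv_mem d.2)
      rw [← mk_rep D x, ← mk_rep D y]
      exact (QuotientGroup.eq.2 h1).symm

theorem toS_injective (ι : Type) : Function.Injective (toS A D ι) := by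
  intro φ ψ h
  refine Ind.ext fun x => ?_
  funext i
  refine MonoidAlgebra.ext (Finsupp.ext fun d => ?_)
  rw [← toS_coeff, ← toS_coeff, h]

theorem toS_surjective (ι : Type) [Finite ι] : Function.Surjective (toS A D ι) := by
  classical
  have := Fintype.ofFinite ι
  intro w
  refine ⟨∑ i, w i • Ind.iota D A (Pi.single i 1), ?_⟩
  rw [map_sum]
  funext j
  rw [Finset.sum_apply, Finset.sum_eq_single j]
  · rw [map_smul, toS_iota]
    change w j * incD D A ((Pi.single j 1 : ι → MonoidAlgebra A D) j) = w j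
    rw [Pi.single_eq_same, map_one, mul_one]
  · intro i _ hij
    rw [map_smul, toS_iota]
    change w i * incD D A ((Pi.single i 1 : ι → MonoidAlgebra A D) j) = 0
    rw [Pi.single_eq_of_ne (Ne.symm hij), map_zero, mul_zero]
  · intro h
    exact absurd (Finset.mem_univ j) h

/-- The induced module of a finitely generated free module. -/
noncomputable def toSE (A : Type u) [CommRing A] {G : Type u} [Group G] (D : Subgroup G)
    (ι : Type) [Finite ι] : Ind A D (ι → MonoidAlgebra A D) ≃ₗ[MonoidAlgebra A G]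
      (ι → MonoidAlgebra A G) :=
  LinearEquiv.ofBijective (toS A D ι) ⟨toS_injective ι, toS_surjective ι⟩

theorem toSE_apply {ι : Type} [Finite ι] (φ : Ind A D (ι → MonoidAlgebra A D)) :
    toSE A D ι φ = toS A D ι φ := rfl

end Free

section Resolutions

variable {A : Type u} [CommRing A] {G : Type u} [Group G] {D : Subgroup G}

/-- Induction preserves finite resolutions. -/
theorem ffr_ind (d : ℕ) : ∀ {M : Type u} [AddCommGroup M] [Module (MonoidAlgebra A D) M],
    FFR (MonoidAlgebra A D) d M → FFR (MonoidAlgebra A G) d (Ind A D M) := by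
  induction d with
  | zero =>
    intro M _ _ h
    have h1 := h.1
    have h2 := h.2
    obtain ⟨n, f, hf⟩ := Module.Finite.exists_fin' (MonoidAlgebra A D) M
    obtain ⟨s, hs⟩ := Module.projective_lifting_property f LinearMap.id hf
    refine Dev.retract (Y := Fin n → MonoidAlgebra A G)
      ((toSE A D (Fin n)).toLinearMap ∘ₗ Ind.map s)
      (Ind.map f ∘ₗ (toSE A D (Fin n)).symm.toLinearMap) ?_
    refine LinearMap.ext fun φ => ?_
    rw [LinearMap.comp_apply, LinearMap.comp_apply, LinearMap.comp_apply, LinearEquiv.coe_coe,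
      LinearEquiv.coe_coe, LinearEquiv.symm_apply_apply, ← LinearMap.comp_apply, ← Ind.map_comp, hs,
      Ind.map_id]
  | succ d ih =>
    intro M _ _ h
    obtain ⟨n, f, hf, hk⟩ := h
    let F : (Fin n → MonoidAlgebra A G) →ₗ[MonoidAlgebra A G] Ind A D M :=
      Ind.map f ∘ₗ (toSE A D (Fin n)).symm.toLinearMap
    refine ⟨n, F, (Ind.map_surjective hf).comp (toSE A D (Fin n)).symm.surjective, ?_⟩
    let g : Ind A D (LinearMap.ker f) →ₗ[MonoidAlgebra A G] (Fin n → MonoidAlgebra A G) :=
      (toSE A D (Fin n)).toLinearMap ∘ₗ Ind.map (LinearMap.ker f).subtype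
    have hg : Function.Injective g :=
      (toSE A D (Fin n)).injective.comp (Ind.map_injective (LinearMap.ker f).injective_subtype)
    have hex := Ind.map_exact (G := G) (i := (LinearMap.ker f).subtype) (q := f)
      fun y => ⟨fun h => ⟨⟨y, h⟩, rfl⟩, fun ⟨x, hx⟩ => by rw [← hx]; exact x.2⟩
    have hr : LinearMap.range g = LinearMap.ker F := by
      ext w
      rw [LinearMap.mem_range, LinearMap.mem_ker]
      change _ ↔ Ind.map f ((toSE A D (Fin n)).symm w) = 0
      rw [hex]
      constructor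
      · rintro ⟨ψ, rfl⟩
        refine ⟨ψ, ?_⟩
        change _ = (toSE A D (Fin n)).symm (toSE A D (Fin n) _)
        rw [LinearEquiv.symm_apply_apply]
      · rintro ⟨ψ, hψ⟩
        refine ⟨ψ, ?_⟩
        change toSE A D (Fin n) (Ind.map _ ψ) = w
        rw [hψ, LinearEquiv.apply_symm_apply]
    exact (ih hk).congr ((LinearEquiv.ofInjective g hg).trans (LinearEquiv.ofEq _ _ hr))

variable {M : Type u} [AddCommGroup M] [Module (MonoidAlgebra A D) M]

/-- The class of the zero map. -/
theorem NGM.zero (K : K1C (MonoidAlgebra A G)) (h : Perf (MonoidAlgebra A D) M) :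
    NGM K (0 : M →ₛₗ[incD D A] Ind A D M) := by
  obtain ⟨d, hd⟩ := h
  rw [NGM, nu_zero]
  exact NG.zero K (ffr_ind d hd)

end Resolutions

end Pool.Agent.Lib.MP_551055_al.T4
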