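import Mathlib
import Pool.Agent.Lib.MP_551055_al.Trim.Descent
import Pool.Agent.Lib.MP_551055_al.Trim.LS.Ray
import Pool.Agent.Lib.MP_551055_al.Trim.LS.Stmts
import Pool.Agent.Lib.MP_551055_al.Trim.T4.OrbT

/-!
# Bridge: strong nilpotency

A nilpotent matrix `B` over `A[G]` with entries supported on the double coset `D g D`, with unique
decompositions, is strongly nilpotent: if `v B^(j+1) = 0` for a vector `v` over `A[D]`, then each
component `w` of `v B` (a vector over `A[D]`) satisfies `w B^j = 0`.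
-/

set_option autoImplicit false

namespace Pool.Agent.Lib.MP_551055_al
end Pool.Agent.Lib.MP_551055_al

namespace Pool.Agent.Lib.MP_551055_al.LS
end Pool.Agent.Lib.MP_551055_al.LS

namespace Pool.Agent.Lib.MP_551055_al.LO
end Pool.Agent.Lib.MP_551055_al.LO

namespace Pool.Agent.Lib.MP_551055_al.T4

open Pool.Agent.Lib.MP_551055_al

open Pool.Agent.Lib.MP_551055_al.LS

open Pool.Agent.Lib.MP_551055_al.LO

open scoped Matrix

universe u v

section

variable {A : Type u} [CommRing A] {G : Type u} [Group G] {ι κ : Type}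

/-- The component of `x` at the coset of `γ`. -/
noncomputable def cmp (D : Subgroup G) (γ : G) (x : ι → MonoidAlgebra A G) :
    ι → MonoidAlgebra A D := fun l =>
  prj A D.subtype Subtype.val_injective (MonoidAlgebra.single γ⁻¹ 1 * x l)

/-- The inclusion of the vectors over `A[D]`. -/
noncomputable def incV (D : Subgroup G) (x : ι → MonoidAlgebra A D) : ι → MonoidAlgebra A G :=
  fun l => inc A D.subtype (x l)

theorem cmp_coeff (D : Subgroup G) (γ : G) (x : ι → MonoidAlgebra A G) (l : ι) (d : D) :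
    (cmp D γ x l).coeff d = (x l).coeff (γ * d) := by
  change (prj A D.subtype Subtype.val_injective (MonoidAlgebra.single γ⁻¹ 1 * x l)).coeff d = _
  rw [prj_coeff, MonoidAlgebra.coeff_single_mul_apply, inv_inv, one_mul]
  rfl

theorem coeffMul_ne {x y : MonoidAlgebra A G} {g : G} (h : (x * y).coeff g ≠ 0) :
    ∃ a b, x.coeff a ≠ 0 ∧ y.coeff b ≠ 0 ∧ a * b = g := by
  classical
  have h1 := MonoidAlgebra.support_coeff_mul_subset x y (Finsupp.mem_support_iff.2 h)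
  obtain ⟨a, ha, b, hb, hab⟩ := Finset.mem_mul.1 h1
  exact ⟨a, b, Finsupp.mem_support_iff.1 ha, Finsupp.mem_support_iff.1 hb, hab⟩

theorem coeffSum_ne {s : Finset ι} {f : ι → MonoidAlgebra A G} {g : G}
    (h : (∑ i ∈ s, f i).coeff g ≠ 0) : ∃ i ∈ s, (f i).coeff g ≠ 0 := by
  by_contra hne
  push Not at hne
  apply h
  rw [MonoidAlgebra.coeff_sum, Finsupp.finsetSum_apply]
  exact Finset.sum_eq_zero hne

theorem itr_crel_smul (D : Subgroup G) (g : G) (γ : G) (j : ℕ) (a b : G ⧸ D)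
    (h : itr (crel D g) j a b) : itr (crel D g) j (γ • a) (γ • b) := by
  induction j generalizing a with
  | zero => exact congrArg (γ • ·) h
  | succ j ih =>
    obtain ⟨c, hc, h⟩ := h
    refine ⟨γ • c, ?_, ih c h⟩
    obtain ⟨δ, rfl, rfl⟩ := hc
    refine ⟨γ * δ, rfl, ?_⟩
    rw [mul_assoc]
    rfl

theorem crel_of_mem (D : Subgroup G) (g γ : G) (h : ∃ a ∈ D, ∃ b ∈ D, γ = a * g * b) :
    crel D g ((1 : G) : G ⧸ D) (γ : G ⧸ D) := by
  obtain ⟨a, ha, b, hb, rfl⟩ := h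
  refine ⟨a, ?_, ?_⟩
  · rw [QuotientGroup.eq, inv_one, one_mul]
    exact ha
  · rw [QuotientGroup.eq, mul_inv_rev, inv_mul_cancel_right]
    exact D.inv_mem hb

theorem itr_pow [Fintype ι] [DecidableEq ι] (D : Subgroup G) (g : G)
    (B : Matrix ι ι (MonoidAlgebra A G))
    (hB : ∀ i l γ, (B i l).coeff γ ≠ 0 → ∃ a ∈ D, ∃ b ∈ D, γ = a * g * b) (j : ℕ) (i l : ι)
    (ε : G) (h : ((B ^ j) i l).coeff ε ≠ 0) :
    itr (crel D g) j ((1 : G) : G ⧸ D) (ε : G ⧸ D) := by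
  classical
  induction j generalizing i ε with
  | zero =>
    rw [pow_zero, Matrix.one_apply] at h
    have h1 : (1 : G) = ε := by
      by_contra hne
      apply h
      split_ifs with hil
      · rw [MonoidAlgebra.one_def, MonoidAlgebra.coeff_single, Finsupp.single_apply, if_neg hne]
      · rfl
    exact congrArg _ h1
  | succ j ih =>
    rw [pow_succ', Matrix.mul_apply] at h
    obtain ⟨m, _, hm⟩ := coeffSum_ne h
    obtain ⟨a, b, ha, hb, hab⟩ := coeffMul_ne hm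
    refine ⟨(a : G ⧸ D), crel_of_mem D g a (hB i m a ha), ?_⟩
    have h1 := itr_crel_smul D g a j _ _ (ih m b hb)
    have h2 : a • ((1 : G) : G ⧸ D) = (a : G ⧸ D) := congrArg _ (mul_one a)
    have h3 : a • (b : G ⧸ D) = (ε : G ⧸ D) := congrArg _ hab
    rwa [h2, h3] at h1

theorem vecMul_coeff_ne [Fintype ι] (x : ι → MonoidAlgebra A G)
    (B : Matrix ι κ (MonoidAlgebra A G)) (l : κ) (γ : G) (h : ((x ᵥ* B) l).coeff γ ≠ 0) :
    ∃ m a b, (x m).coeff a ≠ 0 ∧ (B m l).coeff b ≠ 0 ∧ a * b = γ := by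
  have h1 : (x ᵥ* B) l = ∑ m, x m * B m l := rfl
  rw [h1] at h
  obtain ⟨m, _, hm⟩ := coeffSum_ne h
  obtain ⟨a, b, ha, hb, hab⟩ := coeffMul_ne hm
  exact ⟨m, a, b, ha, hb, hab⟩

theorem mem_of_inc (D : Subgroup G) (x : MonoidAlgebra A D) (γ : G)
    (h : (inc A D.subtype x).coeff γ ≠ 0) : γ ∈ D := by
  by_contra hγ
  apply h
  refine inc_coeff_of_notMem D.subtype x γ ?_
  rintro ⟨d, rfl⟩
  exact hγ d.2

/-- Strong nilpotency. -/
theorem cmp_step [Fintype ι] [DecidableEq ι] (D : Subgroup G) (g : G)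
    (hur : UR (Γ := G) (crel D g)) (B : Matrix ι ι (MonoidAlgebra A G))
    (hB : ∀ i l γ, (B i l).coeff γ ≠ 0 → ∃ a ∈ D, ∃ b ∈ D, γ = a * g * b) (j : ℕ)
    (v : ι → MonoidAlgebra A D) (hv : incV D v ᵥ* B ^ (j + 1) = 0) (γ₁ : G) :
    incV D (cmp D γ₁ (incV D v ᵥ* B)) ᵥ* B ^ j = 0 := by
  classical
  obtain ⟨y, hy⟩ : ∃ y, y = incV D v ᵥ* B := ⟨_, rfl⟩
  have hyB : y ᵥ* B ^ j = 0 := by
    rw [hy, Matrix.vecMul_vecMul, ← pow_succ', hv]
  rw [← hy]
  have hysupp : ∀ l γ, (y l).coeff γ ≠ 0 → crel D g ((1 : G) : G ⧸ D) (γ : G ⧸ D) := by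
    intro l γ h
    rw [hy] at h
    obtain ⟨m, a, b, ha, hb, hab⟩ := vecMul_coeff_ne _ _ _ _ h
    obtain ⟨a', ha', b', hb', h1⟩ := hB m l b hb
    refine crel_of_mem D g γ ⟨a * a', D.mul_mem (mem_of_inc D _ a ha) ha', b', hb', ?_⟩
    rw [← hab, h1]
    group
  -- the part of `y` on the coset of `γ₁`
  let y1 : ι → MonoidAlgebra A G := fun l =>
    MonoidAlgebra.single γ₁ 1 * incV D (cmp D γ₁ y) l
  have hy1 : ∀ l γ, (y1 l).coeff γ = if γ₁⁻¹ * γ ∈ D then (y l).coeff γ else 0 := by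
    intro l γ
    change (MonoidAlgebra.single γ₁ 1 * incV D (cmp D γ₁ y) l).coeff γ = _
    rw [MonoidAlgebra.coeff_single_mul_apply, one_mul]
    split_ifs with h
    · have h1 : (incV D (cmp D γ₁ y) l).coeff (γ₁⁻¹ * γ) = (cmp D γ₁ y l).coeff ⟨γ₁⁻¹ * γ, h⟩ :=
        inc_coeff_apply D.subtype Subtype.val_injective (cmp D γ₁ y l) ⟨γ₁⁻¹ * γ, h⟩
      rw [h1, cmp_coeff, mul_inv_cancel_left]
    · by_contra hne
      exact h (mem_of_inc D _ _ hne)
  have hzero : y1 ᵥ* B ^ j = 0 := by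
    funext l
    apply MonoidAlgebra.ext
    ext γ
    by_contra hne
    change ((y1 ᵥ* B ^ j) l).coeff γ ≠ 0 at hne
    have h2 : (((y - y1) ᵥ* B ^ j) l).coeff γ ≠ 0 := by
      have h3 : (y - y1) ᵥ* B ^ j = - (y1 ᵥ* B ^ j) := by
        rw [Matrix.sub_vecMul, hyB, zero_sub]
      rw [h3]
      intro h4
      apply hne
      have h5 : (-((y1 ᵥ* B ^ j) l)).coeff γ = - ((y1 ᵥ* B ^ j) l).coeff γ := rfl
      have h6 : (-((y1 ᵥ* B ^ j) l)).coeff γ = 0 := h4
      rw [h5, neg_eq_zero] at h6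
      exact h6
    obtain ⟨m, a, b, ha, hb, hab⟩ := vecMul_coeff_ne _ _ _ _ hne
    obtain ⟨m', a', b', ha', hb', hab'⟩ := vecMul_coeff_ne _ _ _ _ h2
    have ha1 : γ₁⁻¹ * a ∈ D ∧ (y m).coeff a ≠ 0 := by
      rw [hy1] at ha
      split_ifs at ha with h
      · exact ⟨h, ha⟩
      · exact absurd rfl ha
    have ha2 : γ₁⁻¹ * a' ∉ D ∧ (y m').coeff a' ≠ 0 := by
      have h3 : ((y - y1) m').coeff a' = (y m').coeff a' - (y1 m').coeff a' := rfl
      rw [h3, hy1] at ha'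
      split_ifs at ha' with h
      · rw [sub_self] at ha'
        exact absurd rfl ha'
      · rw [sub_zero] at ha'
        exact ⟨h, ha'⟩
    have h5 : ∀ (c e : G), c * e = γ → itr (crel D g) j ((1 : G) : G ⧸ D) (e : G ⧸ D) →
        itr (crel D g) j (c : G ⧸ D) (γ : G ⧸ D) := by
      intro c e hce h
      have h1 := itr_crel_smul D g c j _ _ h
      have h2 : c • ((1 : G) : G ⧸ D) = (c : G ⧸ D) := congrArg _ (mul_one c)
      have h3 : c • (e : G ⧸ D) = (γ : G ⧸ D) := congrArg _ hce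
      rwa [h2, h3] at h1
    have h6 : (a : G ⧸ D) = (a' : G ⧸ D) := hur.uniq j _ _ _ _ (hysupp m a ha1.2)
      (hysupp m' a' ha2.2) (h5 a b hab (itr_pow D g B hB j _ _ b hb))
      (h5 a' b' hab' (itr_pow D g B hB j _ _ b' hb'))
    rw [QuotientGroup.eq] at h6
    apply ha2.1
    have h7 : γ₁⁻¹ * a' = (γ₁⁻¹ * a) * (a⁻¹ * a') := by group
    rw [h7]
    exact D.mul_mem ha1.1 h6
  have h8 : incV D (cmp D γ₁ y) = (MonoidAlgebra.single γ₁⁻¹ 1 : MonoidAlgebra A G) • y1 := by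
    funext l
    change _ = MonoidAlgebra.single γ₁⁻¹ 1 * (MonoidAlgebra.single γ₁ 1 * incV D (cmp D γ₁ y) l)
    rw [← mul_assoc, MonoidAlgebra.single_mul_single, inv_mul_cancel, mul_one,
      ← MonoidAlgebra.one_def, one_mul]
  rw [h8, Matrix.smul_vecMul, hzero, smul_zero]

end

end Pool.Agent.Lib.MP_551055_al.T4
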