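import Mathlib
import Pool.Agent.Lib.MP_551055_al.Trim.Descent
import Pool.Agent.Lib.MP_551055_al.Trim.T4.Alg
import Pool.Agent.Lib.MP_551055_al.Trim.T4.Ind0

/-!
# Closure properties of the two-dimensional groups
-/

set_option autoImplicit false

namespace Pool.Agent.Lib.MP_551055_al
end Pool.Agent.Lib.MP_551055_al

namespace Pool.Agent.Lib.MP_551055_al.T4

open Pool.Agent.Lib.MP_551055_al

universe u v w x

section Matrix

variable {R : Type u} [Ring R]

/-- The linear map with the matrix `B` acting from the right. -/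
theorem map_apply_eq_sum {a b : ℕ} (φ : (Fin a → R) →ₗ[R] (Fin b → R)) (v : Fin a → R)
    (j : Fin b) : φ v j = ∑ i, v i * φ (Pi.single i 1) j := by
  conv_lhs => rw [map_eq_lc φ]
  rw [Fintype.linearCombination_apply, Finset.sum_apply]
  rfl

end Matrix

section Chi1

variable {k : Type v} [CommRing k] {D : Type u} [Group D] {H : Type w} [Group H]
  (ψ : H →* D) (hψ : Function.Injective ψ)

/-- The component at a right coset. -/
noncomputable def chi1F (t : MonoidAlgebra k D) (x : Quotient (QuotientGroup.rightRel ψ.range)) :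
    MonoidAlgebra k H := prj k ψ hψ (t * MonoidAlgebra.single (x.out)⁻¹ 1)

theorem chi1F_coeff (t : MonoidAlgebra k D) (x : Quotient (QuotientGroup.rightRel ψ.range)) (h : H) :
    (chi1F ψ hψ t x).coeff h = t.coeff (ψ h * x.out) := by
  rw [chi1F, prj_coeff, MonoidAlgebra.coeff_mul_single_apply, inv_inv, mul_one]

theorem chi1F_finite (t : MonoidAlgebra k D) : {x | chi1F ψ hψ t x ≠ 0}.Finite := by
  classical
  let U : Finset (Quotient (QuotientGroup.rightRel ψ.range)) :=
    t.coeff.support.image fun g => Quotient.mk (QuotientGroup.rightRel ψ.range) g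
  apply U.finite_toSet.subset
  intro p hp
  have h1 : ∃ h : H, t.coeff (ψ h * p.out) ≠ 0 := by
    by_contra h
    push Not at h
    apply hp
    ext d
    rw [chi1F_coeff, h d]
    rfl
  obtain ⟨d, hd⟩ := h1
  refine Finset.mem_coe.2 (Finset.mem_image.2 ⟨_, Finsupp.mem_support_iff.2 hd, ?_⟩)
  conv_rhs => rw [← Quotient.out_eq p]
  apply Quotient.sound
  change (QuotientGroup.rightRel ψ.range) _ _
  rw [QuotientGroup.rightRel_apply, mul_inv_rev, mul_inv_cancel_left]
  exact ψ.range.inv_mem ⟨d, rfl⟩

/-- The coordinates over the group ring of a subgroup. -/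
noncomputable def chi1 : MonoidAlgebra k D →+
    (Quotient (QuotientGroup.rightRel ψ.range) →₀ MonoidAlgebra k H) where
  toFun t := Finsupp.ofSupportFinite (chi1F ψ hψ t) (chi1F_finite ψ hψ t)
  map_zero' := by
    ext p d
    change (chi1F ψ hψ 0 p).coeff d = 0
    rw [chi1F_coeff]
    rfl
  map_add' s s' := by
    ext p d
    change (chi1F ψ hψ (s + s') p).coeff d = (chi1F ψ hψ s p).coeff d + (chi1F ψ hψ s' p).coeff d
    rw [chi1F_coeff, chi1F_coeff, chi1F_coeff]
    rfl

theorem chi1_apply (t : MonoidAlgebra k D) (x : Quotient (QuotientGroup.rightRel ψ.range)) :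
    chi1 ψ hψ t x = chi1F ψ hψ t x := rfl

theorem chi1_smul (r : MonoidAlgebra k H) (t : MonoidAlgebra k D) :
    chi1 ψ hψ (inc k ψ r * t) = r • chi1 ψ hψ t := by
  ext p : 1
  rw [Finsupp.smul_apply, chi1_apply, chi1_apply, chi1F, chi1F, mul_assoc, prj_inc_mul,
    smul_eq_mul]

theorem chi1_single (g : D) (c : k) : ∃ h : H,
    ψ h * (Quotient.mk (QuotientGroup.rightRel ψ.range) g).out = g ∧
    chi1 ψ hψ (MonoidAlgebra.single g c) =
      Finsupp.single (Quotient.mk (QuotientGroup.rightRel ψ.range) g) (MonoidAlgebra.single h c) := by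
  classical
  obtain ⟨x, hx⟩ : ∃ x, x = Quotient.mk (QuotientGroup.rightRel ψ.range) g := ⟨_, rfl⟩
  have h1 : g * x.out⁻¹ ∈ ψ.range := by
    have h2 : (QuotientGroup.rightRel ψ.range) x.out g := by
      rw [hx]
      exact Quotient.mk_out g
    rwa [QuotientGroup.rightRel_apply] at h2
  obtain ⟨h, hh⟩ := h1
  have h2 : ψ h * x.out = g := by rw [hh, inv_mul_cancel_right]
  refine ⟨h, by rw [← hx]; exact h2, ?_⟩
  rw [← hx]
  ext y h'
  rw [chi1_apply, chi1F_coeff, MonoidAlgebra.coeff_single, Finsupp.single_apply,
    Finsupp.single_apply]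
  by_cases hy : x = y
  · subst hy
    rw [if_pos rfl, MonoidAlgebra.coeff_single, Finsupp.single_apply]
    by_cases h3 : h = h'
    · subst h3
      rw [if_pos h2.symm, if_pos rfl]
    · rw [if_neg h3, if_neg]
      intro h4
      apply h3
      rw [← h2] at h4
      exact hψ (mul_right_cancel h4)
  · rw [if_neg hy, if_neg]
    · rfl
    · intro h4
      apply hy
      have h5 : (QuotientGroup.rightRel ψ.range) y.out g := by
        rw [QuotientGroup.rightRel_apply, h4, mul_inv_cancel_right]
        exact ⟨h', rfl⟩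
      have h6 : Quotient.mk (QuotientGroup.rightRel ψ.range) y.out =
          Quotient.mk (QuotientGroup.rightRel ψ.range) g := Quotient.sound h5
      rw [Quotient.out_eq] at h6
      rw [hx, h6]

end Chi1

section Sub

/-- Subgroups of two-dimensional groups are two-dimensional. -/
theorem TWO.of_injective {D : Type u} [Group D] {H : Type w} [Group H] (hD : TWO.{u, v} D)
    (ψ : H →* D) (hψ : Function.Injective ψ) : TWO.{w, v} H := by
  classical
  intro k _ a b φ
  let φ' : (Fin a → MonoidAlgebra k D) →ₗ[MonoidAlgebra k D] (Fin b → MonoidAlgebra k D) :=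
    Fintype.linearCombination _ fun i j => inc k ψ (φ (Pi.single i 1) j)
  have hφ' : ∀ (v : Fin a → MonoidAlgebra k D) (j : Fin b),
      φ' v j = ∑ i, v i * inc k ψ (φ (Pi.single i 1) j) := by
    intro v j
    change (Fintype.linearCombination (MonoidAlgebra k D)
      (fun i j => inc k ψ (φ (Pi.single i 1) j)) v) j = _
    rw [Fintype.linearCombination_apply, Finset.sum_apply]
    rfl
  have hinc : ∀ v, φ' (incv k ψ v) = incv k ψ (φ v) := by
    intro v
    funext j
    rw [hφ']
    change _ = inc k ψ (φ v j)
    rw [map_apply_eq_sum φ v j, map_sum]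
    refine Finset.sum_congr rfl fun i _ => ?_
    rw [map_mul]
    rfl
  have hprj : ∀ v, φ (prjv k ψ hψ v) = prjv k ψ hψ (φ' v) := by
    intro v
    funext j
    rw [map_apply_eq_sum φ]
    change _ = prj k ψ hψ (φ' v j)
    rw [hφ', map_sum]
    refine Finset.sum_congr rfl fun i _ => ?_
    rw [prj_mul_inc]
    rfl
  have hproj : Module.Projective (MonoidAlgebra k D) (LinearMap.ker φ') := hD k a b φ'
  obtain ⟨s, hs⟩ := Module.projective_def'.1 hproj
  have hs' : ∀ y, Finsupp.linearCombination (MonoidAlgebra k D) id (s y) = y :=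
    fun y => LinearMap.congr_fun hs y
  -- restriction of elements of the kernel
  let pr : LinearMap.ker φ' →+ LinearMap.ker φ :=
    { toFun := fun y => ⟨prjv k ψ hψ y.1, by
        rw [LinearMap.mem_ker, hprj, LinearMap.mem_ker.1 y.2, prjv_zero]⟩
      map_zero' := Subtype.ext (prjv_zero ψ hψ)
      map_add' := fun y z => Subtype.ext (prjv_add ψ hψ y.1 z.1) }
  have hpr : ∀ (r : MonoidAlgebra k H) (y : LinearMap.ker φ'),
      pr (inc k ψ r • y) = r • pr y := by
    intro r y
    apply Subtype.ext
    funext i
    exact prj_inc_mul ψ hψ r (y.1 i)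
  let ic : LinearMap.ker φ → LinearMap.ker φ' := fun y => ⟨incv k ψ y.1, by
    rw [LinearMap.mem_ker, hinc, LinearMap.mem_ker.1 y.2]
    funext _
    exact map_zero _⟩
  have hic : ∀ y, pr (ic y) = y := fun y => Subtype.ext (prjv_incv ψ hψ y.1)
  let X := Quotient (QuotientGroup.rightRel ψ.range)
  let i' : LinearMap.ker φ →ₗ[MonoidAlgebra k H]
      (LinearMap.ker φ' →₀ (X →₀ MonoidAlgebra k H)) :=
    { toFun := fun y => Finsupp.mapRange (chi1 ψ hψ) (map_zero _) (s (ic y))
      map_add' := by
        intro y z
        have h1 : ic (y + z) = ic y + ic z := Subtype.ext (by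
          funext i
          exact map_add (inc k ψ) _ _)
        ext p : 1
        rw [h1, map_add, Finsupp.mapRange_apply, Finsupp.add_apply, map_add, Finsupp.add_apply,
          Finsupp.mapRange_apply, Finsupp.mapRange_apply]
      map_smul' := by
        intro r y
        have h1 : ic (r • y) = inc k ψ r • ic y := Subtype.ext (by
          funext i
          exact map_mul (inc k ψ) _ _)
        ext p : 1
        rw [h1, map_smul, Finsupp.mapRange_apply, Finsupp.smul_apply, smul_eq_mul, chi1_smul,
          Finsupp.smul_apply, Finsupp.mapRange_apply]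
        rfl }
  let E : LinearMap.ker φ' → (X →₀ MonoidAlgebra k H) →ₗ[MonoidAlgebra k H] LinearMap.ker φ :=
    fun p => Finsupp.linearCombination (MonoidAlgebra k H) fun x : X =>
      pr ((MonoidAlgebra.single x.out (1 : k) : MonoidAlgebra k D) • p)
  have hE : ∀ (p : LinearMap.ker φ') (t : MonoidAlgebra k D), E p (chi1 ψ hψ t) = pr (t • p) := by
    intro p t
    induction t using MonoidAlgebra.induction_linear with
    | zero => rw [map_zero, map_zero, zero_smul, map_zero]
    | add t t' h h' => rw [map_add, map_add, h, h', add_smul, map_add]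
    | single g c =>
      obtain ⟨h, h1, h2⟩ := chi1_single ψ hψ g c
      rw [h2, Finsupp.linearCombination_single, ← hpr, smul_smul, inc_single,
        MonoidAlgebra.single_mul_single, h1, mul_one]
  let p' : (LinearMap.ker φ' →₀ (X →₀ MonoidAlgebra k H)) →ₗ[MonoidAlgebra k H]
      LinearMap.ker φ := Finsupp.lsum ℕ E
  refine Module.Projective.of_split i' p' (LinearMap.ext fun y => ?_)
  change Finsupp.lsum ℕ E (Finsupp.mapRange (chi1 ψ hψ) (map_zero _) (s (ic y))) = y
  rw [Finsupp.lsum_apply, Finsupp.sum_mapRange_index (fun p => map_zero _)]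
  simp only [hE]
  rw [Finsupp.sum, ← map_sum]
  have h1 := hs' (ic y)
  rw [Finsupp.linearCombination_apply, Finsupp.sum] at h1
  exact (congrArg pr h1).trans (hic y)

end Sub

section Ind

variable {A : Type u} [CommRing A] {G : Type u} [Group G] {D : Subgroup G}

/-- Induced modules of projective modules are projective. -/
theorem proj_ind (M : Type u) [AddCommGroup M] [Module (MonoidAlgebra A D) M]
    [hM : Module.Projective (MonoidAlgebra A D) M] :
    Module.Projective (MonoidAlgebra A G) (Ind A D M) := by
  obtain ⟨s, hs⟩ := Module.projective_def'.1 hM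
  have hs' : ∀ y, Finsupp.linearCombination (MonoidAlgebra A D) id (s y) = y :=
    fun y => LinearMap.congr_fun hs y
  let f : M →ₛₗ[incD D A] (M →₀ MonoidAlgebra A G) :=
    { toFun := fun m => Finsupp.mapRange (incD D A) (map_zero _) (s m)
      map_add' := by
        intro m n
        ext p : 1
        rw [map_add, Finsupp.mapRange_apply, Finsupp.add_apply, map_add, Finsupp.add_apply,
          Finsupp.mapRange_apply, Finsupp.mapRange_apply]
      map_smul' := by
        intro r m
        ext p : 1
        rw [map_smul, Finsupp.mapRange_apply, Finsupp.smul_apply, smul_eq_mul, map_mul,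
          Finsupp.smul_apply, Finsupp.mapRange_apply, smul_eq_mul] }
  let b : (M →₀ MonoidAlgebra A G) →ₗ[MonoidAlgebra A G] Ind A D M :=
    Finsupp.linearCombination (MonoidAlgebra A G) fun m : M => Ind.iota D A m
  refine Module.Projective.of_split (Ind.lift f) b (Ind.hom_ext fun m => ?_)
  rw [LinearMap.comp_apply, Ind.lift_iota]
  change Finsupp.linearCombination (MonoidAlgebra A G) (fun m : M => Ind.iota D A m)
    (Finsupp.mapRange (incD D A) (map_zero _) (s m)) = Ind.iota D A m
  rw [Finsupp.linearCombination_apply, Finsupp.sum_mapRange_index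
    (h := fun p r => r • Ind.iota D A p) (fun p => zero_smul _ _), Finsupp.sum]
  have h1 := hs' m
  rw [Finsupp.linearCombination_apply, Finsupp.sum] at h1
  conv_rhs => rw [← h1]
  rw [map_sum]
  refine Finset.sum_congr rfl fun p _ => ?_
  rw [LinearMap.map_smulₛₗ]
  rfl

end Ind

section Union

theorem prjv_smul_coeff {k : Type v} [CommRing k] {D : Type u} [Group D] {H : Type w} [Group H]
    (ψ : H →* D) (hψ : Function.Injective ψ) {a : ℕ} (g : D) (v : Fin a → MonoidAlgebra k D)
    (i : Fin a) (h : H) :
    (prjv k ψ hψ ((MonoidAlgebra.single g (1 : k) : MonoidAlgebra k D) • v) i).coeff h =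
      (v i).coeff (g⁻¹ * ψ h) := by
  have h1 : prjv k ψ hψ ((MonoidAlgebra.single g (1 : k) : MonoidAlgebra k D) • v) i =
      prj k ψ hψ (((MonoidAlgebra.single g (1 : k) : MonoidAlgebra k D) • v) i) := rfl
  rw [h1, prj_coeff, Pi.smul_apply, smul_eq_mul, MonoidAlgebra.coeff_single_mul_apply, one_mul]

/-- Groups which are unions of two-dimensional subgroups. -/
theorem TWO.of_finset {D : Type u} [Group D]
    (hD : ∀ s : Finset D, ∃ H : Subgroup D, (∀ g ∈ s, g ∈ H) ∧ TWO.{u, u} H) : TWO.{u, u} D := by
  classical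
  intro k _ a b φ
  obtain ⟨H, hH, hT⟩ := hD (Finset.univ.biUnion fun i : Fin a => Finset.univ.biUnion fun j : Fin b =>
    (φ (Pi.single i 1) j).coeff.support)
  have hsub : Function.Injective H.subtype := Subgroup.subtype_injective H
  have hM : ∀ i j, inc k H.subtype (prj k H.subtype hsub (φ (Pi.single i 1) j)) =
      φ (Pi.single i 1) j := by
    intro i j
    ext g
    by_cases hg : g ∈ H
    · have h1 := inc_coeff_apply H.subtype hsub
        (prj k H.subtype hsub (φ (Pi.single i 1) j)) ⟨g, hg⟩
      rw [prj_coeff] at h1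
      exact h1
    · rw [inc_coeff_of_notMem]
      · by_contra hne
        apply hg
        apply hH
        exact Finset.mem_biUnion.2 ⟨i, Finset.mem_univ _, Finset.mem_biUnion.2
          ⟨j, Finset.mem_univ _, Finsupp.mem_support_iff.2 (Ne.symm hne)⟩⟩
      · rintro ⟨d, rfl⟩
        exact hg d.2
  let φ' : (Fin a → MonoidAlgebra k H) →ₗ[MonoidAlgebra k H] (Fin b → MonoidAlgebra k H) :=
    Fintype.linearCombination _ fun i j => prj k H.subtype hsub (φ (Pi.single i 1) j)
  have hφ' : ∀ (v : Fin a → MonoidAlgebra k H) (j : Fin b),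
      φ' v j = ∑ i, v i * prj k H.subtype hsub (φ (Pi.single i 1) j) := by
    intro v j
    change (Fintype.linearCombination (MonoidAlgebra k H)
      (fun i j => prj k H.subtype hsub (φ (Pi.single i 1) j)) v) j = _
    rw [Fintype.linearCombination_apply, Finset.sum_apply]
    rfl
  have hinc : ∀ v, φ (incv k H.subtype v) = incv k H.subtype (φ' v) := by
    intro v
    funext j
    rw [map_apply_eq_sum φ]
    change _ = inc k H.subtype (φ' v j)
    rw [hφ', map_sum]
    refine Finset.sum_congr rfl fun i _ => ?_
    rw [map_mul, hM]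
    rfl
  have hprj : ∀ v, φ' (prjv k H.subtype hsub v) = prjv k H.subtype hsub (φ v) := by
    intro v
    funext j
    rw [hφ']
    change _ = prj k H.subtype hsub (φ v j)
    rw [map_apply_eq_sum φ v j, map_sum]
    refine Finset.sum_congr rfl fun i _ => ?_
    conv_rhs => rw [← hM i j]
    rw [prj_mul_inc]
    rfl
  have hproj : Module.Projective (MonoidAlgebra k H) (LinearMap.ker φ') := hT k a b φ'
  have hind : Module.Projective (MonoidAlgebra k D) (Ind k H (LinearMap.ker φ')) :=
    proj_ind (LinearMap.ker φ')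
  let f : LinearMap.ker φ' →ₛₗ[incD H k] LinearMap.ker φ :=
    { toFun := fun y => ⟨incv k H.subtype y.1, by
        rw [LinearMap.mem_ker, hinc, LinearMap.mem_ker.1 y.2]
        funext _
        exact map_zero _⟩
      map_add' := by
        intro y z
        apply Subtype.ext
        funext i
        exact map_add (inc k H.subtype) _ _
      map_smul' := by
        intro r y
        apply Subtype.ext
        funext i
        exact map_mul (inc k H.subtype) _ _ }
  have hcoef : ∀ (Φ : Ind k H (LinearMap.ker φ')) (x : D ⧸ H) (h : H) (i : Fin a),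
      ((Ind.lift f Φ).1 i).coeff (rep H x * h) = ((Φ x).1 i).coeff h := by
    intro Φ x h i
    refine Ind.induction (Q := fun Φ => ((Ind.lift f Φ).1 i).coeff (rep H x * h) =
      ((Φ x).1 i).coeff h) Φ ?_ ?_ ?_
    · rw [map_zero, Ind.zero_apply]
      rfl
    · intro Φ Ψ h1 h2
      rw [map_add, Ind.add_apply]
      change ((Ind.lift f Φ).1 i).coeff (rep H x * h) + ((Ind.lift f Ψ).1 i).coeff (rep H x * h) =
        ((Φ x).1 i).coeff h + ((Ψ x).1 i).coeff h
      rw [h1, h2]
    · intro y m
      rw [Ind.lift_sg]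
      change (MonoidAlgebra.single (rep H y) 1 * inc k H.subtype (m.1 i)).coeff (rep H x * h) = _
      rw [MonoidAlgebra.coeff_single_mul_apply, one_mul]
      by_cases hxy : x = y
      · subst hxy
        rw [inv_mul_cancel_left, Ind.sg_self]
        exact inc_coeff_apply H.subtype hsub (m.1 i) h
      · rw [Ind.sg_ne hxy, inc_coeff_of_notMem]
        · rfl
        · rintro ⟨d, hd⟩
          apply hxy
          have h1 : (rep H y)⁻¹ * rep H x ∈ H := by
            have h2 : (rep H y)⁻¹ * (rep H x * h) ∈ H := by
              rw [← hd]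
              exact d.2
            have h3 := H.mul_mem h2 (H.inv_mem h.2)
            simpa [mul_assoc] using h3
          have h3 := QuotientGroup.eq.2 h1
          rw [mk_rep, mk_rep] at h3
          exact h3.symm
  have hinj : Function.Injective (Ind.lift f) := by
    rw [injective_iff_map_eq_zero]
    intro Φ hΦ
    refine Ind.ext fun x => ?_
    rw [Ind.zero_apply]
    apply Subtype.ext
    funext i
    ext h
    rw [← hcoef, hΦ]
    rfl
  have hdec : ∀ g : D, ∃ (x : D ⧸ H) (h : H), g = rep H x * h := fun g =>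
    ⟨QuotientGroup.mk g, ⟨_, rep_mem H g _ rfl⟩, (mul_inv_cancel_left _ _).symm⟩
  have hsurj : Function.Surjective (Ind.lift f) := by
    intro v
    let Φf : D ⧸ H → LinearMap.ker φ' := fun x =>
      ⟨prjv k H.subtype hsub ((MonoidAlgebra.single (rep H x)⁻¹ (1 : k) : MonoidAlgebra k D) • v.1), by
        rw [LinearMap.mem_ker, hprj, map_smul, LinearMap.mem_ker.1 v.2, smul_zero, prjv_zero]⟩
    have hΦf : ∀ x (h : H) i, ((Φf x).1 i).coeff h = (v.1 i).coeff (rep H x * h) := by
      intro x h i
      refine (prjv_smul_coeff H.subtype hsub (rep H x)⁻¹ v.1 i h).trans ?_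
      rw [inv_inv, Subgroup.subtype_apply]
    have hfin : {x | Φf x ≠ 0}.Finite := by
      let U : Finset (D ⧸ H) := Finset.univ.biUnion fun i : Fin a =>
        (v.1 i).coeff.support.image fun g => (QuotientGroup.mk g : D ⧸ H)
      apply U.finite_toSet.subset
      intro x hx
      have h1 : ∃ (i : Fin a) (h : H), (v.1 i).coeff (rep H x * h) ≠ 0 := by
        by_contra hcon
        push Not at hcon
        apply hx
        apply Subtype.ext
        funext i
        ext h
        rw [hΦf, hcon i h]
        rfl
      obtain ⟨i, h, hi⟩ := h1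
      refine Finset.mem_coe.2 (Finset.mem_biUnion.2 ⟨i, Finset.mem_univ _, Finset.mem_image.2
        ⟨_, Finsupp.mem_support_iff.2 hi, ?_⟩⟩)
      rw [← mk_rep H x]
      apply QuotientGroup.eq.2
      rw [mk_rep, mul_inv_rev, mul_assoc, inv_mul_cancel, mul_one]
      exact H.inv_mem h.2
    refine ⟨(show Ind k H (LinearMap.ker φ') from Finsupp.ofSupportFinite Φf hfin), ?_⟩
    apply Subtype.ext
    funext i
    ext g
    obtain ⟨x, h, rfl⟩ := hdec g
    rw [hcoef]
    exact hΦf x h i
  exact Module.Projective.of_equiv (LinearEquiv.ofBijective (Ind.lift f) ⟨hinj, hsurj⟩)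

end Union

end Pool.Agent.Lib.MP_551055_al.T4
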