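import Mathlib
import Pool.Agent.Lib.MP_551055_al.Trim.Descent
import Pool.Agent.Lib.MP_551055_al.Trim.LS.Stmts
import Pool.Agent.Lib.MP_551055_al.Trim.T4.Ind0
import Pool.Agent.Lib.MP_551055_al.Trim.T4.Mods

/-!
# The V step and the last step of the devissage
-/

set_option autoImplicit false

namespace Pool.Agent.Lib.MP_551055_al
end Pool.Agent.Lib.MP_551055_al

namespace Pool.Agent.Lib.MP_551055_al.LS
end Pool.Agent.Lib.MP_551055_al.LS

namespace Pool.Agent.Lib.MP_551055_al.LD
end Pool.Agent.Lib.MP_551055_al.LD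

namespace Pool.Agent.Lib.MP_551055_al.T4

open Pool.Agent.Lib.MP_551055_al

open Pool.Agent.Lib.MP_551055_al.LS

open Pool.Agent.Lib.MP_551055_al.LD

universe u

section

variable {A : Type u} [CommRing A] {G : Type u} [Group G] {D : Subgroup G}
  {M : Type u} [AddCommGroup M] [Module (MonoidAlgebra A D) M]
  {M' : Type u} [AddCommGroup M'] [Module (MonoidAlgebra A D) M']

/-- Products of finitely generated ideals and submodules. -/
theorem exists_span_smul (J : Ideal A) (N : Submodule (MonoidAlgebra A D) M) (hJ : J.FG)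
    (hN : N.FG) : ∃ s : Finset M,
      (∀ y ∈ s, ∃ a ∈ J, ∃ m ∈ N, y = algebraMap A (MonoidAlgebra A D) a • m) ∧
      ∀ a ∈ J, ∀ m ∈ N, algebraMap A (MonoidAlgebra A D) a • m ∈
        Submodule.span (MonoidAlgebra A D) (s : Set M) := by
  classical
  obtain ⟨s, hs⟩ := hJ
  obtain ⟨t, ht⟩ := hN
  refine ⟨Finset.image₂ (fun a m => algebraMap A (MonoidAlgebra A D) a • m) s t, ?_, ?_⟩
  · intro y hy
    obtain ⟨a, ha, m, hm, rfl⟩ := Finset.mem_image₂.1 hy
    refine ⟨a, ?_, m, ?_, rfl⟩
    · rw [← hs]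
      exact Submodule.subset_span ha
    · rw [← ht]
      exact Submodule.subset_span hm
  · intro a ha m hm
    rw [← hs] at ha
    rw [← ht] at hm
    induction ha using Submodule.span_induction with
    | mem a ha =>
      induction hm using Submodule.span_induction with
      | mem m hm => exact Submodule.subset_span (Finset.mem_image₂_of_mem ha hm)
      | zero =>
        rw [smul_zero]
        exact Submodule.zero_mem _
      | add m m' _ _ h1 h2 =>
        rw [smul_add]
        exact Submodule.add_mem _ h1 h2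
      | smul r m _ h1 =>
        rw [smul_smul, Algebra.commutes, ← smul_smul]
        exact Submodule.smul_mem _ _ h1
    | zero =>
      rw [map_zero, zero_smul]
      exact Submodule.zero_mem _
    | add a b _ _ h1 h2 =>
      rw [map_add, add_smul]
      exact Submodule.add_mem _ h1 h2
    | smul b a _ h1 =>
      rw [smul_eq_mul, map_mul, mul_smul]
      exact Submodule.smul_mem _ _ h1

/-- Quotients of nil modules. -/
theorem exists_quot (f : M →ₛₗ[incD D A] Ind A D M) (N : Submodule (MonoidAlgebra A D) M)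
    (hN : ∀ m ∈ N, ∀ x, f m x ∈ N) :
    ∃ f' : (M ⧸ N) →ₛₗ[incD D A] Ind A D (M ⧸ N), IsHom f f' N.mkQ := by
  refine ⟨N.liftQ ((Ind.map N.mkQ).comp f) ?_, fun m x => ?_⟩
  · intro m hm
    rw [LinearMap.mem_ker, LinearMap.comp_apply]
    apply Ind.ext
    intro x
    rw [Ind.map_apply, Ind.zero_apply, Submodule.mkQ_apply, Submodule.Quotient.mk_eq_zero]
    exact hN m hm x
  · change (Ind.map N.mkQ (f m)) x = _
    rw [Ind.map_apply]

/-- The module `M × T` with the zero map on `T`. -/
noncomputable def prodZ (f : M →ₛₗ[incD D A] Ind A D M) (T : Type u) [AddCommGroup T]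
    [Module (MonoidAlgebra A D) T] : (M × T) →ₛₗ[incD D A] Ind A D (M × T) :=
  ((Ind.map (LinearMap.inl (MonoidAlgebra A D) M T)).comp f).comp
    (LinearMap.fst (MonoidAlgebra A D) M T)

theorem prodZ_apply (f : M →ₛₗ[incD D A] Ind A D M) (T : Type u) [AddCommGroup T]
    [Module (MonoidAlgebra A D) T] (y : M × T) (x : G ⧸ D) : prodZ f T y x = (f y.1 x, 0) := by
  change (Ind.map (LinearMap.inl (MonoidAlgebra A D) M T) (f y.1)) x = _
  rw [Ind.map_apply]
  rfl

theorem prodZ_inl (f : M →ₛₗ[incD D A] Ind A D M) (T : Type u) [AddCommGroup T]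
    [Module (MonoidAlgebra A D) T] :
    IsHom f (prodZ f T) (LinearMap.inl (MonoidAlgebra A D) M T) := fun m x => by
  rw [prodZ_apply]
  rfl

theorem prodZ_fst (f : M →ₛₗ[incD D A] Ind A D M) (T : Type u) [AddCommGroup T]
    [Module (MonoidAlgebra A D) T] :
    IsHom (prodZ f T) f (LinearMap.fst (MonoidAlgebra A D) M T) := fun m x => by
  rw [prodZ_apply]
  rfl

theorem prodZ_snd (f : M →ₛₗ[incD D A] Ind A D M) (T : Type u) [AddCommGroup T]
    [Module (MonoidAlgebra A D) T] :
    IsHom (prodZ f T) 0 (LinearMap.snd (MonoidAlgebra A D) M T) := fun m x => by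
  rw [prodZ_apply]
  rfl

theorem gen_prodZ (f : M →ₛₗ[incD D A] Ind A D M) (T : Type u) [AddCommGroup T]
    [Module (MonoidAlgebra A D) T] (j : ℕ) (y : M × T) (hy : y ∈ gen (prodZ f T) (j + 1)) :
    y.2 = 0 := by
  have h1 : gen (prodZ f T) (j + 1) ≤ LinearMap.ker (LinearMap.snd (MonoidAlgebra A D) M T) := by
    refine nxt_le fun m _ x => ?_
    rw [prodZ_apply]
    rfl
  exact h1 hy

theorem SNil.prodZ {f : M →ₛₗ[incD D A] Ind A D M} (hf : SNil f) (T : Type u) [AddCommGroup T]
    [Module (MonoidAlgebra A D) T] : SNil (prodZ f T) := by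
  obtain ⟨N, hN⟩ := hf
  refine ⟨N + 1, le_bot_iff.1 fun y hy => ?_⟩
  have h1 := gen_prodZ f T N y hy
  have h2 : y.1 ∈ gen f (N + 1) := (prodZ_fst f T).map_mem_gen hy
  rw [gen_bot_of_le (Nat.le_succ N) hN, Submodule.mem_bot] at h2
  rw [Submodule.mem_bot]
  exact Prod.ext h2 h1

/-- The elements of the socle which have to be divided out. -/
theorem exists_soc_set [IsNoetherianRing A] [Module.Finite (MonoidAlgebra A D) M] {q : Ideal A}
    {s : ℕ} {f : M →ₛₗ[incD D A] Ind A D M} (hord : Ord q (s + 1) f) :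
    ∃ (c : A) (t : Finset (Soc q f)), c ∉ q ∧ ∀ j ≤ s, ∀ a ∈ q ^ (s - j), ∀ m ∈ gen f j,
      ∃ y ∈ Submodule.span (MonoidAlgebra A D) (t : Set (Soc q f)),
        (y : M) = algebraMap A (MonoidAlgebra A D) (c * a) • m := by
  classical
  obtain ⟨c, hc, H⟩ := hord
  have hsoc : ∀ j ≤ s, ∀ a ∈ q ^ (s - j), ∀ m ∈ gen f j,
      algebraMap A (MonoidAlgebra A D) (c * a) • m ∈ Soc q f := by
    intro j hj a ha m hm
    rw [mem_Soc]
    refine ⟨fun b hb => ?_, ?_⟩
    · rw [smul_smul, ← map_mul]
      have h1 : b * (c * a) = c * (a * b) := by ring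
      rw [h1]
      refine H j (by omega) (a * b) ?_ m hm
      have h2 : s + 1 - j = s - j + 1 := by omega
      rw [h2, pow_succ]
      exact Ideal.mul_mem_mul ha hb
    · rw [LinearMap.map_smulₛₗ]
      apply Ind.ext
      intro x
      have h1 : incD D A (algebraMap A (MonoidAlgebra A D) (c * a)) =
          algebraMap A (MonoidAlgebra A G) (c * a) := by
        rw [algebraMap_eq_single, algebraMap_eq_single, inc_single, map_one]
      rw [h1, Ind.alg_smul_apply, Ind.zero_apply]
      refine H (j + 1) (by omega) a ?_ _ (comp_mem_gen hm x)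
      have h2 : s + 1 - (j + 1) = s - j := by omega
      rw [h2]
      exact ha
  have h1 : ∀ j : ℕ, ∃ t : Finset (Soc q f), j ≤ s → ∀ a ∈ q ^ (s - j), ∀ m ∈ gen f j,
      ∃ y ∈ Submodule.span (MonoidAlgebra A D) (t : Set (Soc q f)),
        (y : M) = algebraMap A (MonoidAlgebra A D) (c * a) • m := by
    intro j
    by_cases hj : j ≤ s
    · obtain ⟨t, ht1, ht2⟩ := exists_span_smul (q ^ (s - j)) (gen f j)
        (Ideal.fg_of_isNoetherianRing _) (gen_fg j)
      let e : {y // y ∈ t} → Soc q f := fun y =>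
        ⟨algebraMap A (MonoidAlgebra A D) c • (y : M), by
          obtain ⟨a, ha, m, hm, h⟩ := ht1 y.1 y.2
          rw [h, smul_smul, ← map_mul]
          exact hsoc j hj a ha m hm⟩
      refine ⟨Finset.univ.image e, fun _ a ha m hm => ?_⟩
      have h2 := ht2 a ha m hm
      have h3 : algebraMap A (MonoidAlgebra A D) (c * a) • m =
          algebraMap A (MonoidAlgebra A D) c • (algebraMap A (MonoidAlgebra A D) a • m) := by
        rw [map_mul, mul_smul]
      rw [h3]
      generalize algebraMap A (MonoidAlgebra A D) a • m = z at h2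
      induction h2 using Submodule.span_induction with
      | mem z hz =>
        exact ⟨e ⟨z, hz⟩, Submodule.subset_span (Finset.mem_coe.2
          (Finset.mem_image_of_mem e (Finset.mem_univ _))), rfl⟩
      | zero => exact ⟨0, Submodule.zero_mem _, (smul_zero _).symm⟩
      | add z w _ _ hz hw =>
        obtain ⟨y, hy, hyz⟩ := hz
        obtain ⟨y', hy', hyz'⟩ := hw
        exact ⟨y + y', Submodule.add_mem _ hy hy', by rw [smul_add, ← hyz, ← hyz']; rfl⟩
      | smul r z _ hz =>
        obtain ⟨y, hy, hyz⟩ := hz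
        refine ⟨r • y, Submodule.smul_mem _ _ hy, ?_⟩
        rw [smul_smul, Algebra.commutes, ← smul_smul, ← hyz]
        rfl
    · exact ⟨∅, fun h => absurd h hj⟩
  choose t ht using h1
  refine ⟨c, (Finset.range (s + 1)).biUnion t, hc, fun j hj a ha m hm => ?_⟩
  obtain ⟨y, hy, hyz⟩ := ht j hj a ha m hm
  refine ⟨y, Submodule.span_mono ?_ hy, hyz⟩
  exact_mod_cast Finset.subset_biUnion_of_mem t (Finset.mem_range.2 (Nat.lt_succ_of_le hj))

end

end Pool.Agent.Lib.MP_551055_al.T4
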