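import Mathlib

/-!
# Permutation modules with coefficients

For a `D`-set `X` and a `k[D]`-module `M` the finitely supported functions `X → M` form a
`k[D]`-module. Its projective dimension is bounded by the projective dimensions of `M` over the
group rings of the stabilisers.
-/

set_option autoImplicit false

namespace Pool.Agent.Lib.MP_551055_al.T4

open CategoryTheory

universe u

variable {k : Type u} [Field k] {D : Type u} [Group D]

section Rep

variable {V W : Type u} [AddCommGroup V] [AddCommGroup W] [Module k V] [Module k W]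

/-- Linear maps between representations. -/
noncomputable def rmap {ρ : Representation k D V} {σ : Representation k D W} (f : V →ₗ[k] W)
    (hf : ∀ (g : D) (v : V), f (ρ g v) = σ g (f v)) :
    ρ.asModule →ₗ[MonoidAlgebra k D] σ.asModule :=
  MonoidAlgebra.equivariantOfLinearOfComm (V := ρ.asModule) (W := σ.asModule)
    (σ.asModuleEquiv.symm.toLinearMap ∘ₗ f ∘ₗ ρ.asModuleEquiv.toLinearMap) (by
      intro g v
      rw [Representation.single_smul, Representation.single_smul, one_smul, one_smul]
      exact hf g v)

/-- A linear map over the group ring as an equivariant map. -/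
noncomputable def unr {ρ : Representation k D V} {σ : Representation k D W}
    (f : ρ.asModule →ₗ[MonoidAlgebra k D] σ.asModule) : V →ₗ[k] W :=
  σ.asModuleEquiv.toLinearMap ∘ₗ f.restrictScalars k ∘ₗ ρ.asModuleEquiv.symm.toLinearMap

theorem unr_equi {ρ : Representation k D V} {σ : Representation k D W}
    (f : ρ.asModule →ₗ[MonoidAlgebra k D] σ.asModule) (g : D) (v : V) :
    unr f (ρ g v) = σ g (unr f v) := by
  have h1 : (ρ g v : V) = (MonoidAlgebra.single g (1 : k) • (ρ.asModuleEquiv.symm v) : ρ.asModule) := by
    rw [Representation.single_smul, one_smul]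
    rfl
  rw [h1]
  change f (MonoidAlgebra.single g (1 : k) • (ρ.asModuleEquiv.symm v)) = _
  rw [map_smul, Representation.single_smul, one_smul]
  rfl

end Rep

section Pm

variable {V W : Type u} [AddCommGroup V] [AddCommGroup W] [Module k V] [Module k W]

/-- The permutation representation with coefficients. -/
noncomputable def pm (X : Type u) [MulAction D X] (ρ : Representation k D V) :
    Representation k D (X →₀ V) where
  toFun g := (Finsupp.lmapDomain V k (g • ·)) ∘ₗ (Finsupp.mapRange.linearMap (ρ g))
  map_one' := by
    ext x v y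
    simp
  map_mul' g h := by
    ext x v y
    simp [mul_smul]

theorem pm_single {X : Type u} [MulAction D X] (ρ : Representation k D V) (g : D) (x : X) (v : V) :
    pm X ρ g (Finsupp.single x v) = Finsupp.single (g • x) (ρ g v) := by
  simp [pm]

/-- The representation restricted along a homomorphism. -/
abbrev res {H : Type u} [Group H] (ψ : H →* D) (ρ : Representation k D V) :
    Representation k H V := ρ.comp ψ

end Pm

section OfAs

variable (N : Type u) [AddCommGroup N] [Module k N] [Module (MonoidAlgebra k D) N]
  [IsScalarTower k (MonoidAlgebra k D) N]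

/-- The representation of a module. -/
noncomputable abbrev rof : Representation k D N := Representation.ofModule' (k := k) (G := D) N

theorem rof_apply (g : D) (n : N) : rof (k := k) (D := D) N g n = MonoidAlgebra.single g (1 : k) • n :=
  rfl

/-- The module of the representation of a module. -/
noncomputable def rofEquiv : (rof (k := k) (D := D) N).asModule ≃ₗ[MonoidAlgebra k D] N :=
  LinearEquiv.ofBijective
    (MonoidAlgebra.equivariantOfLinearOfComm (V := (rof (k := k) (D := D) N).asModule) (W := N)
      ((rof (k := k) (D := D) N).asModuleEquiv.toLinearMap) (by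
        intro g v
        rw [Representation.single_smul, one_smul]
        rfl)) Function.bijective_id

end OfAs

section Proj

variable {V : Type u} [AddCommGroup V] [Module k V]

/-- Lifting equivariant maps. -/
theorem exists_lift {P N N' : Type u} [AddCommGroup P] [Module k P] [AddCommGroup N] [Module k N]
    [AddCommGroup N'] [Module k N'] {π : Representation k D P} {ν : Representation k D N}
    {ν' : Representation k D N'} [Module.Projective (MonoidAlgebra k D) π.asModule]
    (f : N →ₗ[k] N') (hf : ∀ g v, f (ν g v) = ν' g (f v)) (hs : Function.Surjective f)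
    (q : P →ₗ[k] N') (hq : ∀ g v, q (π g v) = ν' g (q v)) :
    ∃ q' : P →ₗ[k] N, (∀ g v, q' (π g v) = ν g (q' v)) ∧ ∀ v, f (q' v) = q v := by
  obtain ⟨h, hh⟩ := Module.projective_lifting_property
    (rmap f hf : ν.asModule →ₗ[MonoidAlgebra k D] ν'.asModule)
    (rmap q hq : π.asModule →ₗ[MonoidAlgebra k D] ν'.asModule) hs
  exact ⟨unr h, unr_equi h, fun v => LinearMap.congr_fun hh v⟩

/-- A criterion for projectivity. -/
theorem projective_of_lift {P : Type u} [AddCommGroup P] [Module k P] {π : Representation k D P}
    (h : ∀ (N : Type u) [AddCommGroup N] [Module k N] (ν : Representation k D N) (f : N →ₗ[k] P),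
      (∀ g v, f (ν g v) = π g (f v)) → Function.Surjective f →
        ∃ s : P →ₗ[k] N, (∀ g v, s (π g v) = ν g (s v)) ∧ ∀ v, f (s v) = v) :
    Module.Projective (MonoidAlgebra k D) π.asModule := by
  refine Module.Projective.of_lifting_property'' fun f hf => ?_
  obtain ⟨s, hs, hs'⟩ := h _ (rof (k := k) (D := D) (π.asModule →₀ MonoidAlgebra k D))
    (unr (f ∘ₗ (rofEquiv (k := k) (D := D) (π.asModule →₀ MonoidAlgebra k D)).toLinearMap))
    (unr_equi _) hf
  exact ⟨(rofEquiv (k := k) (D := D) (π.asModule →₀ MonoidAlgebra k D)).toLinearMap ∘ₗ rmap s hs,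
    LinearMap.ext fun v => hs' v⟩

end Proj

section PmProj

variable {V : Type u} [AddCommGroup V] [Module k V]

theorem rep_inv_apply (ρ : Representation k D V) (g : D) (v : V) : ρ g (ρ g⁻¹ v) = v :=
  Representation.self_inv_apply ρ g v

/-- The permutation representation with coefficients in a representation which is projective over
the stabilisers. -/
theorem pm_projective (X : Type u) [MulAction D X] (ρ : Representation k D V)
    (h : ∀ x : X, Module.Projective (MonoidAlgebra k (MulAction.stabilizer D x))
      (res (MulAction.stabilizer D x).subtype ρ).asModule) :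
    Module.Projective (MonoidAlgebra k D) (pm X ρ).asModule := by
  classical
  refine projective_of_lift fun N _ _ ν f hf hsurj => ?_
  -- the lifts at the representatives of the orbits
  have h1 : ∀ x : X, ∃ j : V →ₗ[k] N,
      (∀ (g : D) (_ : g • x = x) (v : V), j (ρ g v) = ν g (j v)) ∧
      ∀ v, f (j v) = Finsupp.single x v := by
    intro x
    have := h x
    obtain ⟨j, hj, hj'⟩ := exists_lift (D := MulAction.stabilizer D x)
      (π := res (MulAction.stabilizer D x).subtype ρ)
      (ν := res (MulAction.stabilizer D x).subtype ν)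
      (ν' := res (MulAction.stabilizer D x).subtype (pm X ρ)) f (fun g v => hf g v) hsurj
      (Finsupp.lsingle x) (by
        intro g v
        change Finsupp.single x (ρ g v) = pm X ρ g (Finsupp.single x v)
        rw [pm_single]
        exact congrArg (fun y => Finsupp.single y (ρ g v)) g.2.symm)
    exact ⟨j, fun g hg v => hj ⟨g, hg⟩ v, hj'⟩
  choose j hj hj' using h1
  -- representatives of the orbits
  let r : X → X := fun y => (Quotient.mk (MulAction.orbitRel D X) y).out
  have hr : ∀ y, ∃ γ : D, γ • r y = y := by
    intro y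
    have h2 : (MulAction.orbitRel D X) (r y) y := Quotient.mk_out y
    obtain ⟨γ, hγ⟩ := (MulAction.orbitRel_apply.1 h2)
    refine ⟨γ⁻¹, ?_⟩
    rw [← hγ]
    exact inv_smul_smul γ y
  have hrg : ∀ (g : D) y, r (g • y) = r y := by
    intro g y
    have h2 : Quotient.mk (MulAction.orbitRel D X) (g • y) = Quotient.mk (MulAction.orbitRel D X) y :=
      Quotient.sound (MulAction.orbitRel_apply.2 ⟨g, rfl⟩)
    exact congrArg Quotient.out h2
  choose γ hγ using hr
  let J : X → V →ₗ[k] N := fun y => ν (γ y) ∘ₗ j (r y) ∘ₗ ρ (γ y)⁻¹
  have hJ : ∀ y v, J y v = ν (γ y) (j (r y) (ρ (γ y)⁻¹ v)) := fun _ _ => rfl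
  have hJg : ∀ (g : D) y v, J (g • y) (ρ g v) = ν g (J y v) := by
    intro g y v
    rw [hJ, hJ]
    have h2 : (γ (g • y))⁻¹ * g * γ y ∈ MulAction.stabilizer D (r y) := by
      rw [MulAction.mem_stabilizer_iff, mul_smul, mul_smul, hγ, inv_smul_eq_iff]
      conv_rhs => rw [← hrg g y]
      exact (hγ (g • y)).symm
    have h3 : ρ (γ (g • y))⁻¹ (ρ g v) = ρ ((γ (g • y))⁻¹ * g * γ y) (ρ (γ y)⁻¹ v) := by
      rw [map_mul, map_mul, Module.End.mul_apply, Module.End.mul_apply, rep_inv_apply]
    rw [h3, hrg, hj _ _ h2, map_mul, map_mul, Module.End.mul_apply, Module.End.mul_apply,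
      rep_inv_apply]
  refine ⟨Finsupp.lsum k J, fun g φ => ?_, fun φ => ?_⟩
  · induction φ using Finsupp.induction_linear with
    | zero => simp only [map_zero]
    | add a b ha hb => simp only [map_add, ha, hb]
    | single y v =>
      rw [pm_single, Finsupp.lsum_single, Finsupp.lsum_single, hJg]
  · induction φ using Finsupp.induction_linear with
    | zero => simp only [map_zero]
    | add a b ha hb => simp only [map_add, ha, hb]
    | single y v =>
      rw [Finsupp.lsum_single, hJ, hf, hj', pm_single, rep_inv_apply, hγ]

end PmProj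

section Res

variable {V : Type u} [AddCommGroup V] [Module k V] {H : Type u} [Group H]

theorem res_free_projective (ψ : H →* D) (hψ : Function.Injective ψ) (Y : Type u) :
    Module.Projective (MonoidAlgebra k H)
      (res ψ (rof (k := k) (D := D) (Y →₀ MonoidAlgebra k D))).asModule := by
  classical
  refine projective_of_lift fun N _ _ ν f hf hsurj => ?_
  let r : D → D := fun d => (Quotient.mk (QuotientGroup.rightRel ψ.range) d).out
  have hr : ∀ d, ∃ h : H, ψ h * r d = d := by
    intro d
    have h1 : (QuotientGroup.rightRel ψ.range) (r d) d := Quotient.mk_out d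
    rw [QuotientGroup.rightRel_apply] at h1
    obtain ⟨h, hh⟩ := h1
    exact ⟨h, by rw [hh, inv_mul_cancel_right]⟩
  have hrg : ∀ (h : H) d, r (ψ h * d) = r d := by
    intro h d
    have h1 : Quotient.mk (QuotientGroup.rightRel ψ.range) (ψ h * d) =
        Quotient.mk (QuotientGroup.rightRel ψ.range) d := by
      apply Quotient.sound
      change (QuotientGroup.rightRel ψ.range) _ _
      rw [QuotientGroup.rightRel_apply]
      refine ⟨h⁻¹, ?_⟩
      rw [mul_inv_rev, mul_inv_cancel_left, map_inv]
    exact congrArg Quotient.out h1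
  choose η hη using hr
  have hηg : ∀ (h : H) d, η (ψ h * d) = h * η d := by
    intro h d
    apply hψ
    rw [map_mul]
    apply mul_right_cancel (b := r d)
    conv_lhs => rw [← hrg h d]
    rw [hη, mul_assoc, hη]
  have hn : ∀ (y : Y) (d : D), ∃ n, f n = Finsupp.single y (MonoidAlgebra.single (r d) (1 : k)) :=
    fun y d => hsurj _
  let n : Y → D → N := fun y d => (hsurj (Finsupp.single y (MonoidAlgebra.single d (1 : k)))).choose
  have hn : ∀ y d, f (n y d) = Finsupp.single y (MonoidAlgebra.single d (1 : k)) := fun y d =>
    (hsurj (Finsupp.single y (MonoidAlgebra.single d (1 : k)))).choose_spec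
  let B : Module.Basis D k (MonoidAlgebra k D) := MonoidAlgebra.basis D k
  let s : (Y →₀ MonoidAlgebra k D) →ₗ[k] N :=
    Finsupp.lsum k fun y => B.constr k fun d => ν (η d) (n y (r d))
  have hs : ∀ y d (c : k), s (Finsupp.single y (MonoidAlgebra.single d c)) =
      c • ν (η d) (n y (r d)) := by
    intro y d c
    have h1 : (MonoidAlgebra.single d c : MonoidAlgebra k D) = c • B d := by
      rw [MonoidAlgebra.basis_apply, MonoidAlgebra.smul_single, smul_eq_mul, mul_one]
    rw [Finsupp.lsum_single, h1, map_smul, Module.Basis.constr_basis]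
  have hrof : ∀ (g : D) y d (c : k), rof (k := k) (D := D) (Y →₀ MonoidAlgebra k D) g
      (Finsupp.single y (MonoidAlgebra.single d c)) =
        Finsupp.single y (MonoidAlgebra.single (g * d) c) := by
    intro g y d c
    rw [rof_apply, Finsupp.smul_single, smul_eq_mul, MonoidAlgebra.single_mul_single, one_mul]
  refine ⟨s, fun g φ => ?_, fun φ => ?_⟩
  · induction φ using Finsupp.induction_linear with
    | zero => simp only [map_zero]
    | add a b ha hb => simp only [map_add, ha, hb]
    | single y t =>
      induction t using MonoidAlgebra.induction_linear with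
      | zero => simp only [Finsupp.single_zero, map_zero]
      | add a b ha hb => simp only [Finsupp.single_add, map_add, ha, hb]
      | single d c =>
        have h1 : res ψ (rof (k := k) (D := D) (Y →₀ MonoidAlgebra k D)) g
            (Finsupp.single y (MonoidAlgebra.single d c)) =
              Finsupp.single y (MonoidAlgebra.single (ψ g * d) c) := hrof (ψ g) y d c
        rw [h1, hs, hs, hηg, hrg, map_mul, Module.End.mul_apply, map_smul]
  · induction φ using Finsupp.induction_linear with
    | zero => simp only [map_zero]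
    | add a b ha hb => simp only [map_add, ha, hb]
    | single y t =>
      induction t using MonoidAlgebra.induction_linear with
      | zero => simp only [Finsupp.single_zero, map_zero]
      | add a b ha hb => simp only [Finsupp.single_add, map_add, ha, hb]
      | single d c =>
        rw [hs, map_smul, hf, hn]
        have h1 : res ψ (rof (k := k) (D := D) (Y →₀ MonoidAlgebra k D)) (η d)
            (Finsupp.single y (MonoidAlgebra.single (r d) (1 : k))) =
              Finsupp.single y (MonoidAlgebra.single (ψ (η d) * r d) (1 : k)) :=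
          hrof (ψ (η d)) y (r d) 1
        rw [h1, hη, Finsupp.smul_single, MonoidAlgebra.smul_single, smul_eq_mul, mul_one]

/-- The restriction of a projective representation is projective. -/
theorem res_projective (ψ : H →* D) (hψ : Function.Injective ψ) (ρ : Representation k D V)
    [hρ : Module.Projective (MonoidAlgebra k D) ρ.asModule] :
    Module.Projective (MonoidAlgebra k H) (res ψ ρ).asModule := by
  obtain ⟨s, hs⟩ := Module.projective_def'.1 hρ
  have := res_free_projective (k := k) ψ hψ ρ.asModule
  let F := ρ.asModule →₀ MonoidAlgebra k D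
  let s' : ρ.asModule →ₗ[MonoidAlgebra k D] (rof (k := k) (D := D) F).asModule :=
    (rofEquiv (k := k) (D := D) F).symm.toLinearMap ∘ₗ s
  let p' : (rof (k := k) (D := D) F).asModule →ₗ[MonoidAlgebra k D] ρ.asModule :=
    Finsupp.linearCombination (MonoidAlgebra k D) id ∘ₗ (rofEquiv (k := k) (D := D) F).toLinearMap
  have hps : ∀ v, p' (s' v) = v := by
    intro v
    change Finsupp.linearCombination (MonoidAlgebra k D) id
      (rofEquiv (k := k) (D := D) F ((rofEquiv (k := k) (D := D) F).symm (s v))) = v
    rw [LinearEquiv.apply_symm_apply]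
    exact LinearMap.congr_fun hs v
  exact Module.Projective.of_split (M := (res ψ (rof (k := k) (D := D) F)).asModule)
    (rmap (ρ := res ψ ρ) (σ := res ψ (rof (k := k) (D := D) F)) (unr s')
      fun g v => unr_equi s' (ψ g) v)
    (rmap (ρ := res ψ (rof (k := k) (D := D) F)) (σ := res ψ ρ) (unr p')
      fun g v => unr_equi p' (ψ g) v)
    (LinearMap.ext fun v => hps v)

end Res

section HPD

/-- The projective dimension of a representation is less than `n`. -/
abbrev HPD {V : Type u} [AddCommGroup V] [Module k V] (ρ : Representation k D V) (n : ℕ) : Prop :=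
  HasProjectiveDimensionLT (ModuleCat.of (MonoidAlgebra k D) ρ.asModule) n

variable {V W Z : Type u} [AddCommGroup V] [Module k V] [AddCommGroup W] [Module k W]
  [AddCommGroup Z] [Module k Z] {ρ : Representation k D V} {σ : Representation k D W}
  {τ : Representation k D Z}

theorem hpd_one_iff : HPD ρ 1 ↔ Module.Projective (MonoidAlgebra k D) ρ.asModule := by
  rw [IsProjective.iff_projective]
  exact (projective_iff_hasProjectiveDimensionLT_one).symm

/-- The short exact sequence. -/
theorem exists_ses (i : V →ₗ[k] W) (q : W →ₗ[k] Z) (hi : ∀ g v, i (ρ g v) = σ g (i v))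
    (hq : ∀ g v, q (σ g v) = τ g (q v)) (h1 : Function.Injective i) (h2 : Function.Surjective q)
    (h3 : ∀ w, q w = 0 ↔ ∃ v, i v = w) :
    ∃ S : ShortComplex (ModuleCat.{u} (MonoidAlgebra k D)), S.ShortExact ∧
      S.X₁ = ModuleCat.of _ ρ.asModule ∧ S.X₂ = ModuleCat.of _ σ.asModule ∧
      S.X₃ = ModuleCat.of _ τ.asModule := by
  have h4 : (rmap q hq : σ.asModule →ₗ[MonoidAlgebra k D] τ.asModule).comp
      (rmap i hi : ρ.asModule →ₗ[MonoidAlgebra k D] σ.asModule) = 0 :=
    LinearMap.ext fun v => (h3 (i v)).2 ⟨v, rfl⟩
  refine ⟨ModuleCat.shortComplexOfCompEqZero (rmap i hi : ρ.asModule →ₗ[MonoidAlgebra k D] σ.asModule)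
    (rmap q hq : σ.asModule →ₗ[MonoidAlgebra k D] τ.asModule) h4,
    ModuleCat.shortComplex_shortExact _ ?_ h1 h2, rfl, rfl, rfl⟩
  intro w
  exact (h3 w)

theorem HPD.x₁ {n : ℕ} (h2' : HPD σ n) (h3' : HPD τ (n + 1)) (i : V →ₗ[k] W) (q : W →ₗ[k] Z)
    (hi : ∀ g v, i (ρ g v) = σ g (i v))
    (hq : ∀ g v, q (σ g v) = τ g (q v)) (h1 : Function.Injective i) (h2 : Function.Surjective q)
    (h3 : ∀ w, q w = 0 ↔ ∃ v, i v = w) : HPD ρ n := by
  obtain ⟨S, hS, e1, e2, e3⟩ := exists_ses i q hi hq h1 h2 h3
  have h4 := hS.hasProjectiveDimensionLT_X₁ n (by rw [e2]; exact h2') (by rw [e3]; exact h3')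
  rw [e1] at h4
  exact h4

theorem HPD.x₃ {n : ℕ} (h1' : HPD ρ n) (h2' : HPD σ (n + 1)) (i : V →ₗ[k] W) (q : W →ₗ[k] Z)
    (hi : ∀ g v, i (ρ g v) = σ g (i v))
    (hq : ∀ g v, q (σ g v) = τ g (q v)) (h1 : Function.Injective i) (h2 : Function.Surjective q)
    (h3 : ∀ w, q w = 0 ↔ ∃ v, i v = w) : HPD τ (n + 1) := by
  obtain ⟨S, hS, e1, e2, e3⟩ := exists_ses i q hi hq h1 h2 h3
  have h4 := hS.hasProjectiveDimensionLT_X₃ n (by rw [e1]; exact h1') (by rw [e2]; exact h2')
  rw [e3] at h4
  exact h4

end HPD

section PmHPD

theorem HPD.mono {V : Type u} [AddCommGroup V] [Module k V] {ρ : Representation k D V} {m n : ℕ}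
    (h : HPD ρ m) (hmn : m ≤ n) : HPD ρ n :=
  hasProjectiveDimensionLT_of_ge _ m n hmn

theorem HPD.of_projective {V : Type u} [AddCommGroup V] [Module k V] {ρ : Representation k D V}
    (h : Module.Projective (MonoidAlgebra k D) ρ.asModule) (n : ℕ) : HPD ρ (n + 1) :=
  HPD.mono (hpd_one_iff.2 h) (by omega)

/-- The free cover of a representation. -/
theorem exists_cover {V : Type u} [AddCommGroup V] [Module k V] (ρ : Representation k D V) :
    ∃ (W Z : Type u) (_ : AddCommGroup W) (_ : Module k W) (_ : AddCommGroup Z) (_ : Module k Z)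
      (κ : Representation k D W) (φ : Representation k D Z) (i : W →ₗ[k] Z) (q : Z →ₗ[k] V),
      Module.Projective (MonoidAlgebra k D) φ.asModule ∧
      (∀ g v, i (κ g v) = φ g (i v)) ∧ (∀ g v, q (φ g v) = ρ g (q v)) ∧
      Function.Injective i ∧ Function.Surjective q ∧ ∀ w, q w = 0 ↔ ∃ v, i v = w := by
  let F := ρ.asModule →₀ MonoidAlgebra k D
  let φ : Representation k D F := rof (k := k) (D := D) F
  let q : F →ₗ[k] V := unr (ρ := φ) (σ := ρ)
    (Finsupp.linearCombination (MonoidAlgebra k D) (id : ρ.asModule → ρ.asModule) ∘ₗ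
      (rofEquiv (k := k) (D := D) F).toLinearMap)
  have hq : ∀ g v, q (φ g v) = ρ g (q v) := unr_equi _
  have hk : ∀ g, LinearMap.ker q ≤ (LinearMap.ker q).comap (φ g) := by
    intro g v hv
    rw [Submodule.mem_comap, LinearMap.mem_ker, hq, LinearMap.mem_ker.1 hv, map_zero]
  refine ⟨LinearMap.ker q, F, inferInstance, inferInstance, inferInstance, inferInstance,
    φ.subrepresentation (LinearMap.ker q) hk, φ, (LinearMap.ker q).subtype, q, ?_,
    fun g v => rfl, hq, Subtype.val_injective, ?_, ?_⟩
  · exact Module.Projective.of_equiv (rofEquiv (k := k) (D := D) F).symm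
  · intro v
    refine ⟨Finsupp.single v 1, ?_⟩
    exact (Finsupp.linearCombination_single (MonoidAlgebra k D) (v := (id : ρ.asModule → ρ.asModule))
      1 (v : ρ.asModule)).trans (one_smul _ _)
  · intro w
    exact ⟨fun h => ⟨⟨w, h⟩, rfl⟩, fun ⟨v, hv⟩ => hv ▸ v.2⟩

/-- The projective dimension of a permutation representation with coefficients. -/
theorem pm_hpd (X : Type u) [MulAction D X] (n : ℕ) :
    ∀ {V : Type u} [AddCommGroup V] [Module k V] (ρ : Representation k D V),
      (∀ x : X, HPD (res (MulAction.stabilizer D x).subtype ρ) (n + 1)) → HPD (pm X ρ) (n + 1) := by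
  induction n with
  | zero =>
    intro V _ _ ρ h
    exact hpd_one_iff.2 (pm_projective X ρ fun x => hpd_one_iff.1 (h x))
  | succ n ih =>
    intro V _ _ ρ h
    obtain ⟨W, Z, _, _, _, _, κ, φ, i, q, hφ, hi, hq, h1, h2, h3⟩ := exists_cover ρ
    have hr : ∀ x : X, Module.Projective (MonoidAlgebra k (MulAction.stabilizer D x))
        (res (MulAction.stabilizer D x).subtype φ).asModule := fun x =>
      res_projective _ Subtype.val_injective φ
    have h4 : HPD (pm X κ) (n + 1) := by
      refine ih κ fun x => ?_
      exact HPD.x₁ (HPD.of_projective (hr x) n) (h x) i q (fun g v => hi g v) (fun g v => hq g v)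
        h1 h2 h3
    have h5 : HPD (pm X φ) (n + 1 + 1) := HPD.of_projective (pm_projective X φ hr) (n + 1)
    refine HPD.x₃ h4 h5 (Finsupp.mapRange.linearMap i) (Finsupp.mapRange.linearMap q) ?_ ?_ ?_ ?_ ?_
    · intro g v
      induction v using Finsupp.induction_linear with
      | zero => simp only [map_zero]
      | add a b ha hb => simp only [map_add, ha, hb]
      | single y v =>
        rw [pm_single, Finsupp.mapRange.linearMap_apply, Finsupp.mapRange.linearMap_apply,
          Finsupp.mapRange_single, Finsupp.mapRange_single, pm_single, hi]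
    · intro g v
      induction v using Finsupp.induction_linear with
      | zero => simp only [map_zero]
      | add a b ha hb => simp only [map_add, ha, hb]
      | single y v =>
        rw [pm_single, Finsupp.mapRange.linearMap_apply, Finsupp.mapRange.linearMap_apply,
          Finsupp.mapRange_single, Finsupp.mapRange_single, pm_single, hq]
    · exact Finsupp.mapRange_injective _ (map_zero i) h1
    · exact Finsupp.mapRange_surjective _ (map_zero q) h2
    · intro w
      constructor
      · intro hw
        have h6 : ∀ x, ∃ v, i v = w x := fun x => (h3 (w x)).1 (DFunLike.congr_fun hw x)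
        obtain ⟨v, hv⟩ : ∃ v : X →₀ W, ∀ x, i (v x) = w x := by
          classical
          choose v hv using h6
          refine ⟨Finsupp.onFinset w.support v fun x hx => ?_, hv⟩
          rw [Finsupp.mem_support_iff, ← hv]
          exact fun h => hx (h1 (h.trans (map_zero i).symm))
        exact ⟨v, Finsupp.ext hv⟩
      · rintro ⟨v, rfl⟩
        ext x
        exact (h3 _).2 ⟨v x, rfl⟩

end PmHPD

end Pool.Agent.Lib.MP_551055_al.T4
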