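import Mathlib
import Pool.Agent.Lib.MP_551055_al.Trim.LS.Stmts
import Pool.Agent.Lib.MP_551055_al.Trim.LS.TreeA
import Pool.Agent.Lib.MP_551055_al.Trim.LS.TreeC
import Pool.Agent.Lib.MP_551055_al.Trim.T4.Pm

/-!
# Projective dimension and actions on trees
-/

set_option autoImplicit false

namespace Pool.Agent.Lib.MP_551055_al.LS
end Pool.Agent.Lib.MP_551055_al.LS

namespace Pool.Agent.Lib.MP_551055_al.T4

open CategoryTheory

open Pool.Agent.Lib.MP_551055_al.LS

universe u

variable {k : Type u} [Field k] {D : Type u} [Group D]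

section Tree

variable {V : Type u} [MulAction D V] {T : SimpleGraph V} {O : Set (V × V)}

/-- The positive edges. -/
def edg (hT : TreeAct D V T) (hO : ∀ (γ : D), ∀ a ∈ O, γ • a ∈ O) : SubMulAction D (V × V) where
  carrier := {e | e ∈ O ∧ T.Adj e.1 e.2}
  smul_mem' := fun γ e he => ⟨hO γ e he.1, hT.adj γ _ _ he.2⟩

variable (k) in
/-- The boundary. -/
noncomputable def bdm (W : Type u) [AddCommGroup W] [Module k W] (E : Set (V × V)) :
    (E →₀ W) →ₗ[k] (V →₀ W) :=
  Finsupp.lsum k fun e => Finsupp.lsingle e.1.2 - Finsupp.lsingle e.1.1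

variable (k) in
/-- The augmentation. -/
noncomputable def augm (V : Type u) (W : Type u) [AddCommGroup W] [Module k W] :
    (V →₀ W) →ₗ[k] W :=
  Finsupp.lsum k fun _ => LinearMap.id

theorem bdm_single {W : Type u} [AddCommGroup W] [Module k W] {E : Set (V × V)} (e : E) (w : W) :
    bdm k W E (Finsupp.single e w) = Finsupp.single e.1.2 w - Finsupp.single e.1.1 w := by
  rw [bdm, Finsupp.lsum_single]
  rfl

theorem augm_single {W : Type u} [AddCommGroup W] [Module k W] (v : V) (w : W) :
    augm k V W (Finsupp.single v w) = w := by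
  rw [augm, Finsupp.lsum_single]
  rfl

theorem augm_surjective {W : Type u} [AddCommGroup W] [Module k W] (o : V) :
    Function.Surjective (augm k V W) := fun w => ⟨Finsupp.single o w, augm_single o w⟩

theorem augm_bdm {W : Type u} [AddCommGroup W] [Module k W] {E : Set (V × V)} (φ : E →₀ W) :
    augm k V W (bdm k W E φ) = 0 := by
  induction φ using Finsupp.induction_linear with
  | zero => simp only [map_zero]
  | add a b ha hb => rw [map_add, map_add, ha, hb, add_zero]
  | single e w => rw [bdm_single, map_sub, augm_single, augm_single, sub_self]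

theorem bdm_exact {W : Type u} [AddCommGroup W] [Module k W] (hT : T.IsTree)
    (hO : ∀ u v, T.Adj u v → ((u, v) ∈ O ↔ (v, u) ∉ O)) (φ : V →₀ W) :
    augm k V W φ = 0 ↔ ∃ ψ, bdm k W {e | e ∈ O ∧ T.Adj e.1 e.2} ψ = φ := by
  constructor
  · intro h
    obtain ⟨o⟩ : Nonempty V := hT.connected.nonempty
    have h1 : ∀ u v (w : W), T.Adj u v → Finsupp.single v w - Finsupp.single u w ∈
        LinearMap.range (bdm k W {e | e ∈ O ∧ T.Adj e.1 e.2}) := by
      intro u v w huv
      by_cases ho : (u, v) ∈ O
      · exact ⟨Finsupp.single ⟨(u, v), ho, huv⟩ w, bdm_single _ _⟩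
      · have ho' : (v, u) ∈ O := by
          by_contra h2
          exact ho ((hO u v huv).2 h2)
        refine ⟨-Finsupp.single ⟨(v, u), ho', huv.symm⟩ w, ?_⟩
        rw [map_neg, bdm_single, neg_sub]
    have h2 : ∀ u v (w : W), T.Reachable u v → Finsupp.single v w - Finsupp.single u w ∈
        LinearMap.range (bdm k W {e | e ∈ O ∧ T.Adj e.1 e.2}) := by
      rintro u v w ⟨p⟩
      induction p with
      | nil => rw [sub_self]; exact Submodule.zero_mem _
      | cons hadj p ih =>
        have h3 := Submodule.add_mem _ ih (h1 _ _ w hadj)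
        rwa [sub_add_sub_cancel] at h3
    have h3 : ∀ φ : V →₀ W, φ - Finsupp.single o (augm k V W φ) ∈
        LinearMap.range (bdm k W {e | e ∈ O ∧ T.Adj e.1 e.2}) := by
      intro φ
      induction φ using Finsupp.induction_linear with
      | zero =>
        rw [map_zero, Finsupp.single_zero, sub_zero]
        exact Submodule.zero_mem _
      | add a b ha hb =>
        rw [map_add, Finsupp.single_add, add_sub_add_comm]
        exact Submodule.add_mem _ ha hb
      | single v w =>
        rw [augm_single]
        exact h2 o v w (hT.connected.preconnected o v)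
    have h4 := h3 φ
    rw [h, Finsupp.single_zero, sub_zero] at h4
    exact h4
  · rintro ⟨ψ, rfl⟩
    exact augm_bdm ψ

theorem bdm_injective {W : Type u} [AddCommGroup W] [Module k W] (hT : T.IsTree)
    (hO : ∀ u v, T.Adj u v → ((u, v) ∈ O ↔ (v, u) ∉ O)) :
    Function.Injective (bdm k W {e | e ∈ O ∧ T.Adj e.1 e.2}) := by
  classical
  rw [injective_iff_map_eq_zero]
  intro ψ hψ
  ext e
  obtain ⟨⟨a, b⟩, he, hab⟩ := e
  obtain ⟨h1, h2, -, h3⟩ := stTreeA V T hT a b hab
  let s : (V →₀ W) →ₗ[k] W := Finsupp.lsum k fun v => if v ∈ side T a b then LinearMap.id else 0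
  have hs : ∀ v w, s (Finsupp.single v w) = if v ∈ side T a b then w else 0 := by
    intro v w
    rw [Finsupp.lsum_single]
    split_ifs <;> rfl
  have h4 : ∀ ψ : ({e | e ∈ O ∧ T.Adj e.1 e.2} : Set (V × V)) →₀ W,
      s (bdm k W {e | e ∈ O ∧ T.Adj e.1 e.2} ψ) = ψ ⟨(a, b), he, hab⟩ := by
    intro ψ
    induction ψ using Finsupp.induction_linear with
    | zero => simp only [map_zero, Finsupp.zero_apply]
    | add x y hx hy => rw [map_add, map_add, hx, hy, Finsupp.add_apply]
    | single e w =>
      obtain ⟨⟨c, d⟩, he', hcd⟩ := e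
      rw [bdm_single, map_sub, hs, hs]
      change (if d ∈ side T a b then w else 0) - (if c ∈ side T a b then w else 0) = _
      by_cases hc : c ∈ side T a b
      · by_cases hd : d ∈ side T a b
        · rw [if_pos hc, if_pos hd, sub_self, Finsupp.single_apply, if_neg]
          intro h
          have h5 : c = a := congrArg (fun z => z.1.1) h
          exact h2 (h5 ▸ hc)
        · exfalso
          obtain ⟨rfl, rfl⟩ := h3 c d hcd hc hd
          exact (hO _ _ hcd).1 he' he
      · by_cases hd : d ∈ side T a b
        · obtain ⟨rfl, rfl⟩ := h3 d c hcd.symm hd hc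
          rw [if_neg hc, if_pos hd, sub_zero, Finsupp.single_eq_same]
        · rw [if_neg hc, if_neg hd, sub_self, Finsupp.single_apply, if_neg]
          intro h
          have h5 : d = b := congrArg (fun z => z.1.2) h
          exact hd (h5 ▸ h1)
  rw [← h4, hψ, map_zero]
  rfl

/-- Projective dimension of a module over the group ring of a group acting on a tree. -/
theorem hpd_tree {W : Type u} [AddCommGroup W] [Module k W] (ρ : Representation k D W)
    (hT : TreeAct D V T) (n : ℕ)
    (hv : ∀ v : V, HPD (res (MulAction.stabilizer D v).subtype ρ) (n + 2))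
    (he : ∀ u v : V, T.Adj u v →
      HPD (res (MulAction.stabilizer D (u, v)).subtype ρ) (n + 1)) : HPD ρ (n + 2) := by
  obtain ⟨-, O, hO1, hO2⟩ := stTreeC D V T hT
  obtain ⟨o⟩ : Nonempty V := hT.tree.connected.nonempty
  have hE : HPD (pm (edg hT hO1) ρ) (n + 1) := by
    refine pm_hpd _ n ρ fun x => ?_
    have h1 : MulAction.stabilizer D x = MulAction.stabilizer D (x.1 : V × V) := by
      ext g
      rw [MulAction.mem_stabilizer_iff, MulAction.mem_stabilizer_iff]
      exact Subtype.ext_iff
    rw [h1]
    exact he x.1.1 x.1.2 x.2.2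
  have hV : HPD (pm V ρ) (n + 2) := pm_hpd V (n + 1) ρ hv
  let B : (edg hT hO1 →₀ W) →ₗ[k] (V →₀ W) := bdm k W {e | e ∈ O ∧ T.Adj e.1 e.2}
  have hB : ∀ (e : edg hT hO1) (w : W),
      B (Finsupp.single e w) = Finsupp.single e.1.2 w - Finsupp.single e.1.1 w := fun e w =>
    bdm_single (k := k) (E := {e | e ∈ O ∧ T.Adj e.1 e.2}) e w
  refine HPD.x₃ hE hV B (augm k V W) ?_ ?_
    (bdm_injective hT.tree hO2) (augm_surjective o) (bdm_exact hT.tree hO2)
  · intro g φ
    induction φ using Finsupp.induction_linear with
    | zero => simp only [map_zero]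
    | add a b ha hb => simp only [map_add, ha, hb]
    | single e w =>
      rw [pm_single, hB, hB, map_sub, pm_single, pm_single]
      rfl
  · intro g φ
    induction φ using Finsupp.induction_linear with
    | zero => simp only [map_zero]
    | add a b ha hb => simp only [map_add, ha, hb]
    | single v w => rw [pm_single, augm_single, augm_single]

end Tree

end Pool.Agent.Lib.MP_551055_al.T4
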