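import Mathlib
import Pool.Agent.Lib.MP_551055_al.Trim.LS.Stmts
import Pool.Agent.Lib.MP_551055_al.Trim.T4.Alg
import Pool.Agent.Lib.MP_551055_al.Trim.T4.Pm
import Pool.Agent.Lib.MP_551055_al.Trim.T4.PmTree

/-!
# Groups whose group rings over fields have small global dimension
-/

set_option autoImplicit false

namespace Pool.Agent.Lib.MP_551055_al.LS
end Pool.Agent.Lib.MP_551055_al.LS

namespace Pool.Agent.Lib.MP_551055_al.T4

open CategoryTheory

open Pool.Agent.Lib.MP_551055_al.LS

open scoped TensorProduct

universe u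

variable {k : Type u} [Field k] {D : Type u} [Group D]

variable (k D) in
/-- The global dimension of the group ring is at most `n`. -/
def GlD (n : ℕ) : Prop :=
  ∀ (W : Type u) [AddCommGroup W] [Module k W] (ρ : Representation k D W), HPD ρ (n + 1)

theorem GlD.mono {m n : ℕ} (h : GlD k D m) (hmn : m ≤ n) : GlD k D n :=
  fun W _ _ ρ => (h W ρ).mono (by omega)

/-- The trivial group. -/
theorem GlD.trivial (hD : Subsingleton D) : GlD k D 0 := by
  intro W _ _ ρ
  refine hpd_one_iff.2 (projective_of_lift fun N _ _ ν f hf hs => ?_)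
  obtain ⟨s, hs'⟩ := f.exists_rightInverse_of_surjective (LinearMap.range_eq_top.2 hs)
  refine ⟨s, fun g v => ?_, fun v => LinearMap.congr_fun hs' v⟩
  have h1 : g = 1 := Subsingleton.elim _ _
  rw [h1, map_one, map_one]
  rfl

/-- Groups acting on trees. -/
theorem GlD.tree {V : Type u} [MulAction D V] {T : SimpleGraph V} (hT : TreeAct D V T) (n : ℕ)
    (hv : ∀ v : V, GlD k (MulAction.stabilizer D v) (n + 1))
    (he : ∀ u v : V, T.Adj u v → GlD k (MulAction.stabilizer D (u, v)) n) : GlD k D (n + 1) :=
  fun _ _ _ ρ => hpd_tree ρ hT n (fun v => hv v _ _) fun u v huv => he u v huv _ _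

section Modules

variable {R : Type u} [Ring R] {A B C : Type u} [AddCommGroup A] [Module R A] [AddCommGroup B]
  [Module R B] [AddCommGroup C] [Module R C]

theorem pd_x₁ {n : ℕ} (i : A →ₗ[R] B) (q : B →ₗ[R] C) (h1 : Function.Injective i)
    (h2 : Function.Surjective q) (h3 : ∀ b, q b = 0 ↔ ∃ a, i a = b)
    (hB : HasProjectiveDimensionLT (ModuleCat.of R B) n)
    (hC : HasProjectiveDimensionLT (ModuleCat.of R C) (n + 1)) :
    HasProjectiveDimensionLT (ModuleCat.of R A) n := by
  have h4 : q.comp i = 0 := LinearMap.ext fun v => (h3 (i v)).2 ⟨v, rfl⟩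
  have hS : (ModuleCat.shortComplexOfCompEqZero i q h4).ShortExact :=
    ModuleCat.shortComplex_shortExact _ (fun b => h3 b) h1 h2
  exact hS.hasProjectiveDimensionLT_X₁ n hB hC

theorem pd_projective (h : Module.Projective R A) (n : ℕ) :
    HasProjectiveDimensionLT (ModuleCat.of R A) (n + 1) := by
  have h1 : HasProjectiveDimensionLT (ModuleCat.of R A) 1 :=
    projective_iff_hasProjectiveDimensionLT_one.1 ((IsProjective.iff_projective A).1 h)
  exact hasProjectiveDimensionLT_of_ge _ 1 (n + 1) (by omega)

theorem projective_of_pd (h : HasProjectiveDimensionLT (ModuleCat.of R A) 1) :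
    Module.Projective R A :=
  (IsProjective.iff_projective A).2 (projective_iff_hasProjectiveDimensionLT_one.2 h)

/-- If all modules have projective dimension at most two then kernels are projective. -/
theorem projective_ker (h : ∀ (M : Type u) [AddCommGroup M] [Module R M],
    HasProjectiveDimensionLT (ModuleCat.of R M) 3) [Module.Projective R A] [Module.Projective R B]
    (φ : A →ₗ[R] B) : Module.Projective R (LinearMap.ker φ) := by
  have h1 : HasProjectiveDimensionLT (ModuleCat.of R (LinearMap.range φ)) 2 :=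
    pd_x₁ (LinearMap.range φ).subtype (LinearMap.range φ).mkQ Subtype.val_injective
      (Submodule.mkQ_surjective _)
      (fun b => by
        rw [Submodule.mkQ_apply, Submodule.Quotient.mk_eq_zero]
        exact ⟨fun hb => ⟨⟨b, hb⟩, rfl⟩, fun ⟨a, ha⟩ => ha ▸ a.2⟩)
      (pd_projective inferInstance 1) (h _)
  refine projective_of_pd (pd_x₁ (LinearMap.ker φ).subtype φ.rangeRestrict Subtype.val_injective
    φ.surjective_rangeRestrict (fun b => ?_) (pd_projective inferInstance 0) h1)
  rw [Subtype.ext_iff]
  exact ⟨fun hb => ⟨⟨b, hb⟩, rfl⟩, fun ⟨a, ha⟩ => ha ▸ a.2⟩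

end Modules

/-- Modules as representations. -/
theorem GlD.pd {n : ℕ} (h : GlD k D n) (M : Type u) [AddCommGroup M] [Module (MonoidAlgebra k D) M] :
    HasProjectiveDimensionLT (ModuleCat.of (MonoidAlgebra k D) M) (n + 1) := by
  let _ : Module k M := Module.compHom M (algebraMap k (MonoidAlgebra k D))
  have hst : IsScalarTower k (MonoidAlgebra k D) M := by
    refine ⟨fun c r m => ?_⟩
    rw [Algebra.smul_def, mul_smul]
    rfl
  have h1 : HPD (rof (k := k) (D := D) M) (n + 1) := h M (rof (k := k) (D := D) M)
  exact hasProjectiveDimensionLT_of_iso (rofEquiv (k := k) (D := D) M).toModuleIso (n + 1)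

/-- Groups whose group rings over all fields have global dimension at most two. -/
theorem TWO.of_gl (h : ∀ (k : Type u) [Field k], GlD k D 2) : TWO.{u, u} D := by
  intro k _ a b φ
  exact projective_ker (fun M _ _ => (h k).pd M) φ

end Pool.Agent.Lib.MP_551055_al.T4
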