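import Mathlib
import Pool.Agent.Lib.MP_551055_al.Trim.LS.Main
import Pool.Agent.Lib.MP_551055_al.Trim.LS.PFin
import Pool.Agent.Lib.MP_551055_al.Trim.LS.PStmts
import Pool.Agent.Lib.MP_551055_al.Trim.LS.Stmts
import Pool.Agent.Lib.MP_551055_al.Trim.T4.Bridge
import Pool.Agent.Lib.MP_551055_al.Trim.T4.Curry
import Pool.Agent.Lib.MP_551055_al.Trim.T4.FinalT
import Pool.Agent.Lib.MP_551055_al.Trim.T4.Ind
import Pool.Agent.Lib.MP_551055_al.Trim.T4.Ind0
import Pool.Agent.Lib.MP_551055_al.Trim.T4.Mods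
import Pool.Agent.Lib.MP_551055_al.Trim.T4.Perf

/-!
# The final theorem for trees with edge groups of dimension two
-/

set_option autoImplicit false

namespace Pool.Agent.Lib.MP_551055_al
end Pool.Agent.Lib.MP_551055_al

namespace Pool.Agent.Lib.MP_551055_al.LS
end Pool.Agent.Lib.MP_551055_al.LS

namespace Pool.Agent.Lib.MP_551055_al.LO
end Pool.Agent.Lib.MP_551055_al.LO

namespace Pool.Agent.Lib.MP_551055_al.LD
end Pool.Agent.Lib.MP_551055_al.LD

namespace Pool.Agent.Lib.MP_551055_al.T4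

open Pool.Agent.Lib.MP_551055_al

open Pool.Agent.Lib.MP_551055_al.LS

open Pool.Agent.Lib.MP_551055_al.LO

open Pool.Agent.Lib.MP_551055_al.LD

theorem regNoeth_zn (m : ℕ) : RegNoeth (MonoidAlgebra ℤ (ZN m)) := by
  have h := lsPFin PUnit.{1} (PolyZ.triv PUnit.{1} inferInstance) m
  exact regNoeth_mulEquiv (MulEquiv.uniqueProd (M := ZN m) (N := PUnit.{1})) h

/-- The core statement. -/
def StCore {G : Type} [Group G] (D : Subgroup G) : Prop :=
  ∀ (A : Type) [CommRing A] [IsNoetherianRing A],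
    (∀ (N : Type) [AddCommGroup N] [Module A N], Module.Finite A N → Perf A N) →
    ∀ (K : K1C (MonoidAlgebra A G)) (M : Type) [AddCommGroup M] [Module (MonoidAlgebra A D) M]
      (f : M →ₛₗ[incD D A] Ind A D M), Perf (MonoidAlgebra A D) M → SNil f → NGM K f

theorem nGood_of_core {G : Type} [Group G] (D : Subgroup G) (h : StCore D) : NGood G D := by
  refine nGood_of_nilOKA D fun m K => ?_
  have h1 := (regNoeth_zn m).1
  refine nilOKA_of_ngm K fun M _ _ f hM hf => ?_
  exact h (MonoidAlgebra ℤ (ZN m)) (fun N _ _ hN => (regNoeth_zn m).2 N hN) K M f hM hf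

end Pool.Agent.Lib.MP_551055_al.T4
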