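import Mathlib
import Pool.Agent.Lib.MP_551055_al.Trim.LS.Stmts
import Pool.Agent.Lib.MP_551055_al.Trim.LS.TreeB

/-!
# Stabilisers of segments and edges
-/

set_option autoImplicit false

namespace Pool.Agent.Lib.MP_551055_al.LS
end Pool.Agent.Lib.MP_551055_al.LS

namespace Pool.Agent.Lib.MP_551055_al.T4

open Pool.Agent.Lib.MP_551055_al.LS

universe u v

/-- The stabiliser of a segment fixes the last edge. -/
theorem exists_edge_stab {D : Type u} [Group D] {V : Type v} [MulAction D V] {T : SimpleGraph V}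
    (hT : TreeAct D V T) {a b : V} (hab : a ≠ b) :
    ∃ w, T.Adj w b ∧ MulAction.stabilizer D (a, b) ≤ MulAction.stabilizer D (w, b) := by
  have h0 : 0 < T.dist a b := hT.tree.connected.pos_dist_of_ne hab
  obtain ⟨n, hn⟩ : ∃ n, T.dist a b = n + 1 := ⟨T.dist a b - 1, by omega⟩
  obtain ⟨w, hw, hw'⟩ := tree_exists_pred hT.tree hn
  refine ⟨w, hw, fun γ hγ => ?_⟩
  rw [MulAction.mem_stabilizer_iff] at hγ ⊢
  have ha : γ • a = a := congrArg Prod.fst hγ
  have hb : γ • b = b := congrArg Prod.snd hγ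
  have h1 : T.dist w b = 1 := T.dist_eq_one_iff_adj.2 hw
  have h2 : T.dist (γ • w) b = 1 := by
    have := dist_smul_smul hT γ w b
    rw [hb] at this
    rw [this, h1]
  have h3 : T.dist a (γ • w) = n := by
    have := dist_smul_smul hT γ a w
    rw [ha] at this
    rw [this, hw']
  have h4 : γ • w = w := tree_eq_of_dist hT.tree (x := a) (z := b) (by rw [hn, h3, h2])
    (by rw [hn, hw', h1]) (by rw [h3, hw'])
  exact Prod.ext h4 hb

end Pool.Agent.Lib.MP_551055_al.T4
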