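import Mathlib
import Pool.Agent.Lib.MP_551055_al.Trim.T4.GlDim
import Pool.Agent.Lib.MP_551055_al.Trim.T4.Pm

/-!
# Groups of finite cohomological dimension

If the trivial module has projective dimension at most `n` then all modules over the group ring
have projective dimension at most `n`.
-/

set_option autoImplicit false

namespace Pool.Agent.Lib.MP_551055_al.T4

open CategoryTheory

open scoped TensorProduct

universe u

variable {k : Type u} [Field k] {D : Type u} [Group D]

section Basic

variable {V W : Type u} [AddCommGroup V] [Module k V] [AddCommGroup W] [Module k W]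

/-- Equivalent representations. -/
theorem HPD.congr {n : ℕ} {σ : Representation k D V} {τ : Representation k D W} (e : V ≃ₗ[k] W)
    (he : ∀ g v, e (σ g v) = τ g (e v)) (h : HPD σ n) : HPD τ n := by
  let e' : σ.asModule ≃ₗ[MonoidAlgebra k D] τ.asModule :=
    LinearEquiv.ofBijective (rmap (ρ := σ) (σ := τ) e.toLinearMap he) e.bijective
  exact hasProjectiveDimensionLT_of_iso e'.toModuleIso n

/-- Retracts. -/
theorem projective_retract {σ : Representation k D V} {τ : Representation k D W}
    (h : Module.Projective (MonoidAlgebra k D) τ.asModule) (i : V →ₗ[k] W) (p : W →ₗ[k] V)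
    (hi : ∀ g v, i (σ g v) = τ g (i v)) (hp : ∀ g v, p (τ g v) = σ g (p v))
    (hpi : ∀ v, p (i v) = v) : Module.Projective (MonoidAlgebra k D) σ.asModule :=
  Module.Projective.of_split (M := τ.asModule) (rmap i hi) (rmap p hp) (LinearMap.ext hpi)

end Basic

section Tensor

/-- The tensor product over the field. -/
def Tp (k : Type u) [Field k] (Z V : Type u) [AddCommGroup Z] [Module k Z] [AddCommGroup V]
    [Module k V] : Type u := Z ⊗[k] V

variable {V W Z : Type u} [AddCommGroup V] [Module k V] [AddCommGroup W] [Module k W]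
  [AddCommGroup Z] [Module k Z]

noncomputable instance : AddCommGroup (Tp k Z V) := inferInstanceAs (AddCommGroup (Z ⊗[k] V))

noncomputable instance : Module k (Tp k Z V) := inferInstanceAs (Module k (Z ⊗[k] V))

/-- The identity. -/
noncomputable def tpE (k : Type u) [Field k] (Z V : Type u) [AddCommGroup Z] [Module k Z]
    [AddCommGroup V] [Module k V] : Z ⊗[k] V ≃ₗ[k] Tp k Z V := LinearEquiv.refl k _

/-- Elementary tensors. -/
noncomputable def tmk (k : Type u) [Field k] {Z V : Type u} [AddCommGroup Z] [Module k Z]
    [AddCommGroup V] [Module k V] (z : Z) (v : V) : Tp k Z V := tpE k Z V (z ⊗ₜ[k] v)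

theorem tmk_add (z z' : Z) (v : V) : tmk k (z + z') v = tmk k z v + tmk k z' v :=
  TensorProduct.add_tmul z z' v

theorem tmk_zero (v : V) : tmk k (0 : Z) v = 0 := TensorProduct.zero_tmul Z v

theorem tmk_smul (c : k) (z : Z) (v : V) : tmk k (c • z) v = c • tmk k z v :=
  (TensorProduct.smul_tmul' c z v).symm

/-- Induction. -/
theorem tp_induction {p : Tp k Z V → Prop} (x : Tp k Z V) (h0 : p 0)
    (ha : ∀ x y, p x → p y → p (x + y)) (ht : ∀ z v, p (tmk k z v)) : p x :=
  TensorProduct.induction_on (motive := p) x h0 ht ha

/-- The map defined by a bilinear map. -/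
noncomputable def tlift (f : Z →ₗ[k] V →ₗ[k] W) : Tp k Z V →ₗ[k] W :=
  TensorProduct.lift f ∘ₗ (tpE k Z V).symm.toLinearMap

theorem tlift_tmk (f : Z →ₗ[k] V →ₗ[k] W) (z : Z) (v : V) : tlift f (tmk k z v) = f z v :=
  TensorProduct.lift.tmul z v

/-- The diagonal action. -/
noncomputable def tp (τ : Representation k D Z) (ρ : Representation k D V) :
    Representation k D (Tp k Z V) where
  toFun g := (tpE k Z V).toLinearMap ∘ₗ TensorProduct.map (τ g) (ρ g) ∘ₗ
    (tpE k Z V).symm.toLinearMap
  map_one' := by
    apply LinearMap.ext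
    intro x
    induction x using tp_induction with
    | h0 => simp only [map_zero]
    | ha x y hx hy => rw [map_add, map_add, hx, hy]
    | ht z v =>
      change tmk k (τ 1 z) (ρ 1 v) = tmk k z v
      rw [map_one, map_one]
      rfl
  map_mul' g h := by
    apply LinearMap.ext
    intro x
    induction x using tp_induction with
    | h0 => simp only [map_zero]
    | ha x y hx hy => rw [map_add, map_add, hx, hy]
    | ht z v =>
      change tmk k (τ (g * h) z) (ρ (g * h) v) = tmk k (τ g (τ h z)) (ρ g (ρ h v))
      rw [map_mul, map_mul]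
      rfl

theorem tp_tmk (τ : Representation k D Z) (ρ : Representation k D V) (g : D) (z : Z) (v : V) :
    tp τ ρ g (tmk k z v) = tmk k (τ g z) (ρ g v) := rfl

/-- Linear maps defined on tensor products are equivariant if they are on tensors. -/
theorem equi_of_tmk {τ : Representation k D Z} {ρ : Representation k D V}
    {σ : Representation k D W} (f : Tp k Z V →ₗ[k] W)
    (h : ∀ g z v, f (tmk k (τ g z) (ρ g v)) = σ g (f (tmk k z v))) (g : D) (x : Tp k Z V) :
    f (tp τ ρ g x) = σ g (f x) := by
  induction x using tp_induction with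
  | h0 => simp only [map_zero]
  | ha x y hx hy => simp only [map_add, hx, hy]
  | ht v w => rw [tp_tmk, h]

/-- The map induced on the first factor. -/
noncomputable def tmap (V : Type u) [AddCommGroup V] [Module k V] (f : Z →ₗ[k] W) :
    Tp k Z V →ₗ[k] Tp k W V :=
  (tpE k W V).toLinearMap ∘ₗ f.rTensor V ∘ₗ (tpE k Z V).symm.toLinearMap

theorem tmap_tmk (f : Z →ₗ[k] W) (z : Z) (v : V) : tmap V f (tmk k z v) = tmk k (f z) v := rfl

/-- The set of pairs `(y, d)` with the action on `d`. -/
structure YD (Y D : Type u) : Type u where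
  y : Y
  d : D

instance (Y : Type u) : MulAction D (YD Y D) where
  smul := fun g x => ⟨x.y, g * x.d⟩
  one_smul := fun x => congrArg (YD.mk x.y) (one_mul x.d)
  mul_smul := fun g h x => congrArg (YD.mk x.y) (mul_assoc g h x.d)

theorem yd_smul {Y : Type u} (g : D) (y : Y) (d : D) :
    (g • (YD.mk y d : YD Y D) : YD Y D) = YD.mk y (g * d) := rfl

theorem tp_free_projective (Y : Type u) (ρ : Representation k D V) :
    Module.Projective (MonoidAlgebra k D)
      (tp (rof (k := k) (D := D) (Y →₀ MonoidAlgebra k D)) ρ).asModule := by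
  classical
  have h1 : Module.Projective (MonoidAlgebra k D) (pm (YD Y D) ρ).asModule := by
    refine pm_projective _ ρ fun x => ?_
    have h2 : Subsingleton (MulAction.stabilizer D x) := by
      refine ⟨fun a b => Subtype.ext ?_⟩
      have h3 : ∀ c : MulAction.stabilizer D x, (c : D) = 1 := by
        intro c
        have h4 : (c : D) • x = x := c.2
        have h5 : (c : D) * x.d = x.d := congrArg YD.d h4
        exact mul_eq_right.1 h5
      rw [h3 a, h3 b]
    exact hpd_one_iff.1 (GlD.trivial (k := k) h2 V _)
  let B : Module.Basis D k (MonoidAlgebra k D) := MonoidAlgebra.basis D k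
  have hB : ∀ d, B d = MonoidAlgebra.single d (1 : k) := fun d => MonoidAlgebra.basis_apply k d
  let a : (YD Y D →₀ V) →ₗ[k] Tp k (Y →₀ MonoidAlgebra k D) V :=
    Finsupp.lsum k fun x => (tpE k _ V).toLinearMap ∘ₗ
      TensorProduct.mk k (Y →₀ MonoidAlgebra k D) V
        (Finsupp.single x.y (MonoidAlgebra.single x.d (1 : k)))
  have ha : ∀ (y : Y) (d : D) (v : V), a (Finsupp.single (YD.mk y d : YD Y D) v) =
      tmk k (Finsupp.single y (MonoidAlgebra.single d (1 : k))) v := by
    intro y d v
    rw [Finsupp.lsum_single]
    rfl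
  let b : Tp k (Y →₀ MonoidAlgebra k D) V →ₗ[k] (YD Y D →₀ V) :=
    tlift (Finsupp.lsum k fun y => B.constr k fun d =>
      (Finsupp.lsingle (YD.mk y d : YD Y D) : V →ₗ[k] (YD Y D →₀ V)))
  have hb : ∀ (y : Y) (d : D) (c : k) (v : V),
      b (tmk k (Finsupp.single y (MonoidAlgebra.single d c)) v) =
        c • Finsupp.single (YD.mk y d : YD Y D) v := by
    intro y d c v
    have h2 : (MonoidAlgebra.single d c : MonoidAlgebra k D) = c • B d := by
      rw [hB, MonoidAlgebra.smul_single, smul_eq_mul, mul_one]
    rw [tlift_tmk, Finsupp.lsum_single, h2, map_smul, Module.Basis.constr_basis]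
    rfl
  have hrof : ∀ (g : D) y d (c : k), rof (k := k) (D := D) (Y →₀ MonoidAlgebra k D) g
      (Finsupp.single y (MonoidAlgebra.single d c)) =
        Finsupp.single y (MonoidAlgebra.single (g * d) c) := by
    intro g y d c
    rw [rof_apply, Finsupp.smul_single, smul_eq_mul, MonoidAlgebra.single_mul_single, one_mul]
  have hae : ∀ g x, a (pm (YD Y D) ρ g x) =
      tp (rof (k := k) (D := D) (Y →₀ MonoidAlgebra k D)) ρ g (a x) := by
    intro g x
    induction x using Finsupp.induction_linear with
    | zero => simp only [map_zero]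
    | add x y hx hy => simp only [map_add, hx, hy]
    | single x v =>
      obtain ⟨y, d⟩ := x
      rw [pm_single, yd_smul, ha, ha, tp_tmk, hrof]
  have hbe : ∀ g x, b (tp (rof (k := k) (D := D) (Y →₀ MonoidAlgebra k D)) ρ g x) =
      pm (YD Y D) ρ g (b x) := by
    refine equi_of_tmk b fun g t v => ?_
    induction t using Finsupp.induction_linear with
    | zero => simp only [map_zero, tmk_zero]
    | add x y hx hy => simp only [map_add, tmk_add, hx, hy]
    | single y t =>
      induction t using MonoidAlgebra.induction_linear with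
      | zero => simp only [Finsupp.single_zero, map_zero, tmk_zero]
      | add x y hx hy => simp only [Finsupp.single_add, map_add, tmk_add, hx, hy]
      | single d c => rw [hrof, hb, hb, map_smul, pm_single, yd_smul]
  have hab : ∀ x, a (b x) = x := by
    intro x
    induction x using tp_induction with
    | h0 => simp only [map_zero]
    | ha x y hx hy => simp only [map_add, hx, hy]
    | ht t v =>
      induction t using Finsupp.induction_linear with
      | zero => simp only [map_zero, tmk_zero]
      | add x y hx hy => simp only [map_add, tmk_add, hx, hy]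
      | single y t =>
        induction t using MonoidAlgebra.induction_linear with
        | zero => simp only [Finsupp.single_zero, map_zero, tmk_zero]
        | add x y hx hy => simp only [Finsupp.single_add, map_add, tmk_add, hx, hy]
        | single d c =>
          rw [hb, map_smul, ha, ← tmk_smul, Finsupp.smul_single,
            MonoidAlgebra.smul_single, smul_eq_mul, mul_one]
  exact projective_retract h1 b a hbe hae hab

theorem tp_projective (φ : Representation k D Z) (ρ : Representation k D V)
    [hφ : Module.Projective (MonoidAlgebra k D) φ.asModule] :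
    Module.Projective (MonoidAlgebra k D) (tp φ ρ).asModule := by
  obtain ⟨s, hs⟩ := Module.projective_def'.1 hφ
  have h0 := tp_free_projective (k := k) (D := D) φ.asModule ρ
  let F := φ.asModule →₀ MonoidAlgebra k D
  let s' : φ.asModule →ₗ[MonoidAlgebra k D] (rof (k := k) (D := D) F).asModule :=
    (rofEquiv (k := k) (D := D) F).symm.toLinearMap ∘ₗ s
  let p' : (rof (k := k) (D := D) F).asModule →ₗ[MonoidAlgebra k D] φ.asModule :=
    Finsupp.linearCombination (MonoidAlgebra k D) id ∘ₗ (rofEquiv (k := k) (D := D) F).toLinearMap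
  have hps : ∀ v, p' (s' v) = v := by
    intro v
    change Finsupp.linearCombination (MonoidAlgebra k D) id
      (rofEquiv (k := k) (D := D) F ((rofEquiv (k := k) (D := D) F).symm (s v))) = v
    rw [LinearEquiv.apply_symm_apply]
    exact LinearMap.congr_fun hs v
  refine projective_retract h0 (tmap V (unr s')) (tmap V (unr p'))
    (equi_of_tmk _ fun g v w => ?_) (equi_of_tmk _ fun g v w => ?_) fun x => ?_
  · rw [tmap_tmk, tmap_tmk, unr_equi, tp_tmk]
  · rw [tmap_tmk, tmap_tmk, unr_equi, tp_tmk]
  · induction x using tp_induction with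
    | h0 => simp only [map_zero]
    | ha x y hx hy => simp only [map_add, hx, hy]
    | ht v w =>
      rw [tmap_tmk, tmap_tmk]
      exact congrArg (fun z => tmk k z w) (hps v)

/-- Tensor products with modules of finite projective dimension. -/
theorem tp_hpd (ρ : Representation k D V) (n : ℕ) :
    ∀ {Z : Type u} [AddCommGroup Z] [Module k Z] (τ : Representation k D Z), HPD τ (n + 1) →
      HPD (tp τ ρ) (n + 1) := by
  induction n with
  | zero =>
    intro Z _ _ τ h
    have := hpd_one_iff.1 h
    exact hpd_one_iff.2 (tp_projective τ ρ)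
  | succ n ih =>
    intro Z _ _ τ h
    obtain ⟨W, F, _, _, _, _, κ, φ, i, q, hφ, hi, hq, h1, h2, h3⟩ := exists_cover τ
    have h4 : HPD κ (n + 1) := HPD.x₁ (HPD.of_projective hφ n) h i q hi hq h1 h2 h3
    refine HPD.x₃ (ih κ h4) (HPD.of_projective (tp_projective φ ρ) (n + 1)) (tmap V i)
      (tmap V q) (equi_of_tmk _ fun g v w => ?_) (equi_of_tmk _ fun g v w => ?_)
      (Module.Flat.rTensor_preserves_injective_linearMap i h1)
      (LinearMap.rTensor_surjective V h2) ?_
    · rw [tmap_tmk, tmap_tmk, hi, tp_tmk]
    · rw [tmap_tmk, tmap_tmk, hq, tp_tmk]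
    · exact rTensor_exact V (fun w => h3 w) h2

/-- The trivial module has projective dimension at most `n`. -/
theorem GlD.of_cd {n : ℕ} (h : HPD (Representation.trivial k D k) (n + 1)) : GlD k D n := by
  intro W _ _ ρ
  refine HPD.congr ((tpE k k W).symm.trans (TensorProduct.lid k W))
    (equi_of_tmk ((tpE k k W).symm.trans (TensorProduct.lid k W)).toLinearMap
      fun g c w => ?_) (tp_hpd ρ n _ h)
  change (TensorProduct.lid k W) (c ⊗ₜ[k] ρ g w) = ρ g ((TensorProduct.lid k W) (c ⊗ₜ[k] w))
  rw [TensorProduct.lid_tmul, TensorProduct.lid_tmul, map_smul]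

end Tensor

end Pool.Agent.Lib.MP_551055_al.T4
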