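import Mathlib
import Pool.Agent.Lib.MP_551055_al.Trim.Descent
import Pool.Agent.Lib.MP_551055_al.Trim.LS.Pos
import Pool.Agent.Lib.MP_551055_al.Trim.LS.Stmts
import Pool.Agent.Lib.MP_551055_al.Trim.T4.Constr
import Pool.Agent.Lib.MP_551055_al.Trim.T4.Csub
import Pool.Agent.Lib.MP_551055_al.Trim.T4.Ind0
import Pool.Agent.Lib.MP_551055_al.Trim.T4.Mods

/-!
# Nil modules: triangular modules and covers
-/

set_option autoImplicit false

namespace Pool.Agent.Lib.MP_551055_al
end Pool.Agent.Lib.MP_551055_al

namespace Pool.Agent.Lib.MP_551055_al.LS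
end Pool.Agent.Lib.MP_551055_al.LS

namespace Pool.Agent.Lib.MP_551055_al.LD
end Pool.Agent.Lib.MP_551055_al.LD

namespace Pool.Agent.Lib.MP_551055_al.T4

open Pool.Agent.Lib.MP_551055_al

open Pool.Agent.Lib.MP_551055_al.LS

open Pool.Agent.Lib.MP_551055_al.LD

universe u

section

variable {A : Type u} [CommRing A] {G : Type u} [Group G] {D : Subgroup G}
  {ι : Type} {ρ : ι → ℕ} {F : ι → Ind A D (ι → MonoidAlgebra A D)}
  {J : ι → Ideal A}

/-- Induction for elements with coefficients in an ideal. -/
theorem coeff_induction {Γ : Type u} [Group Γ] {I : Ideal A} {P : MonoidAlgebra A Γ → Prop}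
    (h0 : P 0) (ha : ∀ r s, P r → P s → P (r + s)) (hs : ∀ g, ∀ a ∈ I, P (MonoidAlgebra.single g a))
    (r : MonoidAlgebra A Γ) (hr : ∀ g, r.coeff g ∈ I) : P r := by
  classical
  rw [← MonoidAlgebra.sum_coeff_single r, Finsupp.sum]
  exact Finset.sum_induction _ P ha h0 fun g _ => hs g _ (hr g)

/-- Triangular data. -/
def Trian (ρ : ι → ℕ) (F : ι → Ind A D (ι → MonoidAlgebra A D)) : Prop :=
  ∀ i x k, F i x k ≠ 0 → ρ i < ρ k

/-- Monotone families of ideals. -/
def MonoI (ρ : ι → ℕ) (J : ι → Ideal A) : Prop := ∀ i k, ρ i < ρ k → J i ≤ J k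

theorem smul_mem_csub {I : Ideal A} {s : MonoidAlgebra A G} (hs : ∀ g, s.coeff g ∈ I)
    {φ : Ind A D (ι → MonoidAlgebra A D)} (hφ : ∀ x k, φ x k ≠ 0 → I ≤ J k) (x : G ⧸ D) :
    (s • φ) x ∈ csub D J := by
  revert x
  refine coeff_induction (P := fun s => ∀ x, (s • φ) x ∈ csub D J) ?_ ?_ ?_ s hs
  · intro x
    rw [zero_smul, Ind.zero_apply]
    exact zero_mem _
  · intro r s hr hs x
    rw [add_smul, Ind.add_apply]
    exact add_mem (hr x) (hs x)
  · intro g a ha x k d
    rw [Ind.single_smul_apply', Pi.smul_apply, smul_eq_mul]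
    by_cases h : φ (g⁻¹ • x) k = 0
    · rw [h, mul_zero]
      exact (J k).zero_mem
    · rw [MonoidAlgebra.coeff_single_mul_apply]
      exact (J k).mul_mem_right _ (hφ _ _ h ha)

variable [Fintype ι]

theorem semi_stable (hF : Trian ρ F) (hJ : MonoI ρ J) :
    ∀ v ∈ csub (D : Type u) J, ∀ x, semi F v x ∈ csub (D : Type u) J := by
  intro v hv x
  rw [semi_apply]
  have h : ∑ i, incD D A (v i) • F i ∈ Ind.sub (csub (D : Type u) J) := by
    refine Submodule.sum_mem _ fun i _ => ?_
    refine fun x => smul_mem_csub (I := J i) (fun g => ?_) (fun x k h => hJ i k (hF i x k h)) x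
    by_cases hg : g ∈ D
    · have h1 := inc_coeff_apply D.subtype Subtype.val_injective (v i) ⟨g, hg⟩
      change (inc A D.subtype (v i)).coeff g = (v i).coeff ⟨g, hg⟩ at h1
      change (inc A D.subtype (v i)).coeff g ∈ J i
      rw [h1]
      exact hv i _
    · have h1 : (inc A D.subtype (v i)).coeff g = 0 := by
        apply inc_coeff_of_notMem
        rintro ⟨d, hd⟩
        exact hg (hd ▸ d.2)
      change (inc A D.subtype (v i)).coeff g ∈ J i
      rw [h1]
      exact (J i).zero_mem
  exact h x

/-- The vectors supported in large degrees. -/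
def lev (A : Type u) [CommRing A] {G : Type u} [Group G] (D : Subgroup G) {ι : Type}
    (ρ : ι → ℕ) (j : ℕ) :
    Submodule (MonoidAlgebra A D) (ι → MonoidAlgebra A D) where
  carrier := {v | ∀ i, ρ i < j → v i = 0}
  add_mem' hv hw i hi := by rw [Pi.add_apply, hv i hi, hw i hi, add_zero]
  zero_mem' _ _ := rfl
  smul_mem' r v hv i hi := by rw [Pi.smul_apply, hv i hi, smul_zero]

theorem gen_semi_le (hF : Trian ρ F) (j : ℕ) : gen (semi F) j ≤ lev A D ρ j := by
  apply gen_le
  · exact eq_top_iff.2 fun v _ i hi => absurd hi (Nat.not_lt_zero _)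
  · intro j v hv
    have h : semi F v ∈ Ind.sub (lev A D ρ (j + 1)) := by
      rw [semi_apply]
      refine Submodule.sum_mem _ fun i _ => ?_
      by_cases h : v i = 0
      · rw [h, map_zero, zero_smul]
        exact zero_mem _
      · refine Submodule.smul_mem _ _ fun x k hk => ?_
        by_contra hne
        have h1 := hF i x k hne
        have h2 : ¬ ρ i < j := fun h2 => h (hv i h2)
        omega
    exact h

theorem semi_snil (hF : Trian ρ F) : SNil (semi F) := by
  obtain ⟨N, hN⟩ : ∃ N, ∀ i, ρ i < N := by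
    refine ⟨Finset.univ.sup ρ + 1, fun i => Nat.lt_succ_of_le (Finset.le_sup (Finset.mem_univ i))⟩
  refine ⟨N, le_bot_iff.1 ((gen_semi_le hF N).trans ?_)⟩
  intro v hv
  rw [Submodule.mem_bot]
  funext i
  exact hv i (hN i)

/-- The triangular module. -/
abbrev EJ (A : Type u) [CommRing A] {G : Type u} [Group G] (D : Subgroup G) {ι : Type}
    (J : ι → Ideal A) : Type u :=
  (ι → MonoidAlgebra A D) ⧸ csub (D : Type u) J

/-- The structure on a triangular module. -/
noncomputable def fE (hF : Trian ρ F) (hJ : MonoI ρ J) : EJ A D J →ₛₗ[incD D A] Ind A D (EJ A D J) :=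
  quotM (semi F) (csub D J) (semi_stable hF hJ)

theorem fE_isHom (hF : Trian ρ F) (hJ : MonoI ρ J) :
    IsHom (semi F) (fE hF hJ) (csub (D : Type u) J).mkQ := quotM_isHom _ _ _

theorem fE_snil (hF : Trian ρ F) (hJ : MonoI ρ J) : SNil (fE hF hJ) := (semi_snil hF).quotM _ _

omit [Fintype ι] in
theorem EJ_killed {I : Ideal A} (h : ∀ i, I ≤ J i) : Killed (D := D) I (EJ A D J) := by
  intro a ha m
  obtain ⟨v, rfl⟩ := (csub (D : Type u) J).mkQ_surjective m
  rw [← map_smul]
  refine (Submodule.Quotient.mk_eq_zero _).2 fun i d => ?_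
  rw [Pi.smul_apply, smul_eq_mul, algebraMap_eq_single, MonoidAlgebra.coeff_single_mul_apply]
  exact (J i).mul_mem_right _ (h i ha)

/-- The order of the module with the ideals `q ^ (s - ρ i) + I`. -/
theorem fE_ord {q I : Ideal A} (hq : q ≠ ⊤) {s : ℕ} (hF : Trian ρ F)
    (hJ : MonoI ρ (fun i => q ^ (s - ρ i) ⊔ I)) : Ord q s (fE hF hJ) := by
  refine ⟨1, fun h => hq ((Ideal.eq_top_iff_one _).2 h), fun j hj a ha m hm => ?_⟩
  obtain ⟨v, hv, rfl⟩ := (fE_isHom hF hJ).gen_le_map (Submodule.mkQ_surjective _) j hm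
  rw [one_mul, ← map_smul]
  refine (Submodule.Quotient.mk_eq_zero _).2 fun i d => ?_
  rw [Pi.smul_apply, smul_eq_mul, algebraMap_eq_single, MonoidAlgebra.coeff_single_mul_apply]
  by_cases hi : ρ i < j
  · rw [gen_semi_le hF j hv i hi]
    simp
  · exact Ideal.mul_mem_right _ _
      (Ideal.mem_sup_left (Ideal.pow_le_pow_right (by omega) ha))

omit [Fintype ι] in
theorem monoI_pow (q I : Ideal A) (s : ℕ) (ρ : ι → ℕ) :
    MonoI ρ (fun i => q ^ (s - ρ i) ⊔ I) := fun i k h =>
  sup_le_sup_right (Ideal.pow_le_pow_right (by omega)) _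

omit [Fintype ι] in
theorem monoI_const (I : Ideal A) (ρ : ι → ℕ) : MonoI ρ (fun _ => I) := fun _ _ _ => le_rfl

end

section Cover

variable {A : Type u} [CommRing A] {G : Type u} [Group G] {D : Subgroup G}
  {M : Type u} [AddCommGroup M] [Module (MonoidAlgebra A D) M] {f : M →ₛₗ[incD D A] Ind A D M}

/-- A strongly nilpotent module has a triangular cover. -/
theorem exists_tri_cover [Module.Finite (MonoidAlgebra A D) M] (hf : SNil f) :
    ∃ (ι : Type) (_ : Fintype ι) (ρ : ι → ℕ) (F : ι → Ind A D (ι → MonoidAlgebra A D))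
      (g : ι → M), Trian ρ F ∧ (∀ i, g i ∈ gen f (ρ i)) ∧
        Function.Surjective (lin (A := A) (D := D) g) ∧ IsHom (semi F) f (lin g) := by
  classical
  obtain ⟨N, hN⟩ := hf
  -- generators of the iterated images
  have h1 : ∀ j : Fin (N + 1), ∃ (n : ℕ) (g : Fin n → M), Submodule.span _ (Set.range g) = gen f j := by
    intro j
    obtain ⟨n, g, hg⟩ := Submodule.fg_iff_exists_fin_generating_family.1 (gen_fg (f := f) j)
    exact ⟨n, g, hg⟩
  choose n g hg using h1
  have hgm : ∀ (j : Fin (N + 1)) (a : Fin (n j)), g j a ∈ gen f (j : ℕ) := fun j a => by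
    rw [← hg j]
    exact Submodule.subset_span ⟨a, rfl⟩
  -- the index type
  let ι := Σ j : Fin (N + 1), Fin (n j)
  let gg : ι → M := fun i => g i.1 i.2
  -- lifting of the components
  have h2 : ∀ (j : Fin (N + 1)) (y : M), y ∈ gen f (j : ℕ) →
      ∃ v : ι → MonoidAlgebra A D, (∀ k, v k ≠ 0 → k.1 = j) ∧ lin gg v = y := by
    intro j y hy
    rw [← hg j] at hy
    obtain ⟨c, rfl⟩ := (Submodule.mem_span_range_iff_exists_fun _).1 hy
    refine ⟨fun k => if h : k.1 = j then c (h ▸ k.2) else 0, fun k hk => ?_, ?_⟩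
    · by_contra hne
      exact hk (dif_neg hne)
    · rw [lin_apply, Fintype.sum_sigma, Finset.sum_eq_single j]
      · exact Finset.sum_congr rfl fun a _ => by rw [dif_pos rfl]
      · intro j' _ hj'
        refine Finset.sum_eq_zero fun a _ => ?_
        rw [dif_neg hj', zero_smul]
      · intro h
        exact absurd (Finset.mem_univ j) h
  have h3 : ∀ i : ι, ∃ F : Ind A D (ι → MonoidAlgebra A D),
      (∀ x k, F x k ≠ 0 → (i.1 : ℕ) < k.1) ∧ ∀ x, f (gg i) x = lin gg (F x) := by
    intro i
    by_cases hi : (i.1 : ℕ) + 1 < N + 1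
    · -- lift the value
      let j : Fin (N + 1) := ⟨i.1 + 1, hi⟩
      have hval : ∀ x, ∃ v : ι → MonoidAlgebra A D, (∀ k, v k ≠ 0 → k.1 = j) ∧
          lin gg v = f (gg i) x := fun x => h2 j _ (comp_mem_gen (hgm i.1 i.2) x)
      choose v hv hv' using hval
      let S := (Ind.finite_support (f (gg i))).toFinset
      refine ⟨∑ x ∈ S, Ind.sg A x (v x), ?_, ?_⟩
      · intro x k hk
        have h4 : (∑ x ∈ S, Ind.sg A x (v x)) x k ≠ 0 := hk
        have h5 : ∀ (T : Finset (G ⧸ D)), (∑ x ∈ T, Ind.sg A x (v x)) x k ≠ 0 → k.1 = j := by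
          intro T
          induction T using Finset.induction_on with
          | empty =>
            intro h
            exact absurd rfl h
          | insert a T ha ih =>
            intro h
            rw [Finset.sum_insert ha, Ind.add_apply, Pi.add_apply] at h
            by_cases h6 : (∑ x ∈ T, Ind.sg A x (v x)) x k = 0
            · rw [h6, add_zero] at h
              by_cases hx : x = a
              · rw [hx, Ind.sg_self] at h
                exact hv a k h
              · rw [Ind.sg_ne hx] at h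
                exact absurd rfl h
            · exact ih h6
        rw [h5 S h4]
        exact Nat.lt_succ_self _
      · intro x
        have h5 : ∀ (T : Finset (G ⧸ D)), lin gg ((∑ x ∈ T, Ind.sg A x (v x)) x) =
            if x ∈ T then f (gg i) x else 0 := by
          intro T
          induction T using Finset.induction_on with
          | empty =>
            rw [if_neg (Finset.notMem_empty x)]
            exact map_zero _
          | insert a T ha ih =>
            rw [Finset.sum_insert ha, Ind.add_apply, map_add, ih]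
            by_cases hx : x = a
            · rw [hx, Ind.sg_self, hv', if_neg ha, if_pos (Finset.mem_insert_self a T), add_zero]
            · rw [Ind.sg_ne hx, map_zero, zero_add]
              by_cases hT : x ∈ T
              · rw [if_pos hT, if_pos (Finset.mem_insert_of_mem hT)]
              · rw [if_neg hT, if_neg]
                rw [Finset.mem_insert]
                rintro (h | h)
                · exact hx h
                · exact hT h
        rw [h5 S]
        split_ifs with hx
        · rfl
        · by_contra hne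
          exact hx ((Set.Finite.mem_toFinset _).2 hne)
    · refine ⟨0, fun x k hk => absurd rfl hk, fun x => ?_⟩
      have h4 : gg i = 0 := by
        have h5 := hgm i.1 i.2
        have h6 : (i.1 : ℕ) = N := by
          have := i.1.2
          omega
        rw [h6, hN] at h5
        exact (Submodule.mem_bot _).1 h5
      rw [h4, map_zero, Ind.zero_apply, Ind.zero_apply, map_zero]
  choose F hF hF' using h3
  refine ⟨ι, inferInstance, fun i => i.1, F, gg, fun i x k h => hF i x k h, fun i => hgm i.1 i.2, ?_,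
    lin_isHom F gg hF'⟩
  intro y
  obtain ⟨v, _, hv⟩ := h2 0 y Submodule.mem_top
  exact ⟨v, hv⟩

end Cover

end Pool.Agent.Lib.MP_551055_al.T4
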