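import Mathlib
import Pool.Agent.Lib.MP_551055_al.Trim.Descent
import Pool.Agent.Lib.MP_551055_al.Trim.LD.NG
import Pool.Agent.Lib.MP_551055_al.Trim.LS.Pos
import Pool.Agent.Lib.MP_551055_al.Trim.LS.Stmts
import Pool.Agent.Lib.MP_551055_al.Trim.T4.Alg
import Pool.Agent.Lib.MP_551055_al.Trim.T4.Constr
import Pool.Agent.Lib.MP_551055_al.Trim.T4.Csub
import Pool.Agent.Lib.MP_551055_al.Trim.T4.Gen
import Pool.Agent.Lib.MP_551055_al.Trim.T4.Ind
import Pool.Agent.Lib.MP_551055_al.Trim.T4.Ind0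
import Pool.Agent.Lib.MP_551055_al.Trim.T4.Mods
import Pool.Agent.Lib.MP_551055_al.Trim.T4.Perf
import Pool.Agent.Lib.MP_551055_al.Trim.T4.Tri

/-!
# Nil modules: the elimination step

For a morphism `h : N₁ → M'` of nil modules killed by `I` and a triangular cover `g : P → M'` with
`h l = c g` the module `W = ker (N₁ × P / I P → M') / {(- c l p, c² p)}` has a finite resolution, and
up to multiples of `c` it is the kernel of `h`.
-/

set_option autoImplicit false

namespace Pool.Agent.Lib.MP_551055_al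
end Pool.Agent.Lib.MP_551055_al

namespace Pool.Agent.Lib.MP_551055_al.LS
end Pool.Agent.Lib.MP_551055_al.LS

namespace Pool.Agent.Lib.MP_551055_al.LD
end Pool.Agent.Lib.MP_551055_al.LD

namespace Pool.Agent.Lib.MP_551055_al.T4

open Pool.Agent.Lib.MP_551055_al

open Pool.Agent.Lib.MP_551055_al.LS

open Pool.Agent.Lib.MP_551055_al.LD

universe u

section

variable {A : Type u} [CommRing A] {G : Type u} [Group G] {D : Subgroup G}
  {M : Type u} [AddCommGroup M] [Module (MonoidAlgebra A D) M]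
  {M' : Type u} [AddCommGroup M'] [Module (MonoidAlgebra A D) M']
  {f : M →ₛₗ[incD D A] Ind A D M} {f' : M' →ₛₗ[incD D A] Ind A D M'}

theorem incD_algebraMap (a : A) :
    incD D A (algebraMap A (MonoidAlgebra A D) a) = algebraMap A (MonoidAlgebra A G) a := by
  rw [algebraMap_eq_single, algebraMap_eq_single, inc_single, map_one]

theorem cmul_isHom (c : A) (f : M →ₛₗ[incD D A] Ind A D M) :
    IsHom f f (cmul (T := MonoidAlgebra A D) c M) := by
  intro m x
  rw [cmul_apply, cmul_apply, LinearMap.map_smulₛₗ, incD_algebraMap, Ind.alg_smul_apply]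

theorem IsHom.smul {h : M →ₗ[MonoidAlgebra A D] M'} (hh : IsHom f f' h) (c : A) :
    IsHom f f' (cmul (T := MonoidAlgebra A D) c M' ∘ₗ h) := (cmul_isHom c f').comp hh

/-- The ideal quotient. -/
def colon (I : Ideal A) (c : A) : Ideal A := Submodule.comap (LinearMap.mulLeft A c) I

theorem mem_colon {I : Ideal A} {c x : A} : x ∈ colon I c ↔ c * x ∈ I := Iff.rfl

variable {ι : Type}

theorem alg_smul_mem_csub {J : ι → Ideal A} {c : A} {v : ι → MonoidAlgebra A D} :
    algebraMap A (MonoidAlgebra A D) c • v ∈ csub (D : Type u) J ↔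
      v ∈ csub (D : Type u) (fun i => colon (J i) c) := by
  have h : ∀ i d, ((algebraMap A (MonoidAlgebra A D) c • v) i).coeff d = c * (v i).coeff d := by
    intro i d
    rw [Pi.smul_apply, smul_eq_mul, algebraMap_eq_single, MonoidAlgebra.coeff_single_mul_apply,
      inv_one, one_mul]
  constructor
  · intro hv i d
    rw [mem_colon, ← h]
    exact hv i d
  · intro hv i d
    rw [h]
    exact hv i d

variable [Fintype ι]

theorem csub_le_ker {I : Ideal A} (hk : Killed (D := D) I M)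
    (l : (ι → MonoidAlgebra A D) →ₗ[MonoidAlgebra A D] M) :
    csub (D : Type u) (fun _ : ι => I) ≤ LinearMap.ker l := by
  classical
  intro v hv
  rw [LinearMap.mem_ker, LinearMap.pi_apply_eq_sum_univ l v]
  exact Finset.sum_eq_zero fun i _ => smul_eq_zero_of_coeff hk _ (hv i) _

end

section GS

variable {A : Type u} [CommRing A] {G : Type u} [Group G] {D : Subgroup G}
  (K : K1C (MonoidAlgebra A G))
  {I : Ideal A} {c : A} {ι : Type} [Fintype ι] {ρ : ι → ℕ}
  {F : ι → Ind A D (ι → MonoidAlgebra A D)}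
  {N₁ : Type u} [AddCommGroup N₁] [Module (MonoidAlgebra A D) N₁]
  {M' : Type u} [AddCommGroup M'] [Module (MonoidAlgebra A D) M']
  {f₁ : N₁ →ₛₗ[incD D A] Ind A D N₁} {f' : M' →ₛₗ[incD D A] Ind A D M'}

/-- The elimination step. -/
theorem gs_step (hc : ∀ x, c * (c * x) ∈ I → c * x ∈ I) (hF : Trian ρ F)
    (h : N₁ →ₗ[MonoidAlgebra A D] M') (hh : IsHom f₁ f' h)
    (l : (ι → MonoidAlgebra A D) →ₗ[MonoidAlgebra A D] N₁) (hl : IsHom (semi F) f₁ l)
    (g : (ι → MonoidAlgebra A D) →ₗ[MonoidAlgebra A D] M') (hg : IsHom (semi F) f' g)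
    (hgs : Function.Surjective g)
    (hlg : ∀ p, h (l p) = algebraMap A (MonoidAlgebra A D) c • g p)
    (hk₁ : Killed (D := D) I N₁) (hk' : Killed (D := D) I M')
    (hp₁ : Perf (MonoidAlgebra A D) N₁) (hp' : Perf (MonoidAlgebra A D) M')
    (hs₁ : SNil f₁)
    (pI : Perf (MonoidAlgebra A D) (EJ A D (fun _ : ι => I)))
    (pC : Perf (MonoidAlgebra A D) (EJ A D (fun _ : ι => colon I c)))
    (nI : NGM K (fE hF (monoI_const I ρ))) (nC : NGM K (fE hF (monoI_const (colon I c) ρ))) :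
    ∃ (W : Type u) (_ : AddCommGroup W) (_ : Module (MonoidAlgebra A D) W)
      (fW : W →ₛₗ[incD D A] Ind A D W) (θ : W →ₗ[MonoidAlgebra A D] N₁),
      Perf (MonoidAlgebra A D) W ∧ SNil fW ∧ Killed (D := D) I W ∧ IsHom fW f₁ θ ∧
      (∀ w, h (θ w) = 0) ∧
      (∀ w, θ w = 0 → algebraMap A (MonoidAlgebra A D) (c * c) • w = 0) ∧
      (∀ n, h n = 0 → ∃ w, θ w = algebraMap A (MonoidAlgebra A D) c • n) ∧
      (NGM K fW → NGM K f₁ → NGM K f') ∧ (NGM K fW → NGM K f' → NGM K f₁) := by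
  classical
  -- the maps from `P / I P`
  let PI := csub (D : Type u) (fun _ : ι => I)
  let fI := fE hF (monoI_const I ρ)
  let lI : EJ A D (fun _ : ι => I) →ₗ[MonoidAlgebra A D] N₁ := PI.liftQ l (csub_le_ker hk₁ l)
  have hlI : IsHom fI f₁ lI := hl.liftQ PI (semi_stable hF (monoI_const I ρ)) _
  let gI : EJ A D (fun _ : ι => I) →ₗ[MonoidAlgebra A D] M' := PI.liftQ g (csub_le_ker hk' g)
  have hgI : IsHom fI f' gI := hg.liftQ PI (semi_stable hF (monoI_const I ρ)) _
  have hlgI : ∀ p, h (lI p) = algebraMap A (MonoidAlgebra A D) c • gI p := by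
    intro p
    obtain ⟨p, rfl⟩ := PI.mkQ_surjective p
    exact hlg p
  -- the kernel `Z`
  let q : N₁ × EJ A D (fun _ : ι => I) →ₗ[MonoidAlgebra A D] M' := h.coprod gI
  have hq : IsHom (prodM f₁ fI) f' q := hh.coprod hgI
  have hqs : Function.Surjective q := by
    intro y
    obtain ⟨p, rfl⟩ := hgs y
    refine ⟨(0, PI.mkQ p), ?_⟩
    change h 0 + gI (PI.mkQ p) = g p
    rw [map_zero, zero_add]
    rfl
  let Z := LinearMap.ker q
  let fZ := subM (prodM f₁ fI) Z (ker_stable hq)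
  have hZ : IsHom fZ (prodM f₁ fI) Z.subtype := subM_isHom _ _ _
  have hexZ : ∀ y, q y = 0 ↔ ∃ x, Z.subtype x = y := fun y =>
    ⟨fun hy => ⟨⟨y, hy⟩, rfl⟩, fun ⟨x, hx⟩ => by rw [← hx]; exact x.2⟩
  -- the map `σ`
  let σ₀ : (ι → MonoidAlgebra A D) →ₗ[MonoidAlgebra A D] N₁ × EJ A D (fun _ : ι => I) :=
    (-(cmul (T := MonoidAlgebra A D) c N₁ ∘ₗ l)).prod
      (cmul (T := MonoidAlgebra A D) (c * c) (EJ A D (fun _ : ι => I)) ∘ₗ PI.mkQ)
  have hσ₀ : IsHom (semi F) (prodM f₁ fI) σ₀ :=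
    IsHom.prod ((hl.smul c).neg) ((fE_isHom hF (monoI_const I ρ)).smul (c * c))
  have hσ₀1 : ∀ v, (σ₀ v).1 = -(algebraMap A (MonoidAlgebra A D) c • l v) := fun v => rfl
  have hσ₀2 : ∀ v, (σ₀ v).2 = PI.mkQ (algebraMap A (MonoidAlgebra A D) (c * c) • v) := fun v =>
    (map_smul PI.mkQ _ v).symm
  have hσker : ∀ v, σ₀ v = 0 ↔ v ∈ csub (D : Type u) (fun _ : ι => colon I c) := by
    intro v
    constructor
    · intro hv
      have h1 : PI.mkQ (algebraMap A (MonoidAlgebra A D) (c * c) • v) = 0 := by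
        rw [← hσ₀2, hv]
        rfl
      have h2 : algebraMap A (MonoidAlgebra A D) (c * c) • v ∈ PI :=
        (Submodule.Quotient.mk_eq_zero PI).1 h1
      rw [alg_smul_mem_csub] at h2
      intro i d
      have h3 := h2 i d
      rw [mem_colon, mul_assoc] at h3
      exact hc _ h3
    · intro hv
      have h1 : algebraMap A (MonoidAlgebra A D) c • v ∈ PI := alg_smul_mem_csub.2 hv
      refine Prod.ext ?_ ?_
      · rw [hσ₀1, ← map_smul, LinearMap.mem_ker.1 (csub_le_ker hk₁ l h1), neg_zero]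
        rfl
      · rw [hσ₀2, map_mul, mul_smul]
        exact (Submodule.Quotient.mk_eq_zero PI).2 (PI.smul_mem _ h1)
  let σ : EJ A D (fun _ : ι => colon I c) →ₗ[MonoidAlgebra A D]
      N₁ × EJ A D (fun _ : ι => I) :=
    (csub (D : Type u) (fun _ : ι => colon I c)).liftQ σ₀ fun v hv => (hσker v).2 hv
  have hσ : IsHom (fE hF (monoI_const (colon I c) ρ)) (prodM f₁ fI) σ :=
    hσ₀.liftQ _ (semi_stable hF (monoI_const (colon I c) ρ)) _
  have hσi : Function.Injective σ := by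
    rw [injective_iff_map_eq_zero]
    intro v hv
    obtain ⟨v, rfl⟩ := (csub (D : Type u) (fun _ : ι => colon I c)).mkQ_surjective v
    exact (Submodule.Quotient.mk_eq_zero _).2 ((hσker v).1 hv)
  have hσZ : ∀ v, σ v ∈ Z := by
    intro v
    obtain ⟨v, rfl⟩ := (csub (D : Type u) (fun _ : ι => colon I c)).mkQ_surjective v
    change h (σ₀ v).1 + gI (σ₀ v).2 = 0
    rw [hσ₀1, hσ₀2, map_neg, map_smul, hlg, map_smul, map_smul, smul_smul, ← map_mul]
    exact neg_add_cancel _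
  let σZ := σ.codRestrict Z hσZ
  have hσZh : IsHom (fE hF (monoI_const (colon I c) ρ)) fZ σZ := hσ.codRestrict Z _ hσZ
  have hσZi : Function.Injective σZ := fun a b hab => hσi (congrArg Subtype.val hab)
  -- the quotient
  let B := LinearMap.range σZ
  let fW := quotM fZ B (range_stable hσZh)
  have hB : IsHom fZ fW B.mkQ := quotM_isHom _ _ _
  have hexB : ∀ y, B.mkQ y = 0 ↔ ∃ x, σZ x = y := fun y =>
    (Submodule.Quotient.mk_eq_zero B).trans LinearMap.mem_range
  -- the map `θ`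
  let θ₀ : N₁ × EJ A D (fun _ : ι => I) →ₗ[MonoidAlgebra A D] N₁ :=
    (cmul (T := MonoidAlgebra A D) c N₁).coprod lI
  have hθ₀ : IsHom (prodM f₁ fI) f₁ θ₀ := (cmul_isHom c f₁).coprod hlI
  have hθ₀a : ∀ y, θ₀ y = algebraMap A (MonoidAlgebra A D) c • y.1 + lI y.2 := fun y => rfl
  have hBk : B ≤ LinearMap.ker (θ₀ ∘ₗ Z.subtype) := by
    rintro _ ⟨v, rfl⟩
    obtain ⟨v, rfl⟩ := (csub (D : Type u) (fun _ : ι => colon I c)).mkQ_surjective v
    change algebraMap A (MonoidAlgebra A D) c • (σ₀ v).1 + lI (σ₀ v).2 = 0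
    rw [hσ₀1, hσ₀2]
    change _ + l (algebraMap A (MonoidAlgebra A D) (c * c) • v) = 0
    rw [map_smul, smul_neg, smul_smul, ← map_mul]
    exact neg_add_cancel _
  let θ : (Z ⧸ B) →ₗ[MonoidAlgebra A D] N₁ := B.liftQ (θ₀ ∘ₗ Z.subtype) hBk
  have hθ : IsHom fW f₁ θ := (hθ₀.comp hZ).liftQ B _ hBk
  -- finite resolutions
  have pX : Perf (MonoidAlgebra A D) (N₁ × EJ A D (fun _ : ι => I)) := hp₁.prod pI
  have pZ : Perf (MonoidAlgebra A D) Z := Perf.ker q hqs pX hp'
  have pW : Perf (MonoidAlgebra A D) (Z ⧸ B) := Perf.right hσZi B.mkQ_surjective hexB pC pZ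
  have hexX : ∀ y, LinearMap.snd (MonoidAlgebra A D) N₁ (EJ A D (fun _ : ι => I)) y = 0 ↔
      ∃ x, LinearMap.inl (MonoidAlgebra A D) N₁ (EJ A D (fun _ : ι => I)) x = y := by
    intro y
    constructor
    · intro hy
      exact ⟨y.1, Prod.ext rfl hy.symm⟩
    · rintro ⟨x, rfl⟩
      rfl
  refine ⟨Z ⧸ B, inferInstance, inferInstance, fW, θ, pW, ?_, ?_, hθ, ?_, ?_, ?_, ?_, ?_⟩
  · exact ((hs₁.prod (fE_snil hF (monoI_const I ρ))).subM Z _).quotM B _
  · exact ((hk₁.prod (EJ_killed fun _ => le_rfl)).sub Z).quot B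
  · intro w
    obtain ⟨z, rfl⟩ := B.mkQ_surjective w
    change h (algebraMap A (MonoidAlgebra A D) c • (z : N₁ × EJ A D (fun _ : ι => I)).1 +
      lI (z : N₁ × EJ A D (fun _ : ι => I)).2) = 0
    rw [map_add, map_smul, hlgI, ← smul_add]
    have h1 : h (z : N₁ × EJ A D (fun _ : ι => I)).1 + gI (z : N₁ × EJ A D (fun _ : ι => I)).2 = 0 :=
      z.2
    rw [h1, smul_zero]
  · intro w hw
    obtain ⟨z, rfl⟩ := B.mkQ_surjective w
    obtain ⟨v, hv⟩ := PI.mkQ_surjective (z : N₁ × EJ A D (fun _ : ι => I)).2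
    have h1 : algebraMap A (MonoidAlgebra A D) c • (z : N₁ × EJ A D (fun _ : ι => I)).1 + l v = 0 := by
      have h2 : algebraMap A (MonoidAlgebra A D) c • (z : N₁ × EJ A D (fun _ : ι => I)).1 +
        lI (z : N₁ × EJ A D (fun _ : ι => I)).2 = 0 := hw
      rw [← hv] at h2
      exact h2
    rw [← map_smul]
    refine (hexB _).2 ⟨(csub (D : Type u) (fun _ : ι => colon I c)).mkQ v, ?_⟩
    apply Subtype.ext
    change σ₀ v = algebraMap A (MonoidAlgebra A D) (c * c) • (z : N₁ × EJ A D (fun _ : ι => I))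
    refine Prod.ext ?_ ?_
    · rw [hσ₀1, Prod.smul_fst, eq_neg_of_add_eq_zero_right h1, smul_neg, neg_neg, map_mul, mul_smul]
    · rw [hσ₀2, Prod.smul_snd, ← hv, map_smul]
  · intro n hn
    refine ⟨B.mkQ ⟨(n, 0), ?_⟩, ?_⟩
    · change h n + gI 0 = 0
      rw [hn, map_zero, add_zero]
    · change algebraMap A (MonoidAlgebra A D) c • n + lI 0 = _
      rw [map_zero, add_zero]
  · intro nW n₁
    have nX : NGM K (prodM f₁ fI) := NGM.mid K LinearMap.inl_injective LinearMap.snd_surjective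
      hexX inl_isHom snd_isHom n₁ nI
    have nZ : NGM K fZ := NGM.mid K hσZi B.mkQ_surjective hexB hσZh hB nC nW
    exact NGM.right K Z.injective_subtype hqs hexZ hZ hq nZ nX
  · intro nW n'
    have nZ : NGM K fZ := NGM.mid K hσZi B.mkQ_surjective hexB hσZh hB nC nW
    have nX : NGM K (prodM f₁ fI) := NGM.mid K Z.injective_subtype hqs hexZ hZ hq nZ n'
    exact NGM.left K LinearMap.inl_injective LinearMap.snd_surjective hexX inl_isHom snd_isHom nX nI

end GS

end Pool.Agent.Lib.MP_551055_al.T4
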