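import Mathlib
import Pool.Agent.Lib.MP_551055_al.Trim.LS.Stmts
import Pool.Agent.Lib.MP_551055_al.Trim.T4.Alg
import Pool.Agent.Lib.MP_551055_al.Trim.T4.CA
import Pool.Agent.Lib.MP_551055_al.Trim.T4.Constr
import Pool.Agent.Lib.MP_551055_al.Trim.T4.Csub
import Pool.Agent.Lib.MP_551055_al.Trim.T4.GS
import Pool.Agent.Lib.MP_551055_al.Trim.T4.Ind
import Pool.Agent.Lib.MP_551055_al.Trim.T4.Ind0
import Pool.Agent.Lib.MP_551055_al.Trim.T4.Mods
import Pool.Agent.Lib.MP_551055_al.Trim.T4.NGTri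
import Pool.Agent.Lib.MP_551055_al.Trim.T4.Perf
import Pool.Agent.Lib.MP_551055_al.Trim.T4.Tri

/-!
# Nil modules: the noetherian induction

For a noetherian ring `A` of coefficients such that all finitely generated `A`-modules have finite
resolutions, and a group `D` such that all finitely presented `k[D]`-modules have projective
dimension at most two for all fields `k`, the class of each strongly nilpotent nil module with a
finite resolution is zero.
-/

set_option autoImplicit false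

namespace Pool.Agent.Lib.MP_551055_al
end Pool.Agent.Lib.MP_551055_al

namespace Pool.Agent.Lib.MP_551055_al.LS
end Pool.Agent.Lib.MP_551055_al.LS

namespace Pool.Agent.Lib.MP_551055_al.LD
end Pool.Agent.Lib.MP_551055_al.LD

namespace Pool.Agent.Lib.MP_551055_al.T4

open Pool.Agent.Lib.MP_551055_al

open Pool.Agent.Lib.MP_551055_al.LS

open Pool.Agent.Lib.MP_551055_al.LD

universe u

section

variable {A : Type u} [CommRing A] [IsNoetherianRing A] {G : Type u} [Group G] {D : Subgroup G}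
  (K : K1C (MonoidAlgebra A G))
  (hA : ∀ (N : Type u) [AddCommGroup N] [Module A N], Module.Finite A N → Perf A N)

include hA

/-- The elimination step for the canonical triangular module of order `s`. -/
theorem e_step {I q : Ideal A} [hq : q.IsPrime] {s : ℕ}
    {M : Type u} [AddCommGroup M] [Module (MonoidAlgebra A D) M]
    {f : M →ₛₗ[incD D A] Ind A D M} (hp : Perf (MonoidAlgebra A D) M) (hs : SNil f)
    (hk : Killed (D := D) I M) (ho : Ord q s f) :
    ∃ (ι : Type) (_ : Fintype ι) (J : ι → Ideal A)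
      (fJ : EJ A D J →ₛₗ[incD D A] Ind A D (EJ A D J))
      (u : EJ A D J →ₗ[MonoidAlgebra A D] M)
      (W : Type u) (_ : AddCommGroup W) (_ : Module (MonoidAlgebra A D) W)
      (fW : W →ₛₗ[incD D A] Ind A D W) (θ : W →ₗ[MonoidAlgebra A D] EJ A D J) (c : A),
      c ∉ q ∧ Perf (MonoidAlgebra A D) W ∧ SNil fW ∧ Killed (D := D) I W ∧ Ord q s fW ∧
      IsHom fW fJ θ ∧ (∀ w, u (θ w) = 0) ∧
      (∀ w, θ w = 0 → algebraMap A (MonoidAlgebra A D) (c * c) • w = 0) ∧
      (∀ n, u n = 0 → ∃ w, θ w = algebraMap A (MonoidAlgebra A D) c • n) ∧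
      (NGM K fW → NGM K f) := by
  classical
  have := hp.finite
  obtain ⟨ι, iι, ρ, F, g, hF, hg, hgs, hgh⟩ := exists_tri_cover hs
  obtain ⟨b, hb, hord⟩ := ho
  obtain ⟨m, hm, hc⟩ := exists_pow_colon I b
  have hcq : b ^ m ∉ q := fun h => hb (hq.mem_of_pow_mem m h)
  have hord' : ∀ j ≤ s, ∀ a ∈ q ^ (s - j), ∀ y ∈ gen f j,
      algebraMap A (MonoidAlgebra A D) (b ^ m * a) • y = 0 := by
    intro j hj a ha y hy
    obtain ⟨k, rfl⟩ := Nat.exists_eq_add_of_le hm
    have h1 : b ^ (1 + k) * a = b ^ k * (b * a) := by ring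
    rw [h1, map_mul, mul_smul, hord j hj a ha y hy, smul_zero]
  have hgi : ∀ i, ∀ a ∈ q ^ (s - ρ i) ⊔ I,
      algebraMap A (MonoidAlgebra A D) (b ^ m * a) • g i = 0 := by
    intro i a ha
    obtain ⟨a₁, h₁, a₂, h₂, rfl⟩ := Submodule.mem_sup.1 ha
    have e₂ : algebraMap A (MonoidAlgebra A D) (b ^ m * a₂) • g i = 0 :=
      hk _ (I.mul_mem_left _ h₂) _
    have e₁ : algebraMap A (MonoidAlgebra A D) (b ^ m * a₁) • g i = 0 := by
      rcases le_or_gt (ρ i) s with h | h
      · exact hord' _ h _ h₁ _ (hg i)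
      · refine hord' s le_rfl _ ?_ _ (gen_anti h.le (hg i))
        rw [Nat.sub_self, pow_zero, Ideal.one_eq_top]
        trivial
    rw [mul_add, map_add, add_smul, e₁, e₂, add_zero]
  let J : ι → Ideal A := fun i => q ^ (s - ρ i) ⊔ I
  have hJ : MonoI ρ J := monoI_pow q I s ρ
  have hker : csub (D : Type u) J ≤ LinearMap.ker
      (cmul (T := MonoidAlgebra A D) (b ^ m) M ∘ₗ lin g) := by
    intro v hv
    rw [LinearMap.mem_ker, LinearMap.comp_apply, cmul_apply, lin_apply, Finset.smul_sum]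
    refine Finset.sum_eq_zero fun i _ => ?_
    refine coeff_induction (I := J i)
      (P := fun r => algebraMap A (MonoidAlgebra A D) (b ^ m) • r • g i = 0) ?_ ?_ ?_ (v i) (hv i)
    · rw [zero_smul, smul_zero]
    · intro r t hr ht
      rw [add_smul, smul_add, hr, ht, add_zero]
    · intro d a ha
      have h1 : (MonoidAlgebra.single d a : MonoidAlgebra A D) =
          MonoidAlgebra.single d 1 * algebraMap A (MonoidAlgebra A D) a := by
        rw [algebraMap_eq_single, MonoidAlgebra.single_mul_single, mul_one, one_mul]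
      rw [h1, smul_smul, ← mul_assoc, Algebra.commutes, mul_assoc, ← map_mul, mul_smul,
        hgi i a ha, smul_zero]
  let h : EJ A D J →ₗ[MonoidAlgebra A D] M := (csub (D : Type u) J).liftQ _ hker
  have hh : IsHom (fE hF hJ) f h := (hgh.smul (b ^ m)).liftQ _ (semi_stable hF hJ) _
  obtain ⟨W, i1, i2, fW, θ, h1, h2, h3, h4, h5, h6, h7, h8, _⟩ :=
    gs_step K hc hF h hh (csub (D : Type u) J).mkQ (fE_isHom hF hJ) (lin g) hgh hgs
      (fun _ => rfl) (EJ_killed fun i => le_sup_right) hk (perf_EJ hA J) hp (fE_snil hF hJ)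
      (perf_EJ hA _) (perf_EJ hA _) (ngm_fE hA hF _ K) (ngm_fE hA hF _ K)
  refine ⟨ι, iι, J, fE hF hJ, h, W, i1, i2, fW, θ, b ^ m, hcq, h1, h2, h3, ?_, h4, h5, h6, h7,
    fun hN => h8 hN (ngm_fE hA hF hJ K)⟩
  exact Ord.of_hom h4 (fun h => (hq.mem_or_mem h).elim hcq hcq) h6 (fE_ord hq.ne_top hF hJ)

end

end Pool.Agent.Lib.MP_551055_al.T4
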