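import Mathlib
import Pool.Agent.Lib.MP_551055_al.Trim.LS.K1c
import Pool.Agent.Lib.MP_551055_al.Trim.LS.Pos
import Pool.Agent.Lib.MP_551055_al.Trim.LS.Stmts
import Pool.Agent.Lib.MP_551055_al.Trim.T4.BC
import Pool.Agent.Lib.MP_551055_al.Trim.T4.Constr
import Pool.Agent.Lib.MP_551055_al.Trim.T4.Csub
import Pool.Agent.Lib.MP_551055_al.Trim.T4.Fil
import Pool.Agent.Lib.MP_551055_al.Trim.T4.Ind
import Pool.Agent.Lib.MP_551055_al.Trim.T4.Ind0
import Pool.Agent.Lib.MP_551055_al.Trim.T4.Perf
import Pool.Agent.Lib.MP_551055_al.Trim.T4.Tri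

/-!
# The class of a triangular nil module is trivial
-/

set_option autoImplicit false

namespace Pool.Agent.Lib.MP_551055_al
end Pool.Agent.Lib.MP_551055_al

namespace Pool.Agent.Lib.MP_551055_al.LS
end Pool.Agent.Lib.MP_551055_al.LS

namespace Pool.Agent.Lib.MP_551055_al.LD
end Pool.Agent.Lib.MP_551055_al.LD

namespace Pool.Agent.Lib.MP_551055_al.T4

open Pool.Agent.Lib.MP_551055_al

open Pool.Agent.Lib.MP_551055_al.LS

open Pool.Agent.Lib.MP_551055_al.LD

universe u

section

variable {A : Type u} [CommRing A] {G : Type u} [Group G] {D : Subgroup G}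
  {ι : Type} {ρ : ι → ℕ} {F : ι → Ind A D (ι → MonoidAlgebra A D)}
  {J : ι → Ideal A}

/-- The filtration of a triangular module. -/
noncomputable def levQ (A : Type u) [CommRing A] {G : Type u} [Group G] (D : Subgroup G)
    {ι : Type} (ρ : ι → ℕ) (J : ι → Ideal A) (j : ℕ) :
    Submodule (MonoidAlgebra A D) (EJ A D J) :=
  (lev A D ρ j).map (csub (D : Type u) J).mkQ

theorem perf_EJ (hA : ∀ (N : Type u) [AddCommGroup N] [Module A N], Module.Finite A N → Perf A N)
    [Finite ι] (J : ι → Ideal A) : Perf (MonoidAlgebra A D) (EJ A D J) := perf_csub hA J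

theorem perf_levQ
    (hA : ∀ (N : Type u) [AddCommGroup N] [Module A N], Module.Finite A N → Perf A N)
    [Finite ι] (ρ : ι → ℕ) (J : ι → Ideal A) (j : ℕ) :
    Perf (MonoidAlgebra A D) (levQ A D ρ J j) := by
  classical
  let P : ι → Prop := fun i => j ≤ ρ i
  let J' : {i // P i} → Ideal A := fun i => J i.1
  let g : ({i // P i} → MonoidAlgebra A D) →ₗ[MonoidAlgebra A D] EJ A D J :=
    (csub (D : Type u) J).mkQ ∘ₗ k1cExt P
  have hg : ∀ v, g v = Submodule.Quotient.mk (k1cExt P v) := fun v => rfl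
  have hker : LinearMap.ker g = csub (D : Type u) J' := by
    ext v
    rw [LinearMap.mem_ker, hg, Submodule.Quotient.mk_eq_zero, mem_csub, mem_csub]
    constructor
    · intro h i d
      have h1 := h i.1 d
      rwa [k1cExt_pos P v i.1 i.2] at h1
    · intro h i d
      by_cases hi : P i
      · rw [k1cExt_pos P v i hi]
        exact h ⟨i, hi⟩ d
      · rw [k1cExt_neg P v i hi]
        exact (J i).zero_mem
  have hrange : LinearMap.range g = levQ A D ρ J j := by
    ext y
    constructor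
    · rintro ⟨v, rfl⟩
      refine ⟨k1cExt P v, fun i hi => k1cExt_neg P v i (not_le_of_gt hi), rfl⟩
    · rintro ⟨w, hw, rfl⟩
      refine ⟨fun i => w i.1, ?_⟩
      rw [hg]
      congr 1
      funext i
      by_cases hi : P i
      · rw [k1cExt_pos P _ i hi]
      · rw [k1cExt_neg P _ i hi]
        exact (hw i (not_le.1 hi)).symm
  have h1 : Perf (MonoidAlgebra A D) (({i // P i} → MonoidAlgebra A D) ⧸ LinearMap.ker g) := by
    rw [hker]
    exact perf_csub hA J'
  exact h1.congr (g.quotKerEquivRange.trans (LinearEquiv.ofEq _ _ hrange))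

theorem levQ_anti (ρ : ι → ℕ) (J : ι → Ideal A) : Antitone (levQ A D ρ J) := by
  intro j k hjk
  exact Submodule.map_mono fun v hv i hi => hv i (lt_of_lt_of_le hi hjk)

/-- The class of a triangular nil module is trivial. -/
theorem ngm_fE
    (hA : ∀ (N : Type u) [AddCommGroup N] [Module A N], Module.Finite A N → Perf A N)
    [Fintype ι] (hF : Trian ρ F) (hJ : MonoI ρ J) (K : K1C (MonoidAlgebra A G)) :
    NGM K (fE hF hJ) := by
  obtain ⟨n, hn⟩ : ∃ n, ∀ i, ρ i < n :=
    ⟨Finset.univ.sup ρ + 1, fun i => Nat.lt_succ_of_le (Finset.le_sup (Finset.mem_univ i))⟩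
  refine NGM.fil K n (fE hF hJ) (levQ A D ρ J) ?_ ?_ (levQ_anti ρ J) ?_ ?_
  · rw [eq_top_iff]
    intro y _
    obtain ⟨v, rfl⟩ := (csub (D : Type u) J).mkQ_surjective y
    exact ⟨v, fun i hi => absurd hi (Nat.not_lt_zero _), rfl⟩
  · rw [eq_bot_iff]
    rintro _ ⟨v, hv, rfl⟩
    have h1 : v = 0 := funext fun i => hv i (hn i)
    rw [h1, map_zero]
    exact Submodule.zero_mem _
  · rintro j _ ⟨v, hv, rfl⟩ x
    rw [fE_isHom hF hJ v x]
    refine ⟨semi F v x, ?_, rfl⟩
    have h : semi F v ∈ Ind.sub (lev A D ρ (j + 1)) := by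
      rw [semi_apply]
      refine Submodule.sum_mem _ fun i _ => ?_
      by_cases h : v i = 0
      · rw [h, map_zero, zero_smul]
        exact zero_mem _
      · refine Submodule.smul_mem _ _ fun x k hk => ?_
        by_contra hne
        have h1 := hF i x k hne
        have h2 : ¬ ρ i < j := fun h2 => h (hv i h2)
        omega
    exact h x
  · intro j _
    refine Perf.quot _ ?_ (perf_levQ hA ρ J j)
    exact (perf_levQ hA ρ J (j + 1)).congr
      (Submodule.submoduleOfEquivOfLe (levQ_anti ρ J (Nat.le_succ j))).symm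

end

end Pool.Agent.Lib.MP_551055_al.T4
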