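import Mathlib
import Pool.Agent.Lib.MP_551055_al.Trim.Descent
import Pool.Agent.Lib.MP_551055_al.Trim.LS.Stmts
import Pool.Agent.Lib.MP_551055_al.Trim.T4.CA
import Pool.Agent.Lib.MP_551055_al.Trim.T4.Constr
import Pool.Agent.Lib.MP_551055_al.Trim.T4.Csub
import Pool.Agent.Lib.MP_551055_al.Trim.T4.Gen
import Pool.Agent.Lib.MP_551055_al.Trim.T4.Ind
import Pool.Agent.Lib.MP_551055_al.Trim.T4.Ind0
import Pool.Agent.Lib.MP_551055_al.Trim.T4.Mods
import Pool.Agent.Lib.MP_551055_al.Trim.T4.Perf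
import Pool.Agent.Lib.MP_551055_al.Trim.T4.VStep

/-!
# The last step of the devissage

If the components of `f` are killed by an element `c₀` of `A`, then the class of `(M, f)` vanishes
if the class of a nil module killed by a power of `c₀` vanishes.
-/

set_option autoImplicit false

namespace Pool.Agent.Lib.MP_551055_al
end Pool.Agent.Lib.MP_551055_al

namespace Pool.Agent.Lib.MP_551055_al.LS
end Pool.Agent.Lib.MP_551055_al.LS

namespace Pool.Agent.Lib.MP_551055_al.LD
end Pool.Agent.Lib.MP_551055_al.LD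

namespace Pool.Agent.Lib.MP_551055_al.T4

open Pool.Agent.Lib.MP_551055_al

open Pool.Agent.Lib.MP_551055_al.LS

open Pool.Agent.Lib.MP_551055_al.LD

universe u

section

variable {A : Type u} [CommRing A] {G : Type u} [Group G] {D : Subgroup G}
  {M : Type u} [AddCommGroup M] [Module (MonoidAlgebra A D) M]

theorem exact_of_sub {R : Type u} [Ring R] {B : Type u} [AddCommGroup B] [Module R B]
    (N : Submodule R B) (y : B) : N.mkQ y = 0 ↔ ∃ x, N.subtype x = y := by
  rw [← LinearMap.mem_ker, Submodule.ker_mkQ]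
  exact ⟨fun h => ⟨⟨y, h⟩, rfl⟩, fun ⟨x, hx⟩ => by rw [← hx]; exact x.2⟩

theorem killed_quot_csub {I : Ideal A} (n : ℕ) (a : A) (ha : a ∈ I)
    (y : (Fin n → MonoidAlgebra A D) ⧸ csub D fun _ => I) :
    algebraMap A (MonoidAlgebra A D) a • y = 0 := by
  obtain ⟨v, rfl⟩ := (csub D fun _ : Fin n => I).mkQ_surjective y
  rw [← map_smul, Submodule.mkQ_apply, Submodule.Quotient.mk_eq_zero, mem_csub]
  intro i g
  rw [Pi.smul_apply, smul_eq_mul, coeff_algebraMap_mul]
  exact I.mul_mem_right _ ha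

theorem lin_csub {I : Ideal A} (hI : Killed (D := D) I M) {n : ℕ}
    (g : (Fin n → MonoidAlgebra A D) →ₗ[MonoidAlgebra A D] M) (v : Fin n → MonoidAlgebra A D)
    (hv : v ∈ csub D fun _ => I) : g v = 0 := by
  classical
  rw [← Finset.univ_sum_single v, map_sum]
  refine Finset.sum_eq_zero fun i _ => ?_
  have h1 : (Pi.single i (v i) : Fin n → MonoidAlgebra A D) = v i • Pi.single i 1 := by
    rw [← Pi.single_smul, smul_eq_mul, mul_one]
  rw [h1, map_smul]
  exact smul_eq_zero_of_coeff hI (v i) (hv i) _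

/-- The last step. -/
theorem oneStep (K : K1C (MonoidAlgebra A G)) [IsNoetherianRing A] {I : Ideal A}
    (hP : ∀ (J : Ideal A) (n : ℕ),
      Perf (MonoidAlgebra A D) ((Fin n → MonoidAlgebra A D) ⧸ csub D fun _ => J))
    {f : M →ₛₗ[incD D A] Ind A D M} (hM : Perf (MonoidAlgebra A D) M) (hf : SNil f)
    (hI : Killed (D := D) I M) (c₀ : A)
    (hc₀ : ∀ m x, algebraMap A (MonoidAlgebra A D) c₀ • f m x = 0) :
    ∃ (k : ℕ) (M' : Type u) (_ : AddCommGroup M') (_ : Module (MonoidAlgebra A D) M')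
      (f' : M' →ₛₗ[incD D A] Ind A D M'),
      Perf (MonoidAlgebra A D) M' ∧ SNil f' ∧ Killed (D := D) I M' ∧
      (∀ w : M', algebraMap A (MonoidAlgebra A D) (c₀ ^ k) • w = 0) ∧
      (NGM K f' → NGM K f) := by
  classical
  obtain ⟨l, hl, hcol⟩ := exists_pow_colon I c₀
  obtain ⟨c, hc⟩ : ∃ c, c = c₀ ^ l := ⟨_, rfl⟩
  rw [← hc] at hcol
  have hcf : ∀ m x, algebraMap A (MonoidAlgebra A D) c • f m x = 0 := by
    intro m x
    obtain ⟨l', rfl⟩ := Nat.exists_eq_add_of_le' hl
    rw [hc, pow_succ, map_mul, mul_smul, hc₀, smul_zero]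
  have := hM.finite
  obtain ⟨n, g, hg⟩ := Module.Finite.exists_fin' (MonoidAlgebra A D) M
  -- `P / I P`
  let C : Submodule (MonoidAlgebra A D) (Fin n → MonoidAlgebra A D) := csub D fun _ => I
  let gb : ((Fin n → MonoidAlgebra A D) ⧸ C) →ₗ[MonoidAlgebra A D] M :=
    C.liftQ g fun v hv => LinearMap.mem_ker.2 (lin_csub hI g v hv)
  have hgb : ∀ v, gb (C.mkQ v) = g v := fun _ => rfl
  let cM : M →ₗ[MonoidAlgebra A D] M :=
    { toFun := fun m => algebraMap A (MonoidAlgebra A D) c • m
      map_add' := fun a b => smul_add _ _ _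
      map_smul' := fun r m => by
        rw [smul_smul, Algebra.commutes, ← smul_smul, RingHom.id_apply] }
  have hcM : ∀ m, cM m = algebraMap A (MonoidAlgebra A D) c • m := fun _ => rfl
  let π : (M × ((Fin n → MonoidAlgebra A D) ⧸ C)) →ₗ[MonoidAlgebra A D] M := cM.coprod gb
  have hπ : ∀ m p, π (m, p) = algebraMap A (MonoidAlgebra A D) c • m + gb p := fun _ _ => rfl
  have hπs : Function.Surjective π := by
    intro m
    obtain ⟨v, rfl⟩ := hg m
    exact ⟨(0, C.mkQ v), by rw [hπ, smul_zero, zero_add, hgb]⟩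
  have hπf : IsHom (prodZ f ((Fin n → MonoidAlgebra A D) ⧸ C)) (0 : M →ₛₗ[incD D A] Ind A D M)
      π := by
    intro m x
    rw [prodZ_apply]
    change (0 : M) = algebraMap A (MonoidAlgebra A D) c • f m.1 x + gb 0
    rw [hcf, map_zero, add_zero]
  have hZst : ∀ m ∈ LinearMap.ker π, ∀ x,
      prodZ f ((Fin n → MonoidAlgebra A D) ⧸ C) m x ∈ LinearMap.ker π := by
    intro m _ x
    rw [prodZ_apply, LinearMap.mem_ker, hπ, hcf, map_zero, add_zero]
  let fZ := subM (prodZ f ((Fin n → MonoidAlgebra A D) ⧸ C)) (LinearMap.ker π) hZst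
  have hfZ : IsHom fZ (prodZ f ((Fin n → MonoidAlgebra A D) ⧸ C)) (LinearMap.ker π).subtype :=
    subM_isHom _ _ hZst
  have hQP := hP I n
  have hZP : Perf (MonoidAlgebra A D) (LinearMap.ker π) := Perf.ker π hπs (hM.prod hQP) hM
  have hZnil : SNil fZ := SNil.of_inj hfZ (LinearMap.ker π).injective_subtype (hf.prodZ _)
  -- the submodule which is divided out
  let β₀ : (Fin n → MonoidAlgebra A D) →ₗ[MonoidAlgebra A D]
      M × ((Fin n → MonoidAlgebra A D) ⧸ C) :=
    { toFun := fun v => (-(algebraMap A (MonoidAlgebra A D) c • g v),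
        C.mkQ (algebraMap A (MonoidAlgebra A D) (c * c) • v))
      map_add' := fun v w => by
        rw [map_add, smul_add, smul_add, neg_add, map_add]
        rfl
      map_smul' := fun r v => by
        rw [map_smul, smul_smul, Algebra.commutes, ← smul_smul, ← smul_neg, smul_smul,
          Algebra.commutes, ← smul_smul, map_smul, RingHom.id_apply]
        rfl }
  have hβ₀ : ∀ v, β₀ v = (-(algebraMap A (MonoidAlgebra A D) c • g v),
      C.mkQ (algebraMap A (MonoidAlgebra A D) (c * c) • v)) := fun _ => rfl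
  have hβπ : ∀ v, β₀ v ∈ LinearMap.ker π := by
    intro v
    rw [LinearMap.mem_ker, hβ₀, hπ, hgb, map_smul, smul_neg, smul_smul, ← map_mul,
      neg_add_cancel]
  let β : (Fin n → MonoidAlgebra A D) →ₗ[MonoidAlgebra A D] LinearMap.ker π :=
    β₀.codRestrict (LinearMap.ker π) hβπ
  have hβ : ∀ v, ((β v : LinearMap.ker π) : M × ((Fin n → MonoidAlgebra A D) ⧸ C)) = β₀ v :=
    fun _ => rfl
  let J : Ideal A := Submodule.comap (LinearMap.mulLeft A c) I
  have hJ : ∀ a, a ∈ J ↔ c * a ∈ I := fun _ => Iff.rfl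
  have hker : LinearMap.ker β = csub D fun _ => J := by
    ext v
    rw [LinearMap.mem_ker]
    constructor
    · intro h
      have h1 : β₀ v = 0 := by
        rw [← hβ, h]
        rfl
      rw [hβ₀, Prod.mk_eq_zero, Submodule.mkQ_apply, Submodule.Quotient.mk_eq_zero] at h1
      intro i d
      rw [hJ]
      apply hcol
      have h2 := h1.2 i d
      rw [Pi.smul_apply, smul_eq_mul, coeff_algebraMap_mul, mul_assoc] at h2
      exact h2
    · intro h
      have hcv : algebraMap A (MonoidAlgebra A D) c • v ∈ C := by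
        intro i d
        rw [Pi.smul_apply, smul_eq_mul, coeff_algebraMap_mul]
        exact h i d
      apply Subtype.ext
      rw [hβ, hβ₀]
      refine Prod.ext ?_ ?_
      · change -(algebraMap A (MonoidAlgebra A D) c • g v) = 0
        rw [← map_smul, lin_csub hI g _ hcv, neg_zero]
      · change C.mkQ (algebraMap A (MonoidAlgebra A D) (c * c) • v) = 0
        rw [Submodule.mkQ_apply, Submodule.Quotient.mk_eq_zero, map_mul, mul_smul]
        exact C.smul_mem _ hcv
  let V : Submodule (MonoidAlgebra A D) (LinearMap.ker π) := LinearMap.range β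
  have hVP : Perf (MonoidAlgebra A D) V := by
    refine (hP J n).congr ?_
    exact (Submodule.quotEquivOfEq _ _ hker.symm).trans β.quotKerEquivRange
  have hV0 : ∀ y ∈ V, fZ y = 0 := by
    rintro y ⟨v, rfl⟩
    apply Ind.ext
    intro x
    apply Subtype.ext
    have h1 := hfZ (β v) x
    have h2 : (fZ (β v) x : M × ((Fin n → MonoidAlgebra A D) ⧸ C)) =
        (LinearMap.ker π).subtype (fZ (β v) x) := rfl
    rw [h2, ← h1]
    change prodZ f ((Fin n → MonoidAlgebra A D) ⧸ C) (β₀ v) x = _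
    rw [prodZ_apply, hβ₀]
    refine Prod.ext ?_ rfl
    change f (-(algebraMap A (MonoidAlgebra A D) c • g v)) x = 0
    have h3 : incD D A (algebraMap A (MonoidAlgebra A D) c) =
        algebraMap A (MonoidAlgebra A G) c := by
      rw [algebraMap_eq_single, algebraMap_eq_single, inc_single, map_one]
    rw [map_neg, Ind.neg_apply, LinearMap.map_smulₛₗ, h3, Ind.alg_smul_apply, hcf, neg_zero]
  obtain ⟨f', hf'⟩ := exists_quot fZ V (fun y hy x => by
    rw [hV0 y hy, Ind.zero_apply]
    exact V.zero_mem)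
  refine ⟨l + l, _, _, _, f', Perf.quot V hVP hZP, SNil.of_surj hf' V.mkQ_surjective hZnil,
    ?_, ?_, fun hN => ?_⟩
  · refine Killed.quot (Killed.sub (Killed.prod hI fun a ha y => ?_) _) V
    exact killed_quot_csub n a ha y
  · intro w
    obtain ⟨⟨⟨m, p⟩, hmp⟩, rfl⟩ := V.mkQ_surjective w
    rw [← map_smul, Submodule.mkQ_apply, Submodule.Quotient.mk_eq_zero]
    obtain ⟨v, rfl⟩ := C.mkQ_surjective p
    refine ⟨v, ?_⟩
    apply Subtype.ext
    rw [hβ, hβ₀]
    have h1 : algebraMap A (MonoidAlgebra A D) c • m + g v = 0 := hmp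
    have h2 : c₀ ^ (l + l) = c * c := by rw [hc, pow_add]
    rw [h2]
    refine Prod.ext ?_ ?_
    · change -(algebraMap A (MonoidAlgebra A D) c • g v) =
        algebraMap A (MonoidAlgebra A D) (c * c) • m
      rw [eq_neg_of_add_eq_zero_right h1, smul_neg, neg_neg, smul_smul, ← map_mul]
    · change C.mkQ (algebraMap A (MonoidAlgebra A D) (c * c) • v) =
        algebraMap A (MonoidAlgebra A D) (c * c) • C.mkQ v
      rw [map_smul]
  · -- the class
    have h1 : NGM K fZ := by
      refine NGM.mid K (i := V.subtype) (q := V.mkQ) V.injective_subtype V.mkQ_surjective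
        (exact_of_sub V) (fun m x => ?_) hf' (NGM.zero K hVP) hN
      have h6 : fZ (V.subtype m) = 0 := hV0 m.1 m.2
      rw [h6]
      exact (map_zero V.subtype).symm
    have h2 : NGM K (prodZ f ((Fin n → MonoidAlgebra A D) ⧸ C)) := by
      refine NGM.mid K (i := (LinearMap.ker π).subtype) (q := π)
        (LinearMap.ker π).injective_subtype hπs (fun y => ?_) hfZ hπf h1 (NGM.zero K hM)
      exact ⟨fun h => ⟨⟨y, h⟩, rfl⟩, fun ⟨x, hx⟩ => by rw [← hx]; exact x.2⟩
    refine NGM.left K (i := LinearMap.inl (MonoidAlgebra A D) M _)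
      (q := LinearMap.snd (MonoidAlgebra A D) M _) LinearMap.inl_injective
      LinearMap.snd_surjective (fun y => ⟨fun h => ⟨y.1, Prod.ext rfl h.symm⟩, ?_⟩)
      (prodZ_inl f _) (prodZ_snd f _) h2 (NGM.zero K hQP)
    rintro ⟨x, rfl⟩
    rfl

end

end Pool.Agent.Lib.MP_551055_al.T4
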