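import Mathlib
import Pool.Agent.Lib.MP_551055_al.Trim.Descent
import Pool.Agent.Lib.MP_551055_al.Trim.LS.Stmts
import Pool.Agent.Lib.MP_551055_al.Trim.T4.Csub
import Pool.Agent.Lib.MP_551055_al.Trim.T4.Ind0

/-!
# Generic local freeness of socles: the induced modules
-/

set_option autoImplicit false

namespace Pool.Agent.Lib.MP_551055_al
end Pool.Agent.Lib.MP_551055_al

namespace Pool.Agent.Lib.MP_551055_al.T4

open Pool.Agent.Lib.MP_551055_al

universe u

section Coeff

variable {A : Type u} [CommRing A] {Γ : Type u} [Group Γ] {ι : Type} {J : ι → Ideal A}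

/-- The coefficients of the elements of a quotient of a free module. -/
noncomputable def cf (J : ι → Ideal A) (h : Γ) (i : ι) :
    ((ι → MonoidAlgebra A Γ) ⧸ csub Γ J) →+ A ⧸ J i :=
  QuotientAddGroup.lift (csub Γ J).toAddSubgroup
    { toFun := fun v => Ideal.Quotient.mk (J i) ((v i).coeff h)
      map_zero' := map_zero _
      map_add' := fun v w => map_add (Ideal.Quotient.mk (J i)) ((v i).coeff h) ((w i).coeff h) }
    (fun _ hv => Ideal.Quotient.eq_zero_iff_mem.2 (hv i h))

theorem cf_mk (h : Γ) (i : ι) (v : ι → MonoidAlgebra A Γ) :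
    cf J h i ((csub Γ J).mkQ v) = Ideal.Quotient.mk (J i) ((v i).coeff h) := rfl

theorem cf_ext {y : (ι → MonoidAlgebra A Γ) ⧸ csub Γ J} (hy : ∀ h i, cf J h i y = 0) : y = 0 := by
  obtain ⟨v, rfl⟩ := Submodule.mkQ_surjective _ y
  refine (Submodule.Quotient.mk_eq_zero _).2 fun i h => ?_
  exact Ideal.Quotient.eq_zero_iff_mem.1 ((cf_mk h i v).symm.trans (hy h i))

theorem cf_single_smul (g h : Γ) (i : ι) (y : (ι → MonoidAlgebra A Γ) ⧸ csub Γ J) :
    cf J h i ((MonoidAlgebra.single g 1 : MonoidAlgebra A Γ) • y) = cf J (g⁻¹ * h) i y := by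
  obtain ⟨v, rfl⟩ := Submodule.mkQ_surjective _ y
  rw [← map_smul, cf_mk, cf_mk, Pi.smul_apply, smul_eq_mul,
    MonoidAlgebra.coeff_single_mul_apply, one_mul]

end Coeff

section Ind

variable {A : Type u} [CommRing A] {G : Type u} [Group G] {D : Subgroup G} {ι : Type}
  (J : ι → Ideal A)

/-- The inclusion of the vectors modulo `J`. -/
noncomputable def incJ : ((ι → MonoidAlgebra A D) ⧸ csub D J) →ₛₗ[incD D A]
    ((ι → MonoidAlgebra A G) ⧸ csub G J) :=
  Submodule.liftQ (csub D J)
    { toFun := fun v => (csub G J).mkQ fun i => incD D A (v i)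
      map_add' := by
        intro v w
        rw [← map_add]
        congr 1
        funext i
        exact map_add _ _ _
      map_smul' := by
        intro r v
        rw [← map_smul]
        congr 1
        funext i
        exact map_mul _ _ _ }
    (by
      intro v hv
      rw [LinearMap.mem_ker]
      refine (Submodule.Quotient.mk_eq_zero _).2 fun i h => ?_
      by_cases hh : h ∈ D
      · have h1 : (incD D A (v i)).coeff (D.subtype ⟨h, hh⟩) = (v i).coeff ⟨h, hh⟩ :=
          inc_coeff_apply D.subtype (Subgroup.subtype_injective D) (v i) ⟨h, hh⟩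
        change (incD D A (v i)).coeff (D.subtype ⟨h, hh⟩) ∈ J i
        rw [h1]
        exact hv i _
      · rw [inc_coeff_of_notMem]
        · exact (J i).zero_mem
        · rintro ⟨d, rfl⟩
          exact hh d.2)

theorem incJ_mk (v : ι → MonoidAlgebra A D) :
    incJ (G := G) J ((csub D J).mkQ v) = (csub G J).mkQ fun i => incD D A (v i) := rfl

theorem cf_incJ (d : D) (i : ι) (y : (ι → MonoidAlgebra A D) ⧸ csub D J) :
    cf J (d : G) i (incJ J y) = cf J d i y := by
  obtain ⟨v, rfl⟩ := Submodule.mkQ_surjective _ y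
  rw [incJ_mk, cf_mk, cf_mk]
  have h1 : (incD D A (v i)).coeff (D.subtype d) = (v i).coeff d :=
    inc_coeff_apply D.subtype (Subgroup.subtype_injective D) (v i) d
  change Ideal.Quotient.mk (J i) ((incD D A (v i)).coeff (D.subtype d)) = _
  rw [h1]

theorem cf_incJ_of_notMem {h : G} (hh : h ∉ D) (i : ι)
    (y : (ι → MonoidAlgebra A D) ⧸ csub D J) : cf J h i (incJ J y) = 0 := by
  obtain ⟨v, rfl⟩ := Submodule.mkQ_surjective _ y
  rw [incJ_mk, cf_mk, inc_coeff_of_notMem, map_zero]
  rintro ⟨d, rfl⟩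
  exact hh d.2

/-- The induced module of a quotient of a free module. -/
noncomputable def toSJ : Ind A D ((ι → MonoidAlgebra A D) ⧸ csub D J) →ₗ[MonoidAlgebra A G]
    ((ι → MonoidAlgebra A G) ⧸ csub G J) := Ind.lift (incJ J)

theorem cf_toSJ (φ : Ind A D ((ι → MonoidAlgebra A D) ⧸ csub D J)) (x : G ⧸ D) (d : D) (i : ι) :
    cf J (rep D x * d) i (toSJ J φ) = cf J d i (φ x) := by
  refine Ind.induction (Q := fun φ => cf J (rep D x * d) i (toSJ J φ) = cf J d i (φ x)) φ
    ?_ ?_ ?_
  · rw [map_zero, Ind.zero_apply, map_zero, map_zero]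
  · intro φ ψ h1 h2
    rw [map_add, map_add, Ind.add_apply, map_add, h1, h2]
  · intro y m
    rw [toSJ, Ind.lift_sg, cf_single_smul]
    by_cases hxy : x = y
    · subst hxy
      rw [inv_mul_cancel_left, cf_incJ, Ind.sg_self]
    · rw [Ind.sg_ne hxy, map_zero, cf_incJ_of_notMem]
      intro h
      apply hxy
      have h1 : (rep D y)⁻¹ * rep D x ∈ D := by
        have h2 := D.mul_mem h (D.inv_mem d.2)
        simpa [mul_assoc] using h2
      have h3 := QuotientGroup.eq.2 h1
      rw [mk_rep, mk_rep] at h3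
      exact h3.symm

theorem toSJ_injective : Function.Injective (toSJ (G := G) (D := D) J) := by
  rw [injective_iff_map_eq_zero]
  intro φ hφ
  refine Ind.ext fun x => ?_
  rw [Ind.zero_apply]
  refine cf_ext fun d i => ?_
  rw [← cf_toSJ, hφ, map_zero]

end Ind

end Pool.Agent.Lib.MP_551055_al.T4
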