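import Mathlib
import Pool.Agent.Lib.MP_551055_al.Trim.Descent
import Pool.Agent.Lib.MP_551055_al.Trim.T4.Gen

/-!
# Generic local freeness of socles
-/

set_option autoImplicit false

namespace Pool.Agent.Lib.MP_551055_al
end Pool.Agent.Lib.MP_551055_al

namespace Pool.Agent.Lib.MP_551055_al.T4

open Pool.Agent.Lib.MP_551055_al

universe u v w x

variable {A : Type v} [CommRing A] {G : Type u} [Group G] {D : Subgroup G}

theorem incB_algebraMap (B : Type v) [CommRing B] (D : Subgroup G) (a : B) :
    inc B D.subtype (algebraMap B (MonoidAlgebra B D) a) = algebraMap B (MonoidAlgebra B G) a := by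
  change inc B D.subtype (MonoidAlgebra.single 1 a) = MonoidAlgebra.single 1 a
  rw [inc_single, map_one]

theorem red_inc (q : Ideal A) (D : Subgroup G) (r : MonoidAlgebra A D) :
    red q G (inc A D.subtype r) = inc (A ⧸ q) D.subtype (red q D r) := by
  induction r using MonoidAlgebra.induction_linear with
  | zero => rw [map_zero, map_zero, map_zero, map_zero]
  | add a b ha hb => rw [map_add, map_add, map_add, map_add, ha, hb]
  | single d a =>
    rw [inc_single]
    change MonoidAlgebra.mapRingHom G _ _ = inc (A ⧸ q) D.subtype (MonoidAlgebra.mapRingHom D _ _)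
    rw [MonoidAlgebra.mapRingHom_single, MonoidAlgebra.mapRingHom_single, inc_single]

end Pool.Agent.Lib.MP_551055_al.T4
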